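import Mathlib

/-!
# The Łojasiewicz inequality over an algebraically closed field with an absolute value

If `f_1, ..., f_r` are polynomials and `δ > 0` then for some `ε > 0` every point `z` of the unit ball
with `|f_k(z)| ≤ ε` for all `k` is at distance at most `δ` from a common zero of the `f_k`.
-/

set_option autoImplicit false

open MvPolynomial Filter Topology Asymptotics

namespace Pool.Agent.Q219.PT

section Loj

variable {k : Type*} [NormedField k]


theorem bigO_mul {l : Filter ℕ} {f g : ℕ → k} (hf : f =O[l] (fun _ : ℕ => (1 : ℝ))) (hg : g =O[l] (fun _ : ℕ => (1 : ℝ))) :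
    (fun j => f j * g j) =O[l] (fun _ : ℕ => (1 : ℝ)) := by
  have h := hf.mul hg
  simpa using h

theorem bigO_mul_littleO {l : Filter ℕ} {f g : ℕ → k} (hf : f =O[l] (fun _ : ℕ => (1 : ℝ))) (hg : g =o[l] (fun _ : ℕ => (1 : ℝ))) :
    (fun j => f j * g j) =o[l] (fun _ : ℕ => (1 : ℝ)) := by
  have h := hf.mul_isLittleO hg
  simpa using h

theorem littleO_mul_bigO {l : Filter ℕ} {f g : ℕ → k} (hf : f =o[l] (fun _ : ℕ => (1 : ℝ))) (hg : g =O[l] (fun _ : ℕ => (1 : ℝ))) :
    (fun j => f j * g j) =o[l] (fun _ : ℕ => (1 : ℝ)) := by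
  have h := hf.mul_isBigO hg
  simpa using h

/-- Polynomials are bounded on bounded sequences, and continuous. -/
theorem eval_bdd {σ : Type*} {l : Filter ℕ} {z w : ℕ → σ → k}
    (hz : ∀ i, (fun j => z j i) =O[l] (fun _ : ℕ => (1 : ℝ))) (hw : ∀ i, (fun j => w j i - z j i) =o[l] (fun _ : ℕ => (1 : ℝ)))
    (f : MvPolynomial σ k) :
    (fun j => eval (z j) f) =O[l] (fun _ : ℕ => (1 : ℝ)) ∧ (fun j => eval (w j) f - eval (z j) f) =o[l] (fun _ : ℕ => (1 : ℝ)) := by
  induction f using MvPolynomial.induction_on with
  | C c =>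
    constructor
    · simp only [eval_C]
      exact isBigO_const_const _ one_ne_zero _
    · simp only [eval_C, sub_self]
      exact isLittleO_zero _ _
  | add f g hf hg =>
    constructor
    · simp only [map_add]
      exact hf.1.add hg.1
    · have h := hf.2.add hg.2
      refine h.congr_left fun j => ?_
      simp only [map_add]
      ring
  | mul_X f i hf =>
    constructor
    · simp only [map_mul, eval_X]
      exact bigO_mul hf.1 (hz i)
    · have h1 : (fun j => w j i) =O[l] (fun _ : ℕ => (1 : ℝ)) := by
        have h := (hw i).isBigO.add (hz i)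
        refine h.congr_left fun j => ?_
        ring
      have h2 := (littleO_mul_bigO hf.2 h1).add (bigO_mul_littleO hf.1 (hw i))
      refine h2.congr_left fun j => ?_
      simp only [map_mul, eval_X]
      ring

/-- A sequence which is not small along an ultrafilter is bounded below. -/
theorem bounded_below {𝒰 : Ultrafilter ℕ} {f : ℕ → k} (hf : ¬ f =o[(𝒰 : Filter ℕ)] (fun _ : ℕ => (1 : ℝ))) :
    ∃ c : ℝ, 0 < c ∧ ∀ᶠ j in (𝒰 : Filter ℕ), c ≤ ‖f j‖ := by
  rw [isLittleO_iff] at hf
  push Not at hf
  obtain ⟨c, hc, h⟩ := hf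
  refine ⟨c, hc, ?_⟩
  filter_upwards [h] with j hj
  rw [norm_one, mul_one] at hj
  exact hj.le

theorem root_near [IsAlgClosed k] {P : Polynomial k} (hP : 0 < P.natDegree) (t : k) :
    ∃ r, P.eval r = 0 ∧ ‖t - r‖ ^ P.natDegree ≤ ‖P.eval t‖ / ‖P.leadingCoeff‖ := by
  have hs : P.Splits := IsAlgClosed.splits P
  have hP0 : P ≠ 0 := by
    rintro rfl
    simp at hP
  have hlc : ‖P.leadingCoeff‖ ≠ 0 := norm_ne_zero_iff.2 (Polynomial.leadingCoeff_ne_zero.2 hP0)
  have hcard : P.roots.card = P.natDegree := hs.natDegree_eq_card_roots.symm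
  have h1 : P.eval t = P.leadingCoeff * (P.roots.map fun r => t - r).prod := by
    conv_lhs => rw [hs.eq_prod_roots]
    rw [Polynomial.eval_mul, Polynomial.eval_C, Polynomial.eval_multiset_prod, Multiset.map_map]
    simp
  have hne : P.roots ≠ 0 := by
    intro h
    rw [h, Multiset.card_zero] at hcard
    omega
  obtain ⟨r, hr, hmin⟩ := Multiset.exists_min_image (fun r => ‖t - r‖₊) hne
  refine ⟨r, Polynomial.isRoot_of_mem_roots hr, ?_⟩
  have h2 : ‖t - r‖₊ ^ P.natDegree ≤ (P.roots.map fun r => ‖t - r‖₊).prod := by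
    have h := Multiset.pow_card_le_prod (s := P.roots.map fun r => ‖t - r‖₊) (a := ‖t - r‖₊)
      (by
        intro x hx
        obtain ⟨b, hb, rfl⟩ := Multiset.mem_map.1 hx
        exact hmin b hb)
    rwa [Multiset.card_map, hcard] at h
  have h3 : ‖(P.roots.map fun r => t - r).prod‖₊ = (P.roots.map fun r => ‖t - r‖₊).prod := by
    rw [← nnnormHom_apply, map_multiset_prod, Multiset.map_map]
    rfl
  have h4 : ‖P.eval t‖ / ‖P.leadingCoeff‖ = ((P.roots.map fun r => ‖t - r‖₊).prod : NNReal) := by
    rw [← h3, h1, norm_mul, coe_nnnorm]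
    field_simp
  rw [h4]
  have h5 := NNReal.coe_le_coe.2 h2
  rwa [NNReal.coe_pow, coe_nnnorm] at h5

/-- The value at `(t, v)` of a polynomial in the first variable with coefficients in the others. -/
noncomputable def sval {n : ℕ} (v : Fin n → k) (t : k) (P : Polynomial (MvPolynomial (Fin n) k)) : k :=
  Polynomial.eval t (P.map (eval v))

theorem sval_add {n : ℕ} (v : Fin n → k) (t : k) (P Q : Polynomial (MvPolynomial (Fin n) k)) :
    sval v t (P + Q) = sval v t P + sval v t Q := by
  simp [sval]

theorem sval_sub {n : ℕ} (v : Fin n → k) (t : k) (P Q : Polynomial (MvPolynomial (Fin n) k)) :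
    sval v t (P - Q) = sval v t P - sval v t Q := by
  simp [sval]

theorem sval_mul {n : ℕ} (v : Fin n → k) (t : k) (P Q : Polynomial (MvPolynomial (Fin n) k)) :
    sval v t (P * Q) = sval v t P * sval v t Q := by
  simp [sval]

theorem sval_C {n : ℕ} (v : Fin n → k) (t : k) (c : MvPolynomial (Fin n) k) :
    sval v t (Polynomial.C c) = eval v c := by
  simp [sval]

theorem sval_X {n : ℕ} (v : Fin n → k) (t : k) : sval v t Polynomial.X = t := by
  simp [sval]

theorem sval_pow {n : ℕ} (v : Fin n → k) (t : k) (P : Polynomial (MvPolynomial (Fin n) k))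
    (m : ℕ) : sval v t (P ^ m) = sval v t P ^ m := by
  simp [sval]

theorem sval_bdd {n : ℕ} {l : Filter ℕ} {z w : ℕ → Fin n → k} {t s : ℕ → k}
    (hz : ∀ i, (fun j => z j i) =O[l] (fun _ : ℕ => (1 : ℝ))) (hw : ∀ i, (fun j => w j i - z j i) =o[l] (fun _ : ℕ => (1 : ℝ)))
    (ht : t =O[l] (fun _ : ℕ => (1 : ℝ))) (hs : (fun j => s j - t j) =o[l] (fun _ : ℕ => (1 : ℝ))) (P : Polynomial (MvPolynomial (Fin n) k)) :
    (fun j => sval (z j) (t j) P) =O[l] (fun _ : ℕ => (1 : ℝ)) ∧
      (fun j => sval (w j) (s j) P - sval (z j) (t j) P) =o[l] (fun _ : ℕ => (1 : ℝ)) := by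
  have hs1 : s =O[l] (fun _ : ℕ => (1 : ℝ)) := by
    have h := hs.isBigO.add ht
    refine h.congr_left fun j => ?_
    ring
  induction P using Polynomial.induction_on' with
  | add P Q hP hQ =>
    constructor
    · simp only [sval_add]
      exact hP.1.add hQ.1
    · refine (hP.2.add hQ.2).congr_left fun j => ?_
      simp only [sval_add]
      ring
  | monomial m c =>
    have h1 : ∀ (v : Fin n → k) (x : k), sval v x (Polynomial.monomial m c) =
        eval v c * x ^ m := by
      intro v x
      rw [← Polynomial.C_mul_X_pow_eq_monomial, sval_mul, sval_C, sval_pow, sval_X]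
    simp only [h1]
    have h2 : ∀ m : ℕ, (fun j => t j ^ m) =O[l] (fun _ : ℕ => (1 : ℝ)) ∧ (fun j => s j ^ m) =O[l] (fun _ : ℕ => (1 : ℝ)) ∧
        (fun j => s j ^ m - t j ^ m) =o[l] (fun _ : ℕ => (1 : ℝ)) := by
      intro m
      induction m with
      | zero =>
        refine ⟨?_, ?_, ?_⟩
        · simp only [pow_zero]
          exact isBigO_const_const _ one_ne_zero _
        · simp only [pow_zero]
          exact isBigO_const_const _ one_ne_zero _
        · simp only [pow_zero, sub_self]
          exact isLittleO_zero _ _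
      | succ m ih =>
        refine ⟨?_, ?_, ?_⟩
        · simp only [pow_succ]
          exact bigO_mul ih.1 ht
        · simp only [pow_succ]
          exact bigO_mul ih.2.1 hs1
        · refine ((littleO_mul_bigO ih.2.2 hs1).add (bigO_mul_littleO ih.1 hs)).congr_left
            fun j => ?_
          ring
    obtain ⟨h3, h4⟩ := eval_bdd hz hw c
    constructor
    · exact bigO_mul h3 (h2 m).1
    · have h5 : (fun j => eval (w j) c) =O[l] (fun _ : ℕ => (1 : ℝ)) := by
        have h := h4.isBigO.add h3
        refine h.congr_left fun j => ?_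
        ring
      refine ((littleO_mul_bigO h4 (h2 m).2.1).add (bigO_mul_littleO h3 (h2 m).2.2)).congr_left
        fun j => ?_
      ring

/-- The choice of the first coordinate. -/
theorem lift_succ [IsAlgClosed k] {n : ℕ} {𝒰 : Ultrafilter ℕ} {z w : ℕ → Fin n → k} {t : ℕ → k}
    (hz : ∀ i, (fun j => z j i) =O[(𝒰 : Filter ℕ)] (fun _ : ℕ => (1 : ℝ)))
    (hw : ∀ i, (fun j => w j i - z j i) =o[(𝒰 : Filter ℕ)] (fun _ : ℕ => (1 : ℝ)))
    (ht : t =O[(𝒰 : Filter ℕ)] (fun _ : ℕ => (1 : ℝ)))
    (hv : ∀ f : MvPolynomial (Fin n) k, (fun j => eval (z j) f) =o[(𝒰 : Filter ℕ)] (fun _ : ℕ => (1 : ℝ)) →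
      ∀ᶠ j in (𝒰 : Filter ℕ), eval (w j) f = 0) :
    ∃ s : ℕ → k, (fun j => s j - t j) =o[(𝒰 : Filter ℕ)] (fun _ : ℕ => (1 : ℝ)) ∧
      ∀ Q : Polynomial (MvPolynomial (Fin n) k),
        (fun j => sval (z j) (t j) Q) =o[(𝒰 : Filter ℕ)] (fun _ : ℕ => (1 : ℝ)) →
        ∀ᶠ j in (𝒰 : Filter ℕ), sval (w j) (s j) Q = 0 := by
  classical
  let small : MvPolynomial (Fin n) k → Prop := fun f => (fun j => eval (z j) f) =o[(𝒰 : Filter ℕ)] (fun _ : ℕ => (1 : ℝ))
  let Small : Polynomial (MvPolynomial (Fin n) k) → Prop := fun Q =>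
    (fun j => sval (z j) (t j) Q) =o[(𝒰 : Filter ℕ)] (fun _ : ℕ => (1 : ℝ))
  -- the leading term does not matter if its coefficient is small
  have herase : ∀ Q : Polynomial (MvPolynomial (Fin n) k), ∀ (v : Fin n → k) (x : k),
      sval v x Q = sval v x Q.eraseLead + eval v Q.leadingCoeff * x ^ Q.natDegree := by
    intro Q v x
    conv_lhs => rw [← Polynomial.eraseLead_add_C_mul_X_pow Q]
    rw [sval_add, sval_mul, sval_C, sval_pow, sval_X]
  by_cases hex : ∃ m : ℕ, ∃ P : Polynomial (MvPolynomial (Fin n) k), P.natDegree = m ∧ Small P ∧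
      ¬ small P.leadingCoeff
  swap
  · -- the transcendental case
    refine ⟨t, ?_, ?_⟩
    · simp only [sub_self]
      exact isLittleO_zero _ _
    · push Not at hex
      have key : ∀ (m : ℕ) (Q : Polynomial (MvPolynomial (Fin n) k)), Q.natDegree < m → Small Q →
          ∀ᶠ j in (𝒰 : Filter ℕ), sval (w j) (t j) Q = 0 := by
        intro m
        induction m with
        | zero => intro Q hQ; omega
        | succ m ih =>
          intro Q hQm hQ
          have hl : small Q.leadingCoeff := hex _ Q rfl hQ
          have h1 : Small Q.eraseLead := by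
            have h2 := hQ.sub (littleO_mul_bigO hl (show (fun j => t j ^ Q.natDegree)
              =O[(𝒰 : Filter ℕ)] (fun _ : ℕ => (1 : ℝ)) by
                have h := ht.pow Q.natDegree
                simpa using h))
            refine h2.congr_left fun j => ?_
            rw [herase Q]
            ring
          rcases Nat.eq_zero_or_pos Q.natDegree with h0 | h0
          · have h3 := hv _ hl
            filter_upwards [h3] with j hj
            rw [Polynomial.eq_C_of_natDegree_eq_zero h0, sval_C]
            rw [Polynomial.leadingCoeff, h0] at hj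
            exact hj
          · have h3 := ih Q.eraseLead (by
              have := Polynomial.eraseLead_natDegree_lt_or_eraseLead_eq_zero Q
              rcases this with h | h
              · omega
              · rw [h, Polynomial.natDegree_zero]; omega) h1
            filter_upwards [h3, hv _ hl] with j hj hj2
            rw [herase Q, hj, hj2, zero_mul, zero_add]
      exact fun Q hQ => key _ Q (Nat.lt_succ_self _) hQ
  · obtain ⟨P, hPm, hPs, hPl⟩ := Nat.find_spec hex
    set m := Nat.find hex with hm
    have hmin : ∀ Q : Polynomial (MvPolynomial (Fin n) k), Small Q → ¬ small Q.leadingCoeff →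
        m ≤ Q.natDegree := fun Q hQ hl => Nat.find_min' hex ⟨Q, rfl, hQ, hl⟩
    have hm0 : 0 < m := by
      rcases Nat.eq_zero_or_pos m with h0 | h0
      · exfalso
        apply hPl
        rw [h0] at hPm
        have h1 := hPs
        change (fun j => sval (z j) (t j) P) =o[(𝒰 : Filter ℕ)] (fun _ : ℕ => (1 : ℝ)) at h1
        rw [Polynomial.eq_C_of_natDegree_eq_zero hPm] at h1
        simp only [sval_C] at h1
        rw [Polynomial.leadingCoeff, hPm]
        exact h1
      · exact h0
    set c := P.leadingCoeff with hc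
    -- the leading coefficient is bounded below
    have hcw : ¬ (fun j => eval (w j) c) =o[(𝒰 : Filter ℕ)] (fun _ : ℕ => (1 : ℝ)) := by
      intro h
      apply hPl
      refine (h.sub (eval_bdd hz hw c).2).congr_left fun j => ?_
      ring
    obtain ⟨b, hb, hb2⟩ := bounded_below hcw
    have hPt : (fun j => sval (w j) (t j) P) =o[(𝒰 : Filter ℕ)] (fun _ : ℕ => (1 : ℝ)) := by
      have h1 := (sval_bdd hz hw ht (s := t) (by
        simp only [sub_self]
        exact isLittleO_zero _ _) P).2
      refine (h1.add hPs).congr_left fun j => ?_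
      ring
    -- the choice of the roots
    have hchoose : ∀ j, ∃ r : k, b ≤ ‖eval (w j) c‖ → sval (w j) r P = 0 ∧
        ‖t j - r‖ ^ m ≤ ‖sval (w j) (t j) P‖ / b := by
      intro j
      by_cases hbj : b ≤ ‖eval (w j) c‖
      · have hne : eval (w j) c ≠ 0 := by
          intro h
          rw [h, norm_zero] at hbj
          linarith
        have hdeg : (P.map (eval (w j))).natDegree = m := by
          rw [← hPm]
          exact Polynomial.natDegree_map_of_leadingCoeff_ne_zero _ hne
        have hlc : (P.map (eval (w j))).leadingCoeff = eval (w j) c := by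
          rw [Polynomial.leadingCoeff_map_of_leadingCoeff_ne_zero _ hne]
        obtain ⟨r, hr, hr2⟩ := root_near (P := P.map (eval (w j))) (by omega) (t j)
        refine ⟨r, fun _ => ⟨hr, ?_⟩⟩
        rw [hdeg, hlc] at hr2
        refine hr2.trans ?_
        exact div_le_div_of_nonneg_left (norm_nonneg _) hb hbj
      · exact ⟨0, fun h => absurd h hbj⟩
    choose s hs using hchoose
    have hst : (fun j => s j - t j) =o[(𝒰 : Filter ℕ)] (fun _ : ℕ => (1 : ℝ)) := by
      rw [isLittleO_iff]
      intro ε hε
      have h1 := (isLittleO_iff.1 hPt) (show 0 < b * ε ^ m by positivity)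
      filter_upwards [h1, hb2] with j hj hbj
      obtain ⟨-, h2⟩ := hs j hbj
      rw [norm_one, mul_one] at hj ⊢
      have h3 : ‖t j - s j‖ ^ m ≤ ε ^ m := by
        refine h2.trans ?_
        rw [div_le_iff₀ hb]
        linarith
      rw [norm_sub_rev]
      exact le_of_pow_le_pow_left₀ hm0.ne' hε.le h3
    refine ⟨s, hst, ?_⟩
    have hroot : ∀ᶠ j in (𝒰 : Filter ℕ), sval (w j) (s j) P = 0 := by
      filter_upwards [hb2] with j hbj
      exact (hs j hbj).1
    have hcne : ∀ᶠ j in (𝒰 : Filter ℕ), eval (w j) c ≠ 0 := by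
      filter_upwards [hb2] with j hbj h
      rw [h, norm_zero] at hbj
      linarith
    have key : ∀ (M : ℕ) (Q : Polynomial (MvPolynomial (Fin n) k)), Q.natDegree < M → Small Q →
        ∀ᶠ j in (𝒰 : Filter ℕ), sval (w j) (s j) Q = 0 := by
      intro M
      induction M with
      | zero => intro Q hQ; omega
      | succ M ih =>
        intro Q hQm hQ
        by_cases hl : small Q.leadingCoeff
        · have h1 : Small Q.eraseLead := by
            have h2 := hQ.sub (littleO_mul_bigO hl (show (fun j => t j ^ Q.natDegree)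
              =O[(𝒰 : Filter ℕ)] (fun _ : ℕ => (1 : ℝ)) by
                have h := ht.pow Q.natDegree
                simpa using h))
            refine h2.congr_left fun j => ?_
            rw [herase Q]
            ring
          rcases Nat.eq_zero_or_pos Q.natDegree with h0 | h0
          · have h3 := hv _ hl
            filter_upwards [h3] with j hj
            rw [Polynomial.eq_C_of_natDegree_eq_zero h0, sval_C]
            rw [Polynomial.leadingCoeff, h0] at hj
            exact hj
          · have h3 := ih Q.eraseLead (by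
              have := Polynomial.eraseLead_natDegree_lt_or_eraseLead_eq_zero Q
              rcases this with h | h
              · omega
              · rw [h, Polynomial.natDegree_zero]; omega) h1
            filter_upwards [h3, hv _ hl] with j hj hj2
            rw [herase Q, hj, hj2, zero_mul, zero_add]
        · have hmQ := hmin Q hQ hl
          have hQ0 : Q ≠ 0 := by
            rintro rfl
            apply hl
            change (fun j => eval (z j) (Polynomial.leadingCoeff 0)) =o[(𝒰 : Filter ℕ)] (fun _ : ℕ => (1 : ℝ))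
            simp only [Polynomial.leadingCoeff_zero, map_zero]
            exact isLittleO_zero _ _
          have hc0 : c ≠ 0 := by
            intro h
            apply hPl
            change (fun j => eval (z j) c) =o[(𝒰 : Filter ℕ)] (fun _ : ℕ => (1 : ℝ))
            simp only [h, map_zero]
            exact isLittleO_zero _ _
          have hP0 : P ≠ 0 := by
            rintro rfl
            exact hc0 (by rw [hc, Polynomial.leadingCoeff_zero])
          set d := Q.leadingCoeff with hd
          have hd0 : d ≠ 0 := Polynomial.leadingCoeff_ne_zero.2 hQ0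
          set G := Polynomial.C c * Q - Polynomial.C d * Polynomial.X ^ (Q.natDegree - m) * P with hG
          have hGdeg : G.natDegree < Q.natDegree := by
            have h1 : (Polynomial.C c * Q).natDegree = Q.natDegree :=
              Polynomial.natDegree_C_mul hc0
            have h2 : (Polynomial.C d * Polynomial.X ^ (Q.natDegree - m) * P).natDegree =
                Q.natDegree := by
              rw [Polynomial.natDegree_mul (by
                refine mul_ne_zero ?_ (pow_ne_zero _ Polynomial.X_ne_zero)
                rwa [Ne, Polynomial.C_eq_zero]) hP0, Polynomial.natDegree_C_mul_X_pow _ _ hd0, hPm]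
              omega
            have h3 : (Polynomial.C c * Q).leadingCoeff = c * d := by
              rw [Polynomial.leadingCoeff_mul, Polynomial.leadingCoeff_C]
            have h4 : (Polynomial.C d * Polynomial.X ^ (Q.natDegree - m) * P).leadingCoeff =
                c * d := by
              rw [Polynomial.leadingCoeff_mul, Polynomial.leadingCoeff_mul,
                Polynomial.leadingCoeff_C, Polynomial.leadingCoeff_X_pow]
              ring
            have h5 : (Polynomial.C c * Q).degree =
                (Polynomial.C d * Polynomial.X ^ (Q.natDegree - m) * P).degree := by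
              rw [Polynomial.degree_eq_natDegree, Polynomial.degree_eq_natDegree, h1, h2]
              · exact mul_ne_zero (mul_ne_zero (by rwa [Ne, Polynomial.C_eq_zero])
                  (pow_ne_zero _ Polynomial.X_ne_zero)) hP0
              · exact mul_ne_zero (by rwa [Ne, Polynomial.C_eq_zero]) hQ0
            have h6 := Polynomial.degree_sub_lt_left h5 (mul_ne_zero (by rwa [Ne, Polynomial.C_eq_zero])
              hQ0) (by rw [h3, h4])
            rcases eq_or_ne G 0 with h7 | h7
            · rw [h7, Polynomial.natDegree_zero]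
              omega
            · rw [← hG, Polynomial.degree_eq_natDegree h7, Polynomial.degree_eq_natDegree (mul_ne_zero
                (by rwa [Ne, Polynomial.C_eq_zero]) hQ0), h1] at h6
              exact_mod_cast h6
          have hGs : Small G := by
            have h1 : (fun j => sval (z j) (t j) (Polynomial.C c)) =O[(𝒰 : Filter ℕ)] (fun _ : ℕ => (1 : ℝ)) :=
              (sval_bdd hz hw ht (s := t) (by
                simp only [sub_self]
                exact isLittleO_zero _ _) _).1
            have h2 : (fun j => sval (z j) (t j)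
                (Polynomial.C d * Polynomial.X ^ (Q.natDegree - m))) =O[(𝒰 : Filter ℕ)] (fun _ : ℕ => (1 : ℝ)) :=
              (sval_bdd hz hw ht (s := t) (by
                simp only [sub_self]
                exact isLittleO_zero _ _) _).1
            refine ((bigO_mul_littleO h1 hQ).sub (bigO_mul_littleO h2 hPs)).congr_left fun j => ?_
            rw [hG, sval_sub, sval_mul _ _ (Polynomial.C c) Q, sval_mul _ _ _ P]
          have h1 := ih G (by omega) hGs
          filter_upwards [h1, hroot, hcne] with j hj1 hj2 hj3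
          rw [hG, sval_sub, sval_mul, sval_mul _ _ (Polynomial.C d * _), hj2, mul_zero, sub_zero,
            sval_C] at hj1
          exact (mul_eq_zero.1 hj1).resolve_left hj3
    exact fun Q hQ => key _ Q (Nat.lt_succ_self _) hQ

theorem lift [IsAlgClosed k] {𝒰 : Ultrafilter ℕ} (n : ℕ) (z : ℕ → Fin n → k)
    (hz : ∀ i, (fun j => z j i) =O[(𝒰 : Filter ℕ)] (fun _ : ℕ => (1 : ℝ))) :
    ∃ w : ℕ → Fin n → k, (∀ i, (fun j => w j i - z j i) =o[(𝒰 : Filter ℕ)] (fun _ : ℕ => (1 : ℝ))) ∧
      ∀ f : MvPolynomial (Fin n) k, (fun j => eval (z j) f) =o[(𝒰 : Filter ℕ)] (fun _ : ℕ => (1 : ℝ)) →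
        ∀ᶠ j in (𝒰 : Filter ℕ), eval (w j) f = 0 := by
  induction n with
  | zero =>
    refine ⟨z, fun i => i.elim0, fun f hf => ?_⟩
    obtain ⟨c, rfl⟩ := MvPolynomial.C_surjective (Fin 0) f
    simp only [eval_C] at hf ⊢
    have hc : c = 0 := by
      rw [isLittleO_const_const_iff] at hf
      exact hf
    exact Filter.Eventually.of_forall fun _ => hc
  | succ n ih =>
    obtain ⟨w, hw1, hw2⟩ := ih (fun j => Fin.tail (z j)) (fun i => hz i.succ)
    obtain ⟨s, hs1, hs2⟩ := lift_succ (z := fun j => Fin.tail (z j)) (w := w)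
      (t := fun j => z j 0) (fun i => hz i.succ) hw1 (hz 0) hw2
    refine ⟨fun j => Fin.cons (s j) (w j), fun i => ?_, fun f hf => ?_⟩
    · refine Fin.cases ?_ (fun i => ?_) i
      · simpa using hs1
      · simpa [Fin.tail] using hw1 i
    · have h1 := hs2 (finSuccEquiv k n f) (by
        refine hf.congr_left fun j => ?_
        rw [sval, ← eval_eq_eval_mv_eval', Fin.cons_self_tail])
      filter_upwards [h1] with j hj
      rw [sval, ← eval_eq_eval_mv_eval'] at hj
      exact hj

end Loj

/-- **The Łojasiewicz inequality** in the unit ball. -/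
theorem loj {k : Type*} [Field k] [IsAlgClosed k] (a : AbsoluteValue k ℝ) {σ κ : Type*} [Finite σ]
    [Finite κ] (f : κ → MvPolynomial σ k) {δ : ℝ} (hδ : 0 < δ) :
    ∃ ε : ℝ, 0 < ε ∧ ∀ z : σ → k, (∀ i, a (z i) ≤ 1) → (∀ j, a (eval z (f j)) ≤ ε) →
      ∃ x : σ → k, (∀ j, eval x (f j) = 0) ∧ ∀ i, a (z i - x i) ≤ δ := by
  classical
  have : Fintype σ := Fintype.ofFinite σ
  by_contra hno
  push Not at hno
  choose z hz1 hz2 hz3 using fun N : ℕ => hno (1 / ((N : ℝ) + 1)) (by positivity)
  letI : NormedField k := a.toNormedField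
  have hnorm : ∀ x : k, ‖x‖ = a x := fun x => rfl
  let e : σ ≃ Fin (Fintype.card σ) := Fintype.equivFin σ
  let 𝒰 : Ultrafilter ℕ := Filter.hyperfilter ℕ
  obtain ⟨w, hw1, hw2⟩ := lift (𝒰 := 𝒰) (Fintype.card σ) (fun N i => z N (e.symm i)) (by
    intro i
    refine IsBigO.of_bound 1 (Filter.Eventually.of_forall fun N => ?_)
    rw [norm_one, mul_one, hnorm]
    exact hz1 N _)
  have hev : ∀ (v : Fin (Fintype.card σ) → k) (g : MvPolynomial σ k),
      eval v (rename e g) = eval (fun i => v (e i)) g := by
    intro v g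
    rw [eval_rename]
    rfl
  have h1 : ∀ j, ∀ᶠ N in (𝒰 : Filter ℕ), eval (w N) (rename e (f j)) = 0 := by
    intro j
    refine hw2 _ ?_
    have h2 : Tendsto (fun N : ℕ => 1 / ((N : ℝ) + 1)) (𝒰 : Filter ℕ) (𝓝 0) :=
      tendsto_one_div_add_atTop_nhds_zero_nat.mono_left Nat.hyperfilter_le_atTop
    have h3 : (fun N => eval (fun i => z N (e.symm i)) (rename e (f j))) =o[(𝒰 : Filter ℕ)]
        (fun _ => (1 : ℝ)) := by
      rw [isLittleO_one_iff, tendsto_zero_iff_norm_tendsto_zero]
      refine squeeze_zero (fun N => norm_nonneg _) (fun N => ?_) h2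
      rw [hev, hnorm]
      simp only [Equiv.symm_apply_apply]
      exact hz2 N j
    exact h3
  have h4 : ∀ i, ∀ᶠ N in (𝒰 : Filter ℕ), ‖w N i - z N (e.symm i)‖ ≤ δ := by
    intro i
    have h5 := (isLittleO_iff.1 (hw1 i)) hδ
    filter_upwards [h5] with N hN
    rwa [norm_one, mul_one] at hN
  have h6 : ∀ᶠ N in (𝒰 : Filter ℕ), (∀ j, eval (w N) (rename e (f j)) = 0) ∧
      ∀ i, ‖w N i - z N (e.symm i)‖ ≤ δ :=
    (eventually_all.2 h1).and (eventually_all.2 h4)
  obtain ⟨N, hN1, hN2⟩ := h6.exists
  obtain ⟨i, hi⟩ := hz3 N (fun i => w N (e i)) fun j => by rw [← hev]; exact hN1 j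
  have h7 := hN2 (e i)
  rw [Equiv.symm_apply_apply, hnorm, ← a.map_neg, neg_sub] at h7
  linarith

end Pool.Agent.Q219.PT
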