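import Pool.Agent.Q219.PT.Defs
import Pool.Agent.Q219.PT.Loj
import Pool.Agent.Y129.TB.Union

/-!
# Approximation in the projective distance: basic facts
-/

set_option autoImplicit false
set_option linter.unusedSectionVars false

open MvPolynomial Pool.Agent.Y129.TA Pool.Agent.Y129.TB

namespace Pool.Agent.Q219.PT

section size

variable {p : ℕ} {C F ι : Type} [Field C] [Field F] [Finite ι] (T : TiltPair p C F)

theorem le_size (x : ι → C) (i : ι) : T.absK (x i) ≤ size T x :=
  le_ciSup (f := fun i => T.absK (x i)) (Set.finite_range _).bddAbove i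

theorem size_nonneg (x : ι → C) : 0 ≤ size T x := by
  rcases isEmpty_or_nonempty ι with h | ⟨⟨i⟩⟩
  · unfold size
    rw [Real.iSup_of_isEmpty]
  · exact (T.absK.nonneg _).trans (le_size T x i)

theorem exists_size [Nonempty ι] (x : ι → C) : ∃ j, T.absK (x j) = size T x :=
  exists_eq_ciSup_of_finite

theorem size_le [Nonempty ι] {x : ι → C} {B : ℝ} (h : ∀ i, T.absK (x i) ≤ B) : size T x ≤ B :=
  ciSup_le h

theorem size_smul [Nonempty ι] (c : C) (x : ι → C) : size T (fun i => c * x i) = T.absK c * size T x := by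
  apply le_antisymm
  · refine size_le T fun i => ?_
    rw [map_mul]
    exact mul_le_mul_of_nonneg_left (le_size T x i) (T.absK.nonneg _)
  · obtain ⟨j, hj⟩ := exists_size T x
    rw [← hj, ← map_mul]
    exact le_size T (fun i => c * x i) j

theorem size_pow [Nonempty ι] (x : ι → C) (q : ℕ) : size T (fun i => x i ^ q) = size T x ^ q := by
  apply le_antisymm
  · refine size_le T fun i => ?_
    rw [map_pow]
    exact pow_le_pow_left₀ (T.absK.nonneg _) (le_size T x i) q
  · obtain ⟨j, hj⟩ := exists_size T x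
    rw [← hj, ← map_pow]
    exact le_size T (fun i => x i ^ q) j

end size

section near

variable {p : ℕ} {C F ι : Type} [Field C] [Field F] [Finite ι] {T : TiltPair p C F} {X X' : Set (ι → C)}

theorem Near.mono {δ δ' : ℝ} (h : δ ≤ δ') {z : ι → C} (hz : Near T X δ z) : Near T X δ' z := by
  obtain ⟨x, hx, hxz⟩ := hz
  exact ⟨x, hx, fun i => (hxz i).trans (mul_le_mul_of_nonneg_right h (size_nonneg T z))⟩

theorem Near.trans [Nonempty ι] {δ δ' : ℝ} {z : ι → C} (hz : Near T X' δ' z) (hδ' : δ' ≤ 1) (hδ : 0 ≤ δ)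
    (h : ∀ x ∈ X', Near T X δ x) : Near T X (max δ' δ) z := by
  obtain ⟨x', hx', hz'⟩ := hz
  obtain ⟨x, hx, hxx⟩ := h x' hx'
  refine ⟨x, hx, fun i => ?_⟩
  have hs : size T x' ≤ size T z := by
    refine size_le T fun i => ?_
    have h1 : x' i = z i + -(z i - x' i) := by ring
    rw [h1]
    refine (T.ultraK _ _).trans (max_le (le_size T z i) ?_)
    rw [AbsoluteValue.map_neg]
    exact (hz' i).trans (mul_le_of_le_one_left (size_nonneg T z) hδ')
  have h2 : z i - x i = (z i - x' i) + (x' i - x i) := by ring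
  rw [h2, max_mul_of_nonneg _ _ (size_nonneg T z)]
  refine (T.ultraK _ _).trans (max_le_max (hz' i) ((hxx i).trans ?_))
  exact mul_le_mul_of_nonneg_left hs hδ

end near

section approx

variable {p : ℕ} {C F ι : Type} [Field C] [Field F] [Finite ι] {T : TiltPair p C F} {E : Type} [Field E]
  [Algebra E F] {X : Set (ι → C)} {d : ℕ}

theorem ApproxWithin.mono {δ δ' : ℝ} (h : δ ≤ δ') (hX : ApproxWithin T E X d δ) :
    ApproxWithin T E X d δ' := by
  obtain ⟨Y, h1, h2, h3, h4⟩ := hX
  exact ⟨Y, h1, h2, h3, fun y hy => (h4 y hy).mono h⟩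

end approx

section roots

variable {k k' : Type} [Field k] [Field k'] [Algebra k k'] {ι : Type}

/-- The polynomial `P(x^q)`. -/
noncomputable def powPoly (q : ℕ) (P : MvPolynomial ι k) : MvPolynomial ι k :=
  aeval (fun i => (X i : MvPolynomial ι k) ^ q) P

theorem aeval_powPoly (q : ℕ) (P : MvPolynomial ι k) (x : ι → k') :
    aeval x (powPoly q P) = aeval (fun i => x i ^ q) P := by
  have h : (aeval x : MvPolynomial ι k →ₐ[k] k').comp
      (aeval (fun i => (X i : MvPolynomial ι k) ^ q)) = aeval (fun i => x i ^ q) := by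
    ext i
    simp
  exact congrArg (fun φ : MvPolynomial ι k →ₐ[k] k' => φ P) h

theorem isConeOver_rootsOf {Y : Set (ι → k')} (hY : IsConeOver k Y) (q : ℕ) :
    IsConeOver k (rootsOf q Y) := by
  obtain ⟨⟨J, rfl⟩, h2⟩ := hY
  constructor
  · refine ⟨Ideal.span (powPoly q '' J), ?_⟩
    ext x
    constructor
    · intro hx
      have hx' : (fun i => x i ^ q) ∈ zeroLocus k' J := hx
      rw [mem_zeroLocus_iff] at hx' ⊢
      intro f hf
      have h3 : Ideal.span (powPoly q '' (J : Set (MvPolynomial ι k))) ≤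
          RingHom.ker (aeval x : MvPolynomial ι k →ₐ[k] k') := by
        rw [Ideal.span_le]
        rintro _ ⟨P, hP, rfl⟩
        change aeval x (powPoly q P) = 0
        rw [aeval_powPoly]
        exact hx' P hP
      exact h3 hf
    · intro hx
      rw [mem_zeroLocus_iff] at hx
      change (fun i => x i ^ q) ∈ zeroLocus k' J
      rw [mem_zeroLocus_iff]
      intro P hP
      rw [← aeval_powPoly]
      exact hx _ (Ideal.subset_span ⟨P, hP, rfl⟩)
  · intro a x hx
    have h3 := h2 (a ^ q) _ hx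
    have h4 : (fun i => (a • x) i ^ q) = a ^ q • (fun i => x i ^ q) := by
      funext i
      simp [mul_pow]
    change (fun i => (a • x) i ^ q) ∈ zeroLocus k' J
    rw [h4]
    exact h3

theorem rootsOf_pow_succ (p m : ℕ) (Y : Set (ι → k)) :
    rootsOf (p ^ (m + 1)) Y = rootsOf p (rootsOf (p ^ m) Y) := by
  ext x
  change (fun i => x i ^ p ^ (m + 1)) ∈ Y ↔ (fun i => (x i ^ p) ^ p ^ m) ∈ Y
  have h : (fun i => x i ^ p ^ (m + 1)) = fun i => (x i ^ p) ^ p ^ m := by
    funext i
    rw [← pow_mul, pow_succ']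
  rw [h]

end roots

section frob

variable {F E ι : Type} [Fintype ι] [Field F] [Field E] [Algebra E F] {p : ℕ} [hp : Fact p.Prime]
  [CharP F p]

theorem aeval_frob [CharP E p] (P : MvPolynomial ι E) (y : ι → F) :
    aeval (fun i => y i ^ p) (MvPolynomial.map (frobenius E p) P) = aeval y P ^ p := by
  have h : (aeval (fun i => y i ^ p) : MvPolynomial ι E →ₐ[E] F).toRingHom.comp
      (MvPolynomial.map (frobenius E p)) =
      (frobenius F p).comp (aeval y : MvPolynomial ι E →ₐ[E] F).toRingHom := by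
    ext i
    · simp [frobenius_def]
    · simp [frobenius_def]
  exact congrArg (fun φ : MvPolynomial ι E →+* F => φ P) h

/-- The image under `(y_i) ↦ (y_i ^ p)`. -/
def powImage (p : ℕ) (Y : Set (ι → F)) : Set (ι → F) := (fun y i => y i ^ p) '' Y

theorem isConeOver_powImage [CharP E p] [IsAlgClosed F] {Y : Set (ι → F)} (hY : IsConeOver E Y) :
    IsConeOver E (powImage p Y) := by
  obtain ⟨⟨J, rfl⟩, h2⟩ := hY
  constructor
  · refine ⟨Ideal.span (MvPolynomial.map (frobenius E p) '' J), ?_⟩
    ext x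
    constructor
    · rintro ⟨y, hy, rfl⟩
      rw [mem_zeroLocus_iff] at hy ⊢
      intro f hf
      have h3 : Ideal.span (MvPolynomial.map (frobenius E p) '' (J : Set (MvPolynomial ι E))) ≤
          RingHom.ker (aeval (fun i => y i ^ p) : MvPolynomial ι E →ₐ[E] F) := by
        rw [Ideal.span_le]
        rintro _ ⟨P, hP, rfl⟩
        change aeval (fun i => y i ^ p) (MvPolynomial.map (frobenius E p) P) = 0
        rw [aeval_frob, hy P hP]
        exact zero_pow hp.out.ne_zero
      exact h3 hf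
    · intro hx
      rw [mem_zeroLocus_iff] at hx
      choose y hy using fun i => IsAlgClosed.exists_pow_nat_eq (x i) hp.out.pos
      refine ⟨y, ?_, funext hy⟩
      rw [mem_zeroLocus_iff]
      intro P hP
      have h3 := hx _ (Ideal.subset_span ⟨P, hP, rfl⟩)
      have h4 : x = fun i => y i ^ p := funext fun i => (hy i).symm
      rw [h4, aeval_frob] at h3
      exact pow_eq_zero_iff hp.out.ne_zero |>.1 h3
  · rintro a _ ⟨y, hy, rfl⟩
    obtain ⟨b, hb⟩ := IsAlgClosed.exists_pow_nat_eq a hp.out.pos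
    refine ⟨b • y, h2 b y hy, ?_⟩
    funext i
    simp [mul_pow, hb]

theorem form_frob {q : MvPolynomial ι F} (hq : IsForm q) :
    IsForm (MvPolynomial.map (frobenius F p) q) := by
  obtain ⟨D, hD, h⟩ := hq
  exact ⟨D, hD, h.map _⟩

theorem eval_frob (P : MvPolynomial ι F) (y : ι → F) :
    eval (fun i => y i ^ p) (MvPolynomial.map (frobenius F p) P) = eval y P ^ p := by
  have h := aeval_frob (E := F) (F := F) (p := p) P y
  rwa [aeval_eq_eval, aeval_eq_eval] at h

theorem form_pow {q : MvPolynomial ι F} (hq : IsForm q) {n : ℕ} (hn : 0 < n) :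
    IsForm (powPoly n q) :=
  form_comp hq hn fun _ => isHomogeneous_X_pow _ _

theorem eval_powPoly (n : ℕ) (P : MvPolynomial ι F) (x : ι → F) :
    eval x (powPoly n P) = eval (fun i => x i ^ n) P := by
  have h := aeval_powPoly (k := F) (k' := F) n P x
  rwa [aeval_eq_eval, aeval_eq_eval] at h

theorem dimGE_powImage {Y : Set (ι → F)} {d : ℕ} (hY : DimGE Y d) : DimGE (powImage p Y) d := by
  intro q hq
  obtain ⟨y, hy, hy0, h⟩ := hY (fun j => powPoly p (q j)) fun j => form_pow (hq j) hp.out.pos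
  refine ⟨_, ⟨y, hy, rfl⟩, fun h0 => hy0 ?_, fun j => ?_⟩
  · funext i
    exact pow_eq_zero_iff hp.out.ne_zero |>.1 (congrFun h0 i)
  · have h1 := h j
    rwa [eval_powPoly] at h1

theorem dimLE_powImage {Y : Set (ι → F)} {d : ℕ} (hY : DimLE Y d) : DimLE (powImage p Y) d := by
  obtain ⟨q, hq, h⟩ := hY
  refine ⟨fun j => MvPolynomial.map (frobenius F p) (q j), fun j => form_frob (hq j), ?_⟩
  rintro _ ⟨y, hy, rfl⟩ h0
  have h1 : y = 0 := h y hy fun j => by
    have h2 := h0 j
    rw [eval_frob] at h2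
    exact pow_eq_zero_iff hp.out.ne_zero |>.1 h2
  funext i
  change y i ^ p = 0
  rw [h1]
  exact zero_pow hp.out.ne_zero

theorem dimGE_rootsOf [IsAlgClosed F] {Y : Set (ι → F)} {d : ℕ} (hY : DimGE Y d) :
    DimGE (rootsOf p Y) d := by
  intro q hq
  obtain ⟨y, hy, hy0, h⟩ := hY (fun j => MvPolynomial.map (frobenius F p) (q j))
    fun j => form_frob (hq j)
  choose z hz using fun i => IsAlgClosed.exists_pow_nat_eq (y i) hp.out.pos
  have hyz : y = fun i => z i ^ p := funext fun i => (hz i).symm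
  refine ⟨z, ?_, fun h0 => hy0 ?_, fun j => ?_⟩
  · change (fun i => z i ^ p) ∈ Y
    rw [← hyz]
    exact hy
  · rw [hyz, h0]
    funext i
    exact zero_pow hp.out.ne_zero
  · have h1 := h j
    rw [hyz, eval_frob] at h1
    exact pow_eq_zero_iff hp.out.ne_zero |>.1 h1

theorem dimLE_rootsOf {Y : Set (ι → F)} {d : ℕ} (hY : DimLE Y d) : DimLE (rootsOf p Y) d := by
  obtain ⟨q, hq, h⟩ := hY
  refine ⟨fun j => powPoly p (q j), fun j => form_pow (hq j) hp.out.pos, fun z hz h0 => ?_⟩
  have h1 := h _ hz fun j => by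
    have h2 := h0 j
    rwa [eval_powPoly] at h2
  funext i
  exact pow_eq_zero_iff hp.out.ne_zero |>.1 (congrFun h1 i)

end frob

end Pool.Agent.Q219.PT
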