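import Pool.Agent.Q219.PT.Cont

/-!
# Conjugate points

Let `i` and `j` be two embeddings of an algebraic closure `A` of `E` in `F`, which are equal on `E`, with
`|i(x)| = |j(x)|`. Then `|P(j(y)♯)| ≤ |P(i(y)♯)|` for all polynomials `P` over `K` and all points `y` over the
ring of integers of `A`.
-/

set_option autoImplicit false
set_option linter.unusedSectionVars false

open MvPolynomial WittVector Pool.Agent.Y129.TA Pool.Agent.Y129.TB

namespace Pool.Agent.Q219.PT

variable {p : ℕ} [hp : Fact p.Prime] {C F : Type} [Field C] [Field F] [CharP F p] [IsAlgClosed F]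

/-- The divisibility in the chain. -/
theorem chain_bound {T : Tilting p C F} {ϖ : T.O} (hϖ : T.absF ϖ = T.absK p) {v : WittVector p T.O}
    (hq : T.θ (teichmuller p ϖ * v) = p) {Y : ℕ → WittVector p T.O}
    (hY : ∀ j, Pool.Agent.Y129.TB.Step (teichmuller p ϖ * v) (Y j) (Y (j + 1))) (c : ℕ) :
    ∃ β : T.O, T.absF β = max (T.absK (T.θ (Y 0))) (T.absK p ^ c) ∧
      ∃ z, Y c = teichmuller p β * z := by
  have hθ : ∀ j, T.θ (Y j) = T.θ (Y 0) := by
    intro j
    induction j with
    | zero => rfl
    | succ j ih => rw [Pool.Agent.Y129.TB.θ_step hq (hY j), ih]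
  obtain ⟨η, hη⟩ := T.surj (T.θ (Y 0))
  have hηa : T.absF η = T.absK (T.θ (Y 0)) := by rw [← T.abs_sharp, hη]
  have hη1 : T.absF η ≤ 1 := by rw [hηa]; exact T.θ_le _
  let η' : T.O := ⟨η, hη1⟩
  have hpp : 0 < T.absK p := T.absK.pos T.p_ne
  rw [← hηa]
  induction c with
  | zero =>
    refine ⟨1, ?_, Y 0, ?_⟩
    · rw [pow_zero, max_eq_right hη1, Subring.coe_one, map_one]
    · rw [map_one, one_mul]
  | succ c ih =>
    obtain ⟨β, hβ, z, hz⟩ := ih
    have hβp : 0 < T.absF β := by rw [hβ]; exact (pow_pos hpp c).trans_le (le_max_right _ _)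
    have hβ0 : β ≠ 0 := fun h => by
      rw [h, Subring.coe_zero, map_zero] at hβp
      exact lt_irrefl _ hβp
    have hγ : ∃ γ : T.O, T.absF γ = max (T.absF η) (T.absK p ^ (c + 1)) := by
      rcases le_total (T.absF η) (T.absK p ^ (c + 1)) with h | h
      · refine ⟨ϖ ^ (c + 1), ?_⟩
        rw [max_eq_right h, Subring.coe_pow, map_pow, hϖ]
      · exact ⟨η', (max_eq_left h).symm⟩
    obtain ⟨γ, hγ⟩ := hγ
    refine ⟨γ, hγ, Pool.Agent.Y129.TB.step_gain hϖ v hβ0 hz ?_ ?_ ?_ (hY c)⟩
    · rw [hθ c, ← hηa, hγ]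
      exact le_max_left _ _
    · rw [hγ, hβ]
      refine max_le_max le_rfl ?_
      exact pow_le_pow_of_le_one hpp.le T.p_lt.le (Nat.le_succ c)
    · rw [hβ, hγ, hϖ, mul_max_of_nonneg _ _ hpp.le]
      refine max_le_max ?_ ?_
      · exact mul_le_of_le_one_left (T.absF.nonneg _) T.p_lt.le
      · rw [pow_succ, mul_comm]

section emb

variable (T : Tilting p C F) {A : Type} [Field A] (i : A →+* F)

/-- The ring of integers of `A`. -/
abbrev intRing : Subring A := T.O.comap i

/-- The embedding of the rings of integers. -/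
def intMap (j : A →+* F) (hj : ∀ x, T.absF (j x) = T.absF (i x)) : intRing T i →+* T.O where
  toFun x := ⟨j x, by
    change T.absF (j x) ≤ 1
    rw [hj]
    exact x.2⟩
  map_one' := Subtype.ext (by simp)
  map_mul' x y := Subtype.ext (by simp)
  map_zero' := Subtype.ext (by simp)
  map_add' x y := Subtype.ext (by simp)

theorem intMap_coe (j : A →+* F) (hj : ∀ x, T.absF (j x) = T.absF (i x)) (x : intRing T i) :
    ((intMap T i j hj x : T.O) : F) = j x := rfl

theorem charP_int : CharP (intRing T i) p :=
  (i.comp (intRing T i).subtype).charP (i.injective.comp Subtype.val_injective) p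

theorem perfect_int [IsAlgClosed A] [CharP (intRing T i) p] : PerfectRing (intRing T i) p :=
  PerfectRing.ofSurjective (intRing T i) p fun x => by
    obtain ⟨y, hy⟩ := IsAlgClosed.exists_pow_nat_eq (x : A) hp.out.pos
    have h1 : T.absF (i y) ≤ 1 := by
      by_contra h
      push Not at h
      have h2 : 1 < T.absF (i y) ^ p := one_lt_pow₀ h hp.out.ne_zero
      rw [← map_pow, ← map_pow, hy] at h2
      exact absurd x.2 (not_le.2 h2)
    exact ⟨⟨y, h1⟩, Subtype.ext hy⟩

/-- Conjugation and the map `θ`. -/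
theorem conj_theta [IsAlgClosed A] {j : A →+* F} (hj : ∀ x, T.absF (j x) = T.absF (i x))
    {q : WittVector p (intRing T i)} {ϖ : T.O} (hϖ : T.absF ϖ = T.absK p) {v : WittVector p T.O}
    (hq : T.θ (teichmuller p ϖ * v) = p)
    (hqi : WittVector.map (intMap T i i fun _ => rfl) q = teichmuller p ϖ * v)
    (hqj : WittVector.map (intMap T i j hj) q = teichmuller p ϖ * v)
    (x : WittVector p (intRing T i)) :
    T.absK (T.θ (WittVector.map (intMap T i j hj) x)) ≤
      T.absK (T.θ (WittVector.map (intMap T i i fun _ => rfl) x)) := by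
  have hch : CharP (intRing T i) p := charP_int T i
  have hpf : PerfectRing (intRing T i) p := perfect_int T i
  have hpp : 0 < T.absK p := T.absK.pos T.p_ne
  choose next hnext using fun x : WittVector p (intRing T i) =>
    Pool.Agent.Y129.TB.Step.exists q x
  let Y : ℕ → WittVector p (intRing T i) := fun n => next^[n] x
  have hY : ∀ n, Pool.Agent.Y129.TB.Step q (Y n) (Y (n + 1)) := by
    intro n
    change Pool.Agent.Y129.TB.Step _ (next^[n] _) (next^[n + 1] _)
    rw [Function.iterate_succ_apply']
    exact hnext _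
  have hYi : ∀ n, Pool.Agent.Y129.TB.Step (teichmuller p ϖ * v)
      (WittVector.map (intMap T i i fun _ => rfl) (Y n))
      (WittVector.map (intMap T i i fun _ => rfl) (Y (n + 1))) := fun n => by
    have h1 := (hY n).map (intMap T i i fun _ => rfl)
    rwa [hqi] at h1
  have hYj : ∀ n, Pool.Agent.Y129.TB.Step (teichmuller p ϖ * v)
      (WittVector.map (intMap T i j hj) (Y n))
      (WittVector.map (intMap T i j hj) (Y (n + 1))) := fun n => by
    have h1 := (hY n).map (intMap T i j hj)
    rwa [hqj] at h1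
  have hθj : ∀ n, T.θ (WittVector.map (intMap T i j hj) (Y n)) =
      T.θ (WittVector.map (intMap T i j hj) x) := by
    intro n
    induction n with
    | zero => rfl
    | succ n ih => rw [Pool.Agent.Y129.TB.θ_step hq (hYj n), ih]
  have key : ∀ c, T.absK (T.θ (WittVector.map (intMap T i j hj) x)) ≤
      max (T.absK (T.θ (WittVector.map (intMap T i i fun _ => rfl) x))) (T.absK p ^ c) := by
    intro c
    obtain ⟨β, hβ, z, hz⟩ := chain_bound hϖ hq
      (Y := fun n => WittVector.map (intMap T i i fun _ => rfl) (Y n)) hYi c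
    have hβ' : T.absF β = max (T.absK (T.θ (WittVector.map (intMap T i i fun _ => rfl) x)))
        (T.absK p ^ c) := hβ
    rw [← hβ', ← hθj c]
    have hβp : 0 < T.absF β := by rw [hβ']; exact (pow_pos hpp c).trans_le (le_max_right _ _)
    have hβ0 : (β : F) ≠ 0 := fun h => by
      rw [h, map_zero] at hβp
      exact lt_irrefl _ hβp
    have hle : ∀ n, T.absF (j ((Y c).coeff n)) ≤ T.absF (β : F) ^ p ^ n := by
      intro n
      rw [hj]
      have h1 : (WittVector.map (intMap T i i fun _ => rfl) (Y c)).coeff n = β ^ p ^ n * z.coeff n := by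
        change (fun n => WittVector.map (intMap T i i fun _ => rfl) (Y n)) c = _ at hz
        rw [show WittVector.map (intMap T i i fun _ => rfl) (Y c) = teichmuller p β * z from hz,
          teich_mul_coeff]
      rw [map_coeff] at h1
      have h2 : i ((Y c).coeff n) = (β : F) ^ p ^ n * (z.coeff n : T.O) := by
        have h3 := congrArg Subtype.val h1
        rw [intMap_coe] at h3
        rw [h3]
        push_cast
        rfl
      rw [h2, map_mul, map_pow]
      exact mul_le_of_le_one_right (pow_nonneg hβp.le _) (z.coeff n).2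
    let z' : WittVector p T.O := WittVector.mk p fun n =>
      ⟨j ((Y c).coeff n) / (β : F) ^ p ^ n, by
        change T.absF _ ≤ 1
        rw [map_div₀, map_pow]
        exact div_le_one_of_le₀ (hle n) (pow_nonneg hβp.le _)⟩
    have hz' : WittVector.map (intMap T i j hj) (Y c) = teichmuller p β * z' := by
      ext n
      rw [teich_mul_coeff, map_coeff, intMap_coe]
      push_cast
      change _ = (β : F) ^ p ^ n * (j ((Y c).coeff n) / (β : F) ^ p ^ n)
      rw [mul_div_cancel₀ _ (pow_ne_zero _ hβ0)]
    rw [hz', map_mul, T.θ_teich, map_mul, T.abs_sharp]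
    exact mul_le_of_le_one_right hβp.le (T.θ_le _)
  by_contra hlt
  push Not at hlt
  obtain ⟨c, hc⟩ := exists_pow_lt_of_lt_one ((T.absK.nonneg _).trans_lt hlt) T.p_lt
  exact absurd (key c) (not_le.2 (max_lt hlt hc))

end emb

section poly

variable {T : Tilting p C F} {K E : Type} [Field K] [Field E] [Algebra K C] [Algebra E F]

/-- The integral elements of `K` are values of `θ` at Witt vectors over the integers of `E`. -/
theorem lift_coeff (B : BaseField T K E) (y : K) (hy : T.absK (algebraMap K C y) ≤ 1) :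
    ∃ x : WittVector p (intRing T (algebraMap E F)),
      T.θ (WittVector.map (intMap T (algebraMap E F) (algebraMap E F) fun _ => rfl) x) =
        algebraMap K C y := by
  obtain ⟨x, hx, hxy⟩ := B.θ_surj y hy
  choose c hc using hx
  refine ⟨WittVector.mk p fun n => ⟨c n, by
    change T.absF (algebraMap E F (c n)) ≤ 1
    rw [hc n]
    exact (x.coeff n).2⟩, ?_⟩
  have h1 : WittVector.map (intMap T (algebraMap E F) (algebraMap E F) fun _ => rfl)
      (WittVector.mk p fun n => ⟨c n, by
        change T.absF (algebraMap E F (c n)) ≤ 1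
        rw [hc n]
        exact (x.coeff n).2⟩) = x := by
    ext n
    rw [map_coeff, intMap_coe]
    exact hc n
  rw [h1]
  exact hxy

variable {A : Type} [Field A] [IsAlgClosed A]

/-- The values of polynomials over `K` at conjugate points. -/
theorem conj_poly (B : BaseField T K E) (i j : A →+* F) (e : E →+* A)
    (hi : i.comp e = algebraMap E F) (hje : j.comp e = algebraMap E F)
    (hj : ∀ x, T.absF (j x) = T.absF (i x)) {ι : Type} [Fintype ι] (P : MvPolynomial ι K)
    (y : ι → A) (hy : ∀ l, T.absF (i (y l)) ≤ 1) :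
    T.absK (aeval (fun l => T.sharp (j (y l))) P) ≤ T.absK (aeval (fun l => T.sharp (i (y l))) P) := by
  classical
  have hpp : 0 < T.absK p := T.absK.pos T.p_ne
  have hi' : ∀ c, i (e c) = algebraMap E F c := fun c => congrArg (fun f : E →+* F => f c) hi
  have hj' : ∀ c, j (e c) = algebraMap E F c := fun c => congrArg (fun f : E →+* F => f c) hje
  -- the map of the rings of integers
  let m : intRing T (algebraMap E F) →+* intRing T i :=
    { toFun := fun c => ⟨e c, by
        change T.absF (i (e c)) ≤ 1
        rw [hi']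
        exact c.2⟩
      map_one' := Subtype.ext (by simp)
      map_mul' := fun x y => Subtype.ext (by simp)
      map_zero' := Subtype.ext (by simp)
      map_add' := fun x y => Subtype.ext (by simp) }
  let E₀ := intMap T (algebraMap E F) (algebraMap E F) fun _ => rfl
  have hmi : (intMap T i i fun _ => rfl).comp m = E₀ := by
    ext c
    exact hi' c
  have hmj : (intMap T i j hj).comp m = E₀ := by
    ext c
    exact hj' c
  -- the element `q` with `θ(q) = p`
  obtain ⟨ϖ₀, hϖ₀⟩ := B.val
  let ϖ' : intRing T (algebraMap E F) := ⟨ϖ₀, by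
    change T.absF _ ≤ 1
    rw [hϖ₀]
    exact T.p_lt.le⟩
  let ϖ : T.O := E₀ ϖ'
  have hϖ : T.absF ϖ = T.absK p := hϖ₀
  have hϖF : (ϖ : F) ≠ 0 := by
    intro h0
    rw [h0, map_zero] at hϖ
    exact hpp.ne hϖ
  obtain ⟨s, hs⟩ := B.θ_mem (teichmuller p ϖ) (fun n => by
    rcases Nat.eq_zero_or_pos n with rfl | hn
    · exact ⟨ϖ₀, by rw [teichmuller_coeff_zero]; rfl⟩
    · exact ⟨0, by rw [teichmuller_coeff_pos p ϖ n hn, map_zero]; rfl⟩)
  have hs1 : T.θ (teichmuller p ϖ) = algebraMap K C s := hs
  rw [T.θ_teich] at hs1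
  have hsne : algebraMap K C s ≠ 0 := by
    rw [← hs1]
    exact T.toTiltPair.sharp_ne hϖF
  have hp' : T.absK (algebraMap K C ((p : K) / s)) ≤ 1 := by
    rw [map_div₀, map_div₀, map_natCast, ← hs1, T.abs_sharp, hϖ, div_self hpp.ne']
  obtain ⟨v₀, hv₀⟩ := lift_coeff B ((p : K) / s) hp'
  have hq : T.θ (teichmuller p ϖ * WittVector.map E₀ v₀) = p := by
    rw [map_mul, hv₀, T.θ_teich, hs1, map_div₀, map_natCast]
    exact mul_div_cancel₀ _ hsne
  let q : WittVector p (intRing T i) := WittVector.map m (teichmuller p ϖ' * v₀)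
  have hqi : WittVector.map (intMap T i i fun _ => rfl) q = teichmuller p ϖ * WittVector.map E₀ v₀ := by
    change WittVector.map (intMap T i i fun _ => rfl) (WittVector.map m _) = _
    rw [map_map', hmi, map_mul, map_teichmuller]
  have hqj : WittVector.map (intMap T i j hj) q = teichmuller p ϖ * WittVector.map E₀ v₀ := by
    change WittVector.map (intMap T i j hj) (WittVector.map m _) = _
    rw [map_map', hmj, map_mul, map_teichmuller]
  -- the coefficients become integral
  obtain ⟨b, hb⟩ : ∃ b : ℝ, ∀ α ∈ P.support, T.absK (algebraMap K C (coeff α P)) ≤ b :=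
    ⟨∑ α ∈ P.support, T.absK (algebraMap K C (coeff α P)), fun α hα =>
      Finset.single_le_sum (f := fun α => T.absK (algebraMap K C (coeff α P)))
        (fun α _ => T.absK.nonneg _) hα⟩
  obtain ⟨N, hN⟩ : ∃ N : ℕ, T.absK p ^ N * max b 1 < 1 := by
    obtain ⟨N, hN⟩ := exists_pow_lt_of_lt_one (show (0 : ℝ) < 1 / max b 1 by positivity) T.p_lt
    refine ⟨N, ?_⟩
    rwa [lt_div_iff₀ (by positivity)] at hN
  have hint : ∀ α, T.absK (algebraMap K C ((p : K) ^ N * coeff α P)) ≤ 1 := by
    intro α
    rw [map_mul, map_mul, map_pow, map_natCast, map_pow]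
    by_cases hα : α ∈ P.support
    · refine (mul_le_mul_of_nonneg_left ((hb α hα).trans (le_max_left b 1))
        (pow_nonneg hpp.le N)).trans hN.le
    · rw [notMem_support_iff.1 hα, map_zero, map_zero, mul_zero]
      exact zero_le_one
  choose H hH using fun α => lift_coeff B ((p : K) ^ N * coeff α P) (hint α)
  let y' : ι → intRing T i := fun l => ⟨y l, hy l⟩
  let x : WittVector p (intRing T i) :=
    ∑ α ∈ P.support, WittVector.map m (H α) * teichmuller p (∏ l, y' l ^ α l)
  have hval : ∀ (j' : A →+* F) (hj' : ∀ x, T.absF (j' x) = T.absF (i x))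
      (hm : (intMap T i j' hj').comp m = E₀),
      T.θ (WittVector.map (intMap T i j' hj') x) =
        (p : C) ^ N * aeval (fun l => T.sharp (j' (y l))) P := by
    intro j' hj' hm
    change T.θ (WittVector.map (intMap T i j' hj') (∑ α ∈ P.support, _)) = _
    rw [map_sum, map_sum, aeval_def, eval₂_eq', Finset.mul_sum]
    refine Finset.sum_congr rfl fun α _ => ?_
    rw [map_mul, map_map', hm, map_teichmuller, map_mul, hH, T.θ_teich, map_mul, map_pow,
      map_natCast, mul_assoc, map_prod]
    congr 2
    push_cast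
    rw [map_prod]
    refine Finset.prod_congr rfl fun l _ => ?_
    rw [map_pow, Subring.coe_pow, intMap_coe, map_pow]
  have h1 := conj_theta T i hj hϖ hq hqi hqj x
  rw [hval j hj hmj, hval i (fun _ => rfl) hmi, map_mul, map_mul] at h1
  exact le_of_mul_le_mul_left h1 (T.absK.pos (pow_ne_zero N T.p_ne))

end poly

end Pool.Agent.Q219.PT
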