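import Pool.Agent.Q219.PT.Step
import Pool.Agent.Y129.TB.Poly

/-!
# Continuity of the sharp map; perturbation of systems of equations
-/

set_option autoImplicit false
set_option linter.unusedSectionVars false

open MvPolynomial WittVector Pool.Agent.Y129.TA Pool.Agent.Y129.TB

namespace Pool.Agent.Q219.PT

section sharp

variable {p : ℕ} [hp : Fact p.Prime] {C F : Type} [Field C] [Field F] [CharP F p] [IsAlgClosed F]

theorem sharp_sub_le (T : Tilting p C F) {x y : F} (hx : T.absF x ≤ 1) (hy : T.absF y ≤ 1) :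
    T.absK (T.sharp x - T.sharp y) ≤ max (T.absF (x - y)) (T.absK p) := by
  let x' : T.O := ⟨x, hx⟩
  let y' : T.O := ⟨y, hy⟩
  have h := Tilting.abs_θ_le T (teichmuller p x' - teichmuller p y')
  rw [map_sub, T.θ_teich, T.θ_teich] at h
  have h2 : (teichmuller p x' - teichmuller p y').coeff 0 = x' - y' := by
    have h3 := map_sub (constantCoeff : WittVector p T.O →+* T.O) (teichmuller p x')
      (teichmuller p y')
    change (teichmuller p x' - teichmuller p y').coeff 0 =
      (teichmuller p x').coeff 0 - (teichmuller p y').coeff 0 at h3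
    rw [h3, teichmuller_coeff_zero, teichmuller_coeff_zero]
  rw [h2] at h
  exact h

theorem sharp_close (T : Tilting p C F) (m : ℕ) : ∀ {x y : F}, T.absF x ≤ 1 → T.absF y ≤ 1 →
    T.absF (x - y) ≤ T.absK p ^ p ^ m → T.absK (T.sharp x - T.sharp y) ≤ T.absK p ^ (m + 1) := by
  have hp0 : 0 ≤ T.absK p := T.absK.nonneg _
  induction m with
  | zero =>
    intro x y hx hy hxy
    rw [pow_zero, pow_one] at hxy
    rw [zero_add, pow_one]
    exact (sharp_sub_le T hx hy).trans (max_le hxy le_rfl)
  | succ m ih =>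
    intro x y hx hy hxy
    obtain ⟨u, hu⟩ := frob_surj T.toTiltPair ⟨x, hx⟩
    obtain ⟨v, hv⟩ := frob_surj T.toTiltPair ⟨y, hy⟩
    have hu' : (u : F) ^ p = x := congrArg Subtype.val hu
    have hv' : (v : F) ^ p = y := congrArg Subtype.val hv
    have h1 : T.absF ((u : F) - v) ≤ T.absK p ^ p ^ m := by
      have h2 : T.absF ((u : F) - v) ^ p ≤ (T.absK p ^ p ^ m) ^ p := by
        rw [← map_pow, sub_pow_char, hu', hv', ← pow_mul, ← pow_succ]
        exact hxy
      exact le_of_pow_le_pow_left₀ hp.out.ne_zero (pow_nonneg hp0 _) h2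
    have h3 := ih u.2 v.2 h1
    have h4 := pow_close T.ultraK hp.out (A := T.sharp (u : F)) (B := T.sharp (v : F)) (M := 1)
      (r := T.absK p ^ (m + 1)) (pow_nonneg hp0 _) (pow_le_one₀ hp0 T.p_lt.le)
      (by rw [T.abs_sharp]; exact u.2) (by rw [mul_one]; exact h3)
    rw [← map_pow, ← map_pow, hu', hv', one_pow, mul_one] at h4
    refine h4.trans (max_le ?_ ?_)
    · rw [← pow_mul]
      refine pow_le_pow_of_le_one hp0 T.p_lt.le ?_
      have := hp.out.two_le
      nlinarith
    · rw [← pow_succ']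

/-- The sharp map is uniformly continuous on the unit ball. -/
theorem sharp_unif (T : Tilting p C F) {η : ℝ} (hη : 0 < η) : ∃ δ : ℝ, 0 < δ ∧ ∀ x y : F,
    T.absF x ≤ 1 → T.absF y ≤ 1 → T.absF (x - y) ≤ δ → T.absK (T.sharp x - T.sharp y) ≤ η := by
  have hpp : 0 < T.absK p := T.absK.pos T.p_ne
  obtain ⟨m, hm⟩ := exists_pow_lt_of_lt_one hη T.p_lt
  refine ⟨T.absK p ^ p ^ m, pow_pos hpp _, fun x y hx hy hxy => ?_⟩
  refine (sharp_close T m hx hy hxy).trans (le_trans ?_ hm.le)
  rw [pow_succ]
  exact mul_le_of_le_one_right (pow_nonneg hpp.le _) T.p_lt.le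

end sharp

section perturb

variable {L : Type} [Field L] [IsAlgClosed L]

/-- Common zeros of a perturbed system are near to common zeros of the system. -/
theorem near_of_perturb {a : AbsoluteValue L ℝ} (ha : ∀ x y, a (x + y) ≤ max (a x) (a y))
    {ι κ : Type} [Fintype ι] [Fintype κ] (g : κ → MvPolynomial ι L) {δ : ℝ} (hδ : 0 < δ) :
    ∃ ε : ℝ, 0 < ε ∧ ∀ g' : κ → MvPolynomial ι L,
      (∀ k m, a (coeff m (g k) - coeff m (g' k)) ≤ ε) → ∀ x : ι → L, (∀ i, a (x i) ≤ 1) →
        (∀ k, eval x (g' k) = 0) → ∃ y : ι → L, (∀ k, eval y (g k) = 0) ∧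
          ∀ i, a (x i - y i) ≤ δ := by
  classical
  obtain ⟨ε, hε, hloj⟩ := loj a g hδ
  refine ⟨ε, hε, fun g' hg x hx hx' => hloj x hx fun k => ?_⟩
  have h1 : eval x (g k) = eval x (g k - g' k) := by rw [map_sub, hx', sub_zero]
  rw [h1, eval_eq']
  refine ultra_sum ha _ _ hε.le fun m _ => ?_
  rw [map_mul, map_prod, coeff_sub]
  refine (mul_le_of_le_one_right (a.nonneg _) ?_).trans (hg k m)
  refine Finset.prod_le_one (fun i _ => a.nonneg _) fun i _ => ?_
  rw [map_pow]
  exact pow_le_one₀ (a.nonneg _) (hx i)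

end perturb

section teich

variable {p : ℕ} [hp : Fact p.Prime] {R : Type} [CommRing R] [IsDomain R] [CharP R p] [PerfectRing R p]

theorem teich_mul_coeff (a : R) (n : ℕ) (x : WittVector p R) :
    (teichmuller p a * x).coeff n = a ^ p ^ n * x.coeff n := by
  induction n generalizing x with
  | zero => rw [pow_zero, pow_one, mul_coeff_zero, teichmuller_coeff_zero]
  | succ n ih =>
    have key : ∀ (b : R) (y : WittVector p R),
        (teichmuller p b + p * y).coeff (n + 1) = y.coeff n ^ p := by
      intro b y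
      rw [coeff_add_of_disjoint]
      · rw [teichmuller_coeff_pos p b (n + 1) (Nat.succ_pos n), zero_add, mul_comm,
          mul_charP_coeff_succ]
      · intro i
        rcases i with _ | i
        · right
          rw [mul_comm, mul_charP_coeff_zero]
        · left
          exact teichmuller_coeff_pos p b (i + 1) (Nat.succ_pos i)
    obtain ⟨x', hx'⟩ := decomp x
    have h1 : teichmuller p a * x = teichmuller p (a * x.coeff 0) + p * (teichmuller p a * x') := by
      conv_lhs => rw [hx']
      rw [map_mul]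
      ring
    have h2 : x.coeff (n + 1) = x'.coeff n ^ p := by
      conv_lhs => rw [hx']
      exact key _ _
    rw [h1, key, ih, h2, mul_pow, ← pow_mul, ← pow_succ]

end teich

end Pool.Agent.Q219.PT
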