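import Pool.Agent.Y129.TB.Final

/-!
# Approximation in the projective distance: definitions

`T : TiltPair p C F` is an algebraically closed perfectoid field `C` with its tilt `F`. The points of
projective space are given by their coordinate vectors.
-/

set_option autoImplicit false

open MvPolynomial Pool.Agent.Y129.TA Pool.Agent.Y129.TB

namespace Pool.Agent.Q219.PT

variable {p : ℕ} {C F ι : Type} [Field C] [Field F]

/-- The maximum of the absolute values of the coordinates of `x`. -/
noncomputable def size (T : TiltPair p C F) (x : ι → C) : ℝ := ⨆ i, T.absK (x i)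

/-- The point `z` is at distance at most `δ` from `X`: there is a point `x` of `X` such that
`|z_i - x_i| ≤ δ ‖z‖` for all `i`. -/
def Near (T : TiltPair p C F) (X : Set (ι → C)) (δ : ℝ) (z : ι → C) : Prop :=
  ∃ x ∈ X, ∀ i, T.absK (z i - x i) ≤ δ * size T z

/-- There is a closed subset `Y` of projective space over `E` (a closed cone defined over `E`), of
dimension `d`, such that `y♯` is at distance at most `δ` from `X` for all points `y` of `Y`
over `F`. -/
def ApproxWithin (T : TiltPair p C F) (E : Type) [Field E] [Algebra E F] (X : Set (ι → C)) (d : ℕ)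
    (δ : ℝ) : Prop :=
  ∃ Y : Set (ι → F), IsConeOver E Y ∧ DimGE Y d ∧ DimLE Y d ∧
    ∀ y ∈ Y, Near T X δ (fun i => T.sharp (y i))

/-- The preimage of `X` under `(x_i) ↦ (x_i ^ q)`. -/
def rootsOf {k : Type} [Field k] (q : ℕ) (X : Set (ι → k)) : Set (ι → k) :=
  {x | (fun i => x i ^ q) ∈ X}

/-- `X` has dimension at most `d` and is a finite union of images `f_i(Z_i)`, where `Z_i` is the set of
the common zeros of `c_i` forms over `K` in projective space of dimension `d + c_i`, and `f_i` is given by
homogeneous polynomials over `K` of the same degree `e_i > 0` without common zeros on `Z_i`. -/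
def IsUnionOfImages {C : Type} [Field C] (K : Type) [Field K] [Algebra K C] {n : ℕ}
    (X : Set (Fin (n + 1) → C)) (d : ℕ) : Prop :=
  DimLEOver K X d ∧ ∃ (N : ℕ) (c m e : Fin N → ℕ)
    (h : ∀ i, Fin (c i) → MvPolynomial (Fin (m i + 1)) K)
    (f : ∀ i, Fin (n + 1) → MvPolynomial (Fin (m i + 1)) K),
    0 < N ∧ (∀ i, m i = d + c i) ∧ (∀ i j, IsForm (h i j)) ∧ (∀ i, 0 < e i) ∧
      (∀ i j, (f i j).IsHomogeneous (e i)) ∧ (∀ i, NoCommonZero C (h i) (f i)) ∧
      X = ⋃ i, imageOver C (h i) (f i)

/-- The member with parameter `t` of the algebraic family `G(t, x) = 0` of subsets of `C ^ ι`. -/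
def member (C : Type) [Field C] {K σ κ : Type} [Field K] [Algebra K C]
    (G : κ → MvPolynomial (σ ⊕ ι) K) (t : σ → K) : Set (ι → C) :=
  {x | ∀ j, aeval (Sum.elim (fun i => algebraMap K C (t i)) x) (G j) = 0}

end Pool.Agent.Q219.PT
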