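import Pool.Agent.Q219.PT.Spec

/-!
# Points of the image in the base field
-/

set_option autoImplicit false
set_option linter.unusedSectionVars false

open MvPolynomial Pool.Agent.Y129.TA Pool.Agent.Y129.TB

namespace Pool.Agent.Q219.PT

section

attribute [local instance] MvPolynomial.algebraMvPolynomial

/-- If all polynomials over `E` in the ideal `J` over the algebraic extension `A` vanish at `y`, then `y`
is a zero of a conjugate of `J`. -/
theorem exists_embedding {E A F ι : Type} [Field E] [Field A] [Field F] [Algebra E A] [Algebra E F]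
    [IsAlgClosed F] [Algebra.IsAlgebraic E A] (J : Ideal (MvPolynomial ι A)) (y : ι → F)
    (hy : ∀ f : MvPolynomial ι E, MvPolynomial.map (algebraMap E A) f ∈ J → aeval y f = 0) :
    ∃ τ : A →ₐ[E] F, ∀ g ∈ J, eval₂ (τ : A →+* F) y g = 0 := by
  have halg : ∀ f : MvPolynomial ι E, algebraMap (MvPolynomial ι E) (MvPolynomial ι A) f =
      MvPolynomial.map (algebraMap E A) f := fun f => rfl
  have hint : Algebra.IsIntegral (MvPolynomial ι E) (MvPolynomial ι A ⧸ J) := inferInstance
  obtain ⟨ψ, hψ⟩ := exists_hom (R := MvPolynomial ι E) (S := MvPolynomial ι A ⧸ J)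
    (aeval y : MvPolynomial ι E →ₐ[E] F).toRingHom (fun f hf => by
      have h1 : Ideal.Quotient.mk J (MvPolynomial.map (algebraMap E A) f) = 0 := hf
      exact hy f (Ideal.Quotient.eq_zero_iff_mem.1 h1))
  have hψ' : ∀ f : MvPolynomial ι E, ψ (Ideal.Quotient.mk J (MvPolynomial.map (algebraMap E A) f)) =
      aeval y f := fun f => congrArg (fun g : MvPolynomial ι E →+* F => g f) hψ
  let τ : A →ₐ[E] F :=
    { toRingHom := (ψ.comp (Ideal.Quotient.mk J)).comp C
      commutes' := fun c => by
        have h1 := hψ' (C c)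
        rw [map_C, aeval_C] at h1
        exact h1 }
  refine ⟨τ, fun g hg => ?_⟩
  have h1 : (ψ.comp (Ideal.Quotient.mk J) : MvPolynomial ι A →+* F) = eval₂Hom (τ : A →+* F) y := by
    apply MvPolynomial.ringHom_ext
    · intro a
      simp [τ]
    · intro i
      have h2 := hψ' (X i)
      rw [map_X, aeval_X] at h2
      simpa using h2
  have h2 : ψ (Ideal.Quotient.mk J g) = 0 := by
    rw [Ideal.Quotient.eq_zero_iff_mem.2 hg, map_zero]
  have h3 := congrArg (fun f : MvPolynomial ι A →+* F => f g) h1
  change ψ (Ideal.Quotient.mk J g) = eval₂ (τ : A →+* F) y g at h3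
  rw [← h3, h2]

end

end Pool.Agent.Q219.PT
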