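import Pool.Agent.Q219.PT.Step

/-!
# The criteria
-/

set_option autoImplicit false
set_option linter.unusedSectionVars false

open MvPolynomial Pool.Agent.Y129.TA Pool.Agent.Y129.TB Filter

namespace Pool.Agent.Q219.PT

variable {p : ℕ} [hp : Fact p.Prime] {C F ι K E : Type} [Field C] [Field F] [CharP F p] [Field K]
  [Field E] [Algebra K C] [Algebra E F] [IsAlgClosed C] [IsAlgClosed F] [Fintype ι] [Nonempty ι]
  {T : TiltPair p C F} {X : Set (ι → C)} {d : ℕ}

theorem approximable_iff (hX : IsConeOver K X) :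
    Approximable T K E X d ↔ ∀ δ : ℝ, 0 < δ → ApproxWithin T E X d δ :=
  ⟨fun h _ hδ => within_of_approximable hX h hδ, approximable_of_within hX⟩

theorem approximable_iff_coarse (hX : IsConeOver K X) :
    Approximable T K E X d ↔ ∀ ε : ℝ, 0 < ε → ∃ m : ℕ, ∃ r : ℝ, 0 < r ∧ r ^ p ^ m ≤ ε ∧
      ApproxWithin T E (rootsOf (p ^ m) X) d r := by
  rw [approximable_iff hX]
  constructor
  · intro h ε hε
    refine ⟨0, ε, hε, by rw [pow_zero, pow_one], within_roots h 0 hε⟩
  · intro h δ hδ
    exact within_of_coarse h hδ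

theorem approximable_iff_roots (hX : IsConeOver K X) (m : ℕ) :
    Approximable T K E X d ↔ Approximable T K E (rootsOf (p ^ m) X) d := by
  rw [approximable_iff (isConeOver_rootsOf hX (p ^ m))]
  constructor
  · intro h δ hδ
    exact within_roots ((approximable_iff hX).1 h) m hδ
  · intro h
    rw [approximable_iff_coarse hX]
    intro ε hε
    refine ⟨m, min ε 1, lt_min hε one_pos, ?_, h _ (lt_min hε one_pos)⟩
    refine (pow_le_of_le_one (le_min hε.le zero_le_one) (min_le_right _ _) ?_).trans
      (min_le_left _ _)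
    exact pow_ne_zero _ hp.out.ne_zero

theorem approximable_iff_frequently (hX : IsConeOver K X) {ρ : ℝ} (hρ : 0 < ρ) (hρ1 : ρ < 1) :
    Approximable T K E X d ↔ ∃ᶠ m in atTop, ApproxWithin T E (rootsOf (p ^ m) X) d ρ := by
  constructor
  · intro h
    exact Eventually.frequently (Eventually.of_forall fun m =>
      within_roots ((approximable_iff hX).1 h) m hρ)
  · intro h
    rw [approximable_iff_coarse hX]
    intro ε hε
    obtain ⟨N, hN⟩ := exists_pow_lt_of_lt_one hε hρ1
    obtain ⟨m, hm, h1⟩ := (frequently_atTop.1 h) N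
    refine ⟨m, ρ, hρ, ?_, h1⟩
    refine le_trans ?_ hN.le
    refine pow_le_pow_of_le_one hρ.le hρ1.le (hm.trans ?_)
    exact (Nat.lt_pow_self hp.out.one_lt).le

/-- Q1 is closed under limits along the roots. -/
theorem approximable_of_limit (hX : IsConeOver K X)
    (h : ∀ ε : ℝ, 0 < ε → ∃ m : ℕ, ∃ r : ℝ, 0 < r ∧ r ^ p ^ m ≤ ε ∧ ∃ X' : Set (ι → C),
      IsConeOver K X' ∧ Approximable T K E X' d ∧ ∀ x ∈ X', Near T (rootsOf (p ^ m) X) r x) :
    Approximable T K E X d := by
  rw [approximable_iff_coarse hX]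
  intro ε hε
  obtain ⟨m, r, hr, hrm, X', hX', h1, h2⟩ := h (min ε 1) (lt_min hε one_pos)
  refine ⟨m, r, hr, hrm.trans (min_le_left _ _), ?_⟩
  have hr1 : r ≤ 1 := by
    by_contra hlt
    push Not at hlt
    have h3 : 1 < r ^ p ^ m := one_lt_pow₀ hlt (pow_ne_zero _ hp.out.ne_zero)
    exact absurd (hrm.trans (min_le_right _ _)) (not_le.2 h3)
  obtain ⟨Y, hY1, hY2, hY3, hY4⟩ := within_of_approximable hX' h1 hr
  refine ⟨Y, hY1, hY2, hY3, fun y hy => ?_⟩
  have h3 := (hY4 y hy).trans hr1 hr.le h2
  rwa [max_self] at h3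

/-- Q1 is closed under specialisation in algebraic families. -/
theorem approximable_of_family {σ κ : Type} [Fintype σ] [Finite κ] (G : κ → MvPolynomial (σ ⊕ ι) K)
    (hG : ∀ t : σ → K, IsConeOver K (member C G t))
    (h : ∀ δ : ℝ, 0 < δ → ∃ t : σ → K, (∀ i, T.absK (algebraMap K C (t i)) ≤ δ) ∧
      Approximable T K E (member C G t) d) :
    Approximable T K E (member C G (0 : σ → K)) d := by
  refine approximable_of_limit (hG 0) fun ε hε => ?_
  let G' : κ → MvPolynomial (σ ⊕ ι) C := fun j => MvPolynomial.map (algebraMap K C) (G j)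
  -- the equations of the special member
  let G₀ : κ → MvPolynomial ι C := fun j => aeval (Sum.elim (fun _ => 0) X) (G' j)
  have hG₀ : ∀ j (x : ι → C), eval x (G₀ j) = eval (Sum.elim (fun _ => 0) x) (G' j) := by
    intro j x
    have h1 : ((eval x).comp (aeval (Sum.elim (fun _ => (0 : MvPolynomial ι C)) X) :
        MvPolynomial (σ ⊕ ι) C →ₐ[C] MvPolynomial ι C).toRingHom) =
        eval (Sum.elim (fun _ => 0) x) := by
      ext i
      · simp
      · rcases i with i | i <;> simp
    exact congrArg (fun φ : MvPolynomial (σ ⊕ ι) C →+* C => φ (G' j)) h1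
  have hmem : ∀ (t : σ → K) (x : ι → C), x ∈ member C G t ↔
      ∀ j, eval (Sum.elim (fun i => algebraMap K C (t i)) x) (G' j) = 0 := by
    intro t x
    refine forall_congr' fun j => ?_
    rw [eval_map_alg]
  obtain ⟨η, hη, hloj⟩ := loj T.absK G₀ hε
  choose L hL0 hL using fun j => lipschitz T.ultraK (G' j)
  obtain ⟨η', hη', hη''⟩ := exists_pos_le (fun j => η / (L j + 1))
    (fun j => div_pos hη (by linarith [hL0 j]))
  obtain ⟨t, ht, happ⟩ := h (min η' 1) (lt_min hη' one_pos)
  refine ⟨0, ε, hε, by rw [pow_zero, pow_one], member C G t, hG t, happ, fun x hx => ?_⟩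
  have h0 : rootsOf (p ^ 0) (member C G (0 : σ → K)) = member C G 0 := by
    ext x
    change (fun i => x i ^ p ^ 0) ∈ member C G 0 ↔ _
    simp only [pow_zero, pow_one]
  rw [h0]
  obtain ⟨j₀, hj₀⟩ := exists_size T x
  by_cases hxj : x j₀ = 0
  · have hs : size T x = 0 := by rw [← hj₀, hxj, map_zero]
    have hx0 : x = 0 := by
      funext i
      have h2 := le_size T x i
      rw [hs] at h2
      exact (T.absK.eq_zero).1 (le_antisymm h2 (T.absK.nonneg _))
    -- zero is in the special member
    refine ⟨0, ?_, fun i => ?_⟩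
    · -- the special member is not empty
      by_contra hno
      have hemp : ¬ ∃ x' : ι → C, (∀ j, eval x' (G₀ j) = 0) ∧
          ∀ i, T.absK ((0 : ι → C) i - x' i) ≤ ε := by
        rintro ⟨x', h5, _⟩
        have h6 : x' ∈ member C G (0 : σ → K) := by
          rw [hmem]
          intro j
          have h7 := h5 j
          rw [hG₀] at h7
          simpa using h7
        have h8 := (hG 0).2 0 x' h6
        rw [zero_smul] at h8
        exact hno h8
      refine hemp (hloj 0 (fun i => by simp) fun j => ?_)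
      have h9 := hL j (Sum.elim (fun _ => 0) 0) (Sum.elim (fun i => algebraMap K C (t i)) 0)
        (by rintro (i | i) <;> simp)
        (by
          rintro (i | i)
          · exact (ht i).trans (min_le_right _ _)
          · simp) (min η' 1) (le_min hη'.le zero_le_one) (by
          rintro (i | i)
          · simpa using (ht i)
          · simpa using (le_min hη'.le zero_le_one))
      have h10 := (hmem t x).1 hx j
      rw [hx0] at h10
      rw [h10, sub_zero, ← hG₀] at h9
      refine h9.trans ?_
      have h4 : L j * min η' 1 ≤ L j * (η / (L j + 1)) :=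
        mul_le_mul_of_nonneg_left ((min_le_left _ _).trans (hη'' j)) (hL0 j)
      refine h4.trans ?_
      rw [mul_div_assoc', div_le_iff₀ (by linarith [hL0 j])]
      nlinarith [hL0 j]
    · rw [hx0]
      simp
      exact mul_nonneg hε.le (size_nonneg T _)
  · have hpos : 0 < T.absK (x j₀) := T.absK.pos hxj
    let z : ι → C := (x j₀)⁻¹ • x
    have hz : z ∈ member C G t := (hG t).2 _ _ hx
    have hz1 : ∀ i, T.absK (z i) ≤ 1 := by
      intro i
      change T.absK ((x j₀)⁻¹ * x i) ≤ 1
      rw [map_mul, map_inv₀, inv_mul_le_iff₀ hpos, mul_one, hj₀]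
      exact le_size T x i
    obtain ⟨x', h5, h6⟩ := hloj z hz1 fun j => by
      have h9 := hL j (Sum.elim (fun _ => 0) z) (Sum.elim (fun i => algebraMap K C (t i)) z)
        (by
          rintro (i | i)
          · simp
          · exact hz1 i)
        (by
          rintro (i | i)
          · exact (ht i).trans (min_le_right _ _)
          · exact hz1 i) (min η' 1) (le_min hη'.le zero_le_one) (by
          rintro (i | i)
          · simpa using (ht i)
          · simpa using (le_min hη'.le zero_le_one))
      rw [(hmem t z).1 hz j, sub_zero, ← hG₀] at h9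
      refine h9.trans ?_
      have h4 : L j * min η' 1 ≤ L j * (η / (L j + 1)) :=
        mul_le_mul_of_nonneg_left ((min_le_left _ _).trans (hη'' j)) (hL0 j)
      refine h4.trans ?_
      rw [mul_div_assoc', div_le_iff₀ (by linarith [hL0 j])]
      nlinarith [hL0 j]
    have h7 : x' ∈ member C G (0 : σ → K) := by
      rw [hmem]
      intro j
      have h8 := h5 j
      rw [hG₀] at h8
      simpa using h8
    refine ⟨x j₀ • x', (hG 0).2 _ _ h7, fun i => ?_⟩
    have h8 : x i - (x j₀ • x') i = x j₀ * (z i - x' i) := by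
      change x i - x j₀ * x' i = x j₀ * ((x j₀)⁻¹ * x i - x' i)
      rw [mul_sub, ← mul_assoc, mul_inv_cancel₀ hxj, one_mul]
    rw [h8, map_mul, ← hj₀, mul_comm]
    exact mul_le_mul_of_nonneg_right (h6 i) hpos.le

end Pool.Agent.Q219.PT
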