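import Pool.Agent.Q219.PT.Dist

/-!
# Systems of homogeneous polynomials without common zeros, and the dimension of specialisations
-/

set_option autoImplicit false
set_option linter.unusedSectionVars false

open MvPolynomial Pool.Agent.Y129.TA Pool.Agent.Y129.TB

namespace Pool.Agent.Q219.PT

/-- Surjectivity of a matrix is an open condition. -/
theorem exists_minor {A F : Type} [CommRing A] [Field F] {r c : Type} [Fintype r] [DecidableEq r]
    [Fintype c] [DecidableEq c] (Φ : Matrix r c A) (χ : A →+* F)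
    (h : ∀ v : r → F, ∃ w : c → F, (Φ.map χ).mulVec w = v) :
    ∃ Δ : A, χ Δ ≠ 0 ∧ ∀ {F' : Type} [Field F'] (χ' : A →+* F'), χ' Δ ≠ 0 →
      ∀ v : r → F', ∃ w : c → F', (Φ.map χ').mulVec w = v := by
  let col : c → (r → F) := fun j i => χ (Φ i j)
  have hspan : Submodule.span F (Set.range col) = ⊤ := by
    rw [eq_top_iff]
    rintro v -
    obtain ⟨w, hw⟩ := h v
    have h1 : v = ∑ j, w j • col j := by
      rw [← hw]
      funext i
      rw [Matrix.mulVec_eq_sum]
      simp only [Finset.sum_apply, Pi.smul_apply]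
      refine Finset.sum_congr rfl fun j _ => ?_
      simp [col, Matrix.transpose_apply, Matrix.map_apply, mul_comm]
    rw [h1]
    exact Submodule.sum_mem _ fun j _ => Submodule.smul_mem _ _ (Submodule.subset_span ⟨j, rfl⟩)
  obtain ⟨κ, a, ha, hsp, hli⟩ := exists_linearIndependent' F col
  rw [hspan] at hsp
  let B : Module.Basis κ F (r → F) := Module.Basis.mk hli hsp.ge
  let e : κ ≃ r := B.indexEquiv (Pi.basisFun F r)
  let f : r → c := fun i => a (e.symm i)
  let N : Matrix r r A := Φ.submatrix id f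
  have hN : (N.map χ).det ≠ 0 := by
    have h1 : LinearIndependent F (N.map χ).col := by
      have h2 : (N.map χ).col = fun i => (col ∘ a) (e.symm i) := by
        funext i j
        rfl
      rw [h2]
      exact hli.comp _ e.symm.injective
    exact ((Matrix.isUnit_iff_isUnit_det _).1 (Matrix.linearIndependent_cols_iff_isUnit.1 h1)).ne_zero
  refine ⟨N.det, ?_, ?_⟩
  · rw [RingHom.map_det]
    exact hN
  · intro F' _ χ' hχ' v
    have hdet : (N.map χ').det ≠ 0 := by
      have h1 := RingHom.map_det χ' N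
      rw [h1] at hχ'
      exact hχ'
    have hu : IsUnit (N.map χ').det := isUnit_iff_ne_zero.2 hdet
    let w' : r → F' := (N.map χ')⁻¹.mulVec v
    have hw' : (N.map χ').mulVec w' = v := by
      change (N.map χ').mulVec ((N.map χ')⁻¹.mulVec v) = v
      rw [Matrix.mulVec_mulVec, Matrix.mul_nonsing_inv _ hu, Matrix.one_mulVec]
    refine ⟨∑ i, w' i • Pi.single (f i) (1 : F'), ?_⟩
    rw [Matrix.mulVec_sum, ← hw']
    funext j
    rw [Matrix.mulVec_eq_sum]
    simp only [Finset.sum_apply, Matrix.mulVec_smul, Matrix.mulVec_single_one, Pi.smul_apply]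
    refine Finset.sum_congr rfl fun i _ => ?_
    simp [N, Matrix.map_apply, mul_comm]

section open_

variable {A F : Type} [CommRing A] [Field F] [IsAlgClosed F] {ι κ : Type} [Fintype ι] [Fintype κ]

/-- The polynomial with the coefficients `w`. -/
noncomputable def polyOf {F : Type} [Field F] (G : κ → MvPolynomial ι A) (D : κ → ℕ) (L : ℕ)
    [Fintype (Σ k, {m : ι →₀ ℕ // m.degree + D k = L})] (χ : A →+* F)
    (w : (Σ k, {m : ι →₀ ℕ // m.degree + D k = L}) → F) : MvPolynomial ι F :=
  ∑ j, C (w j) * MvPolynomial.map χ (monomial j.2.1 1 * G j.1)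

/-- For homogeneous systems, to have no common nonzero zero is an open condition. -/
theorem open_noZero (G : κ → MvPolynomial ι A) (D : κ → ℕ) (hG : ∀ k, (G k).IsHomogeneous (D k))
    (χ : A →+* F) (h : ∀ x : ι → F, (∀ k, eval x (MvPolynomial.map χ (G k)) = 0) → x = 0) :
    ∃ Δ : A, χ Δ ≠ 0 ∧ ∀ {F' : Type} [Field F'] (χ' : A →+* F'), χ' Δ ≠ 0 →
      ∀ x : ι → F', (∀ k, eval x (MvPolynomial.map χ' (G k)) = 0) → x = 0 := by
  classical
  set I : Ideal (MvPolynomial ι F) := Ideal.span (Set.range fun k => MvPolynomial.map χ (G k)) with hI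
  obtain ⟨L, hL0, hL⟩ : ∃ L : ℕ, 0 < L ∧
      (Ideal.span (Set.range (X : ι → MvPolynomial ι F))) ^ L ≤ I := by
    have h1 : Ideal.span (Set.range (X : ι → MvPolynomial ι F)) ≤ I.radical := by
      rw [Ideal.span_le]
      rintro _ ⟨i, rfl⟩
      rw [SetLike.mem_coe, ← vanishingIdeal_zeroLocus_eq_radical (K := F), mem_vanishingIdeal_iff]
      intro w hw
      rw [mem_zeroLocus_iff] at hw
      have hw0 : w = 0 := by
        refine h w fun k => ?_
        have h2 := hw _ (Ideal.subset_span ⟨k, rfl⟩)
        rwa [aeval_eq_eval] at h2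
      rw [aeval_X, hw0]
      rfl
    obtain ⟨L, hL⟩ := Ideal.exists_pow_le_of_le_radical_of_fg h1
      ⟨(Set.finite_range (X : ι → MvPolynomial ι F)).toFinset, by simp⟩
    exact ⟨L + 1, Nat.succ_pos L, (Ideal.pow_le_pow_right (Nat.le_succ L)).trans hL⟩
  let r : Type := {m : ι →₀ ℕ // m.degree = L}
  let c : Type := Σ k, {m : ι →₀ ℕ // m.degree + D k = L}
  have fr : Finite r := (Finsupp.finite_of_degree_le L).subset
    (show {m : ι →₀ ℕ | m.degree = L} ⊆ _ from fun m hm => (show m.degree = L from hm).le)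
  have fc : ∀ k, Finite {m : ι →₀ ℕ // m.degree + D k = L} := fun k =>
    (Finsupp.finite_of_degree_le L).subset
      (show {m : ι →₀ ℕ | m.degree + D k = L} ⊆ _ from fun m hm => by
        have : m.degree + D k = L := hm
        show m.degree ≤ L
        omega)
  have : Fintype r := Fintype.ofFinite r
  have : ∀ k, Fintype {m : ι →₀ ℕ // m.degree + D k = L} := fun k => Fintype.ofFinite _
  let Φ : Matrix r c A := fun m j => coeff m.1 (monomial j.2.1 1 * G j.1)
  -- the polynomial with given coefficients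
  have hcoeff : ∀ {F' : Type} [Field F'] (χ' : A →+* F') (w : c → F') (m : r),
      coeff m.1 (polyOf G D L χ' w) = ((Φ.map χ').mulVec w) m := by
    intro F' _ χ' w m
    rw [polyOf, coeff_sum]
    change _ = ∑ j, (Φ.map χ') m j * w j
    refine Finset.sum_congr rfl fun j _ => ?_
    rw [coeff_C_mul, coeff_map, mul_comm]
    rfl
  have hhom : ∀ {F' : Type} [Field F'] (χ' : A →+* F') (w : c → F'),
      (polyOf G D L χ' w).IsHomogeneous L := by
    intro F' _ χ' w
    refine IsHomogeneous.sum _ _ _ fun j _ => ?_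
    have h1 : ((monomial j.2.1 1 : MvPolynomial ι A) * G j.1).IsHomogeneous L := by
      have h3 : ((monomial j.2.1 1 : MvPolynomial ι A) * G j.1).IsHomogeneous
        (j.2.1.degree + D j.1) := (isHomogeneous_monomial _ rfl).mul (hG j.1)
      have h4 : j.2.1.degree + D j.1 = L := j.2.2
      rw [h4] at h3
      exact h3
    have h2 := (isHomogeneous_C ι (w j)).mul (h1.map χ')
    rwa [zero_add] at h2
  have hev : ∀ {F' : Type} [Field F'] (χ' : A →+* F') (w : c → F') (x : ι → F'),
      (∀ k, eval x (MvPolynomial.map χ' (G k)) = 0) → eval x (polyOf G D L χ' w) = 0 := by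
    intro F' _ χ' w x hx
    rw [polyOf, map_sum]
    refine Finset.sum_eq_zero fun j _ => ?_
    rw [map_mul, map_mul, map_mul, hx, mul_zero, mul_zero]
  -- surjectivity for `χ`
  have hsurj : ∀ v : r → F, ∃ w : c → F, (Φ.map χ).mulVec w = v := by
    intro v
    let P : MvPolynomial ι F := ∑ m : r, monomial m.1 (v m)
    have hP : P.IsHomogeneous L :=
      IsHomogeneous.sum _ _ _ fun m _ => isHomogeneous_monomial _ m.2
    have hPv : ∀ m : r, coeff m.1 P = v m := by
      intro m
      change coeff m.1 (∑ m : r, monomial m.1 (v m)) = v m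
      rw [coeff_sum, Finset.sum_eq_single m]
      · rw [coeff_monomial, if_pos rfl]
      · intro m' _ hm'
        rw [coeff_monomial, if_neg fun h => hm' (Subtype.ext h)]
      · intro h
        exact absurd (Finset.mem_univ _) h
    obtain ⟨q, hq⟩ := (Ideal.mem_span_range_iff_exists_fun).1 (hL (Pool.Agent.Y129.TB.mem_pow_of_homogeneous hP))
    refine ⟨fun j => coeff j.2.1 (q j.1), ?_⟩
    funext m
    rw [← hcoeff, ← hPv m]
    have h2 : P = ∑ k, homogeneousComponent L (q k * MvPolynomial.map χ (G k)) := by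
      rw [← map_sum, hq, homogeneousComponent_eq_self hP]
    rw [h2, polyOf, coeff_sum, coeff_sum, Fintype.sum_sigma]
    refine Finset.sum_congr rfl fun k _ => ?_
    rw [Pool.Agent.Y129.TB.component_mul ((hG k).map χ)]
    split_ifs with hk
    · have h3 : homogeneousComponent (L - D k) (q k) =
          ∑ m' : {m : ι →₀ ℕ // m.degree + D k = L}, monomial m'.1 (coeff m'.1 (q k)) := by
        ext m''
        rw [coeff_homogeneousComponent, coeff_sum]
        split_ifs with h4
        · rw [Finset.sum_eq_single ⟨m'', by omega⟩]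
          · rw [coeff_monomial, if_pos rfl]
          · intro m' _ hm'
            rw [coeff_monomial, if_neg fun h => hm' (Subtype.ext h)]
          · intro h
            exact absurd (Finset.mem_univ _) h
        · symm
          refine Finset.sum_eq_zero fun m' _ => ?_
          rw [coeff_monomial, if_neg]
          intro h
          have := m'.2
          rw [h] at this
          omega
      rw [h3, Finset.sum_mul, coeff_sum]
      refine Finset.sum_congr rfl fun m' _ => ?_
      rw [map_mul, map_monomial, map_one, ← mul_assoc, C_mul_monomial, mul_one]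
    · rw [coeff_zero]
      refine Finset.sum_eq_zero fun m' _ => ?_
      have := m'.2
      omega
  obtain ⟨Δ, hΔ, hΔ'⟩ := exists_minor Φ χ hsurj
  refine ⟨Δ, hΔ, fun {F'} _ χ' hχ' x hx => funext fun i => ?_⟩
  have hi : (Finsupp.single i L).degree = L := by simp
  obtain ⟨w, hw⟩ := hΔ' χ' hχ' (Pi.single ⟨Finsupp.single i L, hi⟩ 1)
  have h1 : polyOf G D L χ' w = monomial (Finsupp.single i L) 1 := by
    ext m
    by_cases hm : m.degree = L
    · have h2 := hcoeff χ' w ⟨m, hm⟩
      rw [hw] at h2
      rw [coeff_monomial]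
      by_cases hmi : Finsupp.single i L = m
      · subst hmi
        rw [if_pos rfl]
        exact h2.trans (Pi.single_eq_same _ _)
      · rw [if_neg hmi]
        exact h2.trans (Pi.single_eq_of_ne (fun h => hmi (congrArg Subtype.val h).symm) _)
    · rw [coeff_monomial, if_neg]
      · exact (hhom χ' w).coeff_eq_zero hm
      · rintro rfl
        exact hm hi
  have h2 := hev χ' w x hx
  rw [h1, eval_monomial, one_mul] at h2
  have h3 : x i ^ L = 0 := by
    have h4 : ((Finsupp.single i L).prod fun n e => x n ^ e) = x i ^ L :=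
      Finsupp.prod_single_index (pow_zero _)
    rw [← h4]
    exact h2
  exact pow_eq_zero_iff hL0.ne' |>.1 h3

/-- The dimension does not become smaller under specialisation. -/
theorem dimGE_spec (G : κ → MvPolynomial ι A) (D : κ → ℕ) (hG : ∀ k, (G k).IsHomogeneous (D k))
    (ψ ψ' : A →+* F) (hker : ∀ a, ψ a = 0 → ψ' a = 0) {d : ℕ}
    (h : DimGE {x : ι → F | ∀ k, eval x (MvPolynomial.map ψ (G k)) = 0} d) :
    DimGE {x : ι → F | ∀ k, eval x (MvPolynomial.map ψ' (G k)) = 0} d := by
  classical
  by_contra hno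
  unfold DimGE at hno
  push Not at hno
  obtain ⟨q, hq, hno⟩ := hno
  choose D' hD' hqD using hq
  have ft : ∀ j, Finite {m : ι →₀ ℕ // m.degree = D' j} := fun j =>
    (Finsupp.finite_of_degree_le (D' j)).subset
      (show {m : ι →₀ ℕ | m.degree = D' j} ⊆ _ from fun m hm => (show m.degree = D' j from hm).le)
  have : ∀ j, Fintype {m : ι →₀ ℕ // m.degree = D' j} := fun j => Fintype.ofFinite _
  let τ : Type := Σ j, {m : ι →₀ ℕ // m.degree = D' j}
  let Q : Fin d → MvPolynomial ι (MvPolynomial τ A) := fun j =>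
    ∑ m : {m : ι →₀ ℕ // m.degree = D' j}, monomial m.1 (X ⟨j, m⟩)
  have hQ : ∀ j, (Q j).IsHomogeneous (D' j) := fun j =>
    IsHomogeneous.sum _ _ _ fun m _ => isHomogeneous_monomial _ m.2
  let 𝒢 : κ ⊕ Fin d → MvPolynomial ι (MvPolynomial τ A) :=
    Sum.elim (fun k => MvPolynomial.map C (G k)) Q
  have h𝒢 : ∀ k, (𝒢 k).IsHomogeneous (Sum.elim D D' k) := by
    rintro (k | j)
    · exact (hG k).map _
    · exact hQ j
  have hmapC : ∀ (φ : A →+* F) (b : τ → F) k,
      MvPolynomial.map (eval₂Hom φ b) (MvPolynomial.map C (G k)) = MvPolynomial.map φ (G k) := by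
    intro φ b k
    rw [map_map]
    have h1 : (eval₂Hom φ b).comp C = φ := by
      ext a
      simp
    rw [h1]
  let b : τ → F := fun t => coeff t.2.1 (q t.1)
  have hQb : ∀ j, MvPolynomial.map (eval₂Hom ψ' b) (Q j) = q j := by
    intro j
    change MvPolynomial.map (eval₂Hom ψ' b) (∑ m : {m : ι →₀ ℕ // m.degree = D' j},
      monomial m.1 (X ⟨j, m⟩)) = q j
    rw [map_sum]
    ext m
    rw [coeff_sum]
    by_cases hm : m.degree = D' j
    · rw [Finset.sum_eq_single ⟨m, hm⟩]
      · rw [map_monomial, coeff_monomial, if_pos rfl]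
        simp [b]
      · intro m' _ hm'
        rw [map_monomial, coeff_monomial, if_neg fun h => hm' (Subtype.ext h)]
      · intro h
        exact absurd (Finset.mem_univ _) h
    · rw [(hqD j).coeff_eq_zero hm]
      refine Finset.sum_eq_zero fun m' _ => ?_
      rw [map_monomial, coeff_monomial, if_neg]
      rintro rfl
      exact hm m'.2
  obtain ⟨Δ, hΔ, hΔ'⟩ := open_noZero 𝒢 (Sum.elim D D') h𝒢 (eval₂Hom ψ' b) fun x hx => by
    by_contra hx0
    obtain ⟨j, hj⟩ := hno x (fun k => by
      have h1 := hx (Sum.inl k)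
      change eval x (MvPolynomial.map (eval₂Hom ψ' b) (MvPolynomial.map C (G k))) = 0 at h1
      rwa [hmapC] at h1) hx0
    refine hj ?_
    have h1 := hx (Sum.inr j)
    change eval x (MvPolynomial.map (eval₂Hom ψ' b) (Q j)) = 0 at h1
    rwa [hQb] at h1
  have hne : MvPolynomial.map ψ Δ ≠ 0 := by
    intro h0
    refine hΔ ?_
    have h1 : MvPolynomial.map ψ' Δ = 0 := by
      ext β
      rw [coeff_map, coeff_zero]
      refine hker _ ?_
      rw [← coeff_map, h0, coeff_zero]
    rw [coe_eval₂Hom, ← eval_map, h1, map_zero]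
  obtain ⟨b', hb'⟩ : ∃ b' : τ → F, eval b' (MvPolynomial.map ψ Δ) ≠ 0 := by
    by_contra hall
    push Not at hall
    exact hne (MvPolynomial.funext fun x => by rw [hall x, map_zero])
  have hχ' : eval₂Hom ψ b' Δ ≠ 0 := by
    rw [coe_eval₂Hom, ← eval_map]
    exact hb'
  obtain ⟨y, hy, hy0, hyq⟩ := h (fun j => MvPolynomial.map (eval₂Hom ψ b') (Q j))
    fun j => ⟨D' j, hD' j, (hQ j).map _⟩
  refine hy0 (hΔ' (eval₂Hom ψ b') hχ' y ?_)
  rintro (k | j)
  · change eval y (MvPolynomial.map (eval₂Hom ψ b') (MvPolynomial.map C (G k))) = 0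
    rw [hmapC]
    exact hy k
  · exact hyq j

end open_

end Pool.Agent.Q219.PT
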