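import Pool.Agent.Q219.PT.Conj
import Pool.Agent.Q219.PT.Emb
import Pool.Agent.Q219.PT.Minor
import Pool.Agent.Q219.PT.Main

/-!
# Q1 does not depend on the base field
-/

set_option autoImplicit false
set_option linter.unusedSectionVars false

open MvPolynomial Pool.Agent.Y129.TA Pool.Agent.Y129.TB

namespace Pool.Agent.Q219.PT

/-- `E` is a subfield of `F` whose algebraic elements are dense, such that elements which are
conjugate over `E` have the same absolute value. -/
structure IsHenselianDense {p : ℕ} {C F : Type} [Field C] [Field F] (T : TiltPair p C F) (E : Type)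
    [Field E] [Algebra E F] : Prop where
  dense : ∀ (x : F) (δ : ℝ), 0 < δ → ∃ y : F, IsAlgebraic E y ∧ T.absF (x - y) ≤ δ
  conj : ∀ x y : F, IsAlgebraic E x → minpoly E x = minpoly E y → T.absF x = T.absF y

section lifts

variable {k L : Type} [Field k] [Field L] [Algebra k L] {ι : Type}

theorem exists_lift (S : Finset L) (g : MvPolynomial ι L) (h : ∀ c ∈ g.coeffs, c ∈ S) :
    ∃ g' : MvPolynomial ι (Algebra.adjoin k (S : Set L)),
      MvPolynomial.map (Algebra.adjoin k (S : Set L)).val.toRingHom g' = g := by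
  have h1 : g ∈ Set.range (MvPolynomial.map (Algebra.adjoin k (S : Set L)).val.toRingHom) := by
    rw [mem_range_map_iff_coeffs_subset]
    intro c hc
    exact ⟨⟨c, Algebra.subset_adjoin (h c hc)⟩, rfl⟩
  exact h1

theorem homogeneous_of_map {A B : Type} [CommRing A] [CommRing B] {f : A →+* B}
    (hf : Function.Injective f) {g : MvPolynomial ι A} {D : ℕ}
    (h : (MvPolynomial.map f g).IsHomogeneous D) : g.IsHomogeneous D := by
  intro m hm
  refine h (d := m) ?_
  rw [coeff_map]
  intro h0
  exact hm (hf (h0.trans (map_zero f).symm))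

/-- Homogeneous systems have near specialisations, the dimension does not become smaller. -/
theorem exists_spec_system [IsAlgClosed k] [IsAlgClosed L] {a : AbsoluteValue L ℝ}
    (ha : ∀ x y, a (x + y) ≤ max (a x) (a y))
    (hdense : ∀ (x : L) (δ : ℝ), 0 < δ → ∃ y : k, a (x - algebraMap k L y) ≤ δ)
    (hsmall : ∃ ϖ : k, ϖ ≠ 0 ∧ a (algebraMap k L ϖ) < 1) {κ : Type} [Fintype ι] [Fintype κ]
    (g : κ → MvPolynomial ι L) (D : κ → ℕ) (hg : ∀ j, (g j).IsHomogeneous (D j)) {ε : ℝ}
    (hε : 0 < ε) :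
    ∃ g' : κ → MvPolynomial ι k, (∀ j, (g' j).IsHomogeneous (D j)) ∧
      (∀ j m, a (coeff m (g j) - coeff m (MvPolynomial.map (algebraMap k L) (g' j))) ≤ ε) ∧
      ∀ d, DimGE {x : ι → L | ∀ j, eval x (g j) = 0} d →
        DimGE {x : ι → L | ∀ j, eval x (MvPolynomial.map (algebraMap k L) (g' j)) = 0} d := by
  classical
  let S : Finset L := Finset.univ.biUnion fun j => (g j).coeffs
  have hS : ∀ j, ∀ c ∈ (g j).coeffs, c ∈ S := fun j c hc =>
    Finset.mem_biUnion.2 ⟨j, Finset.mem_univ j, hc⟩
  obtain ⟨s, hs⟩ := exists_spec ha hdense hsmall S hε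
  choose gR hgR using fun j => exists_lift (k := k) S (g j) (hS j)
  have hinj : Function.Injective (Algebra.adjoin k (S : Set L)).val.toRingHom :=
    Subtype.val_injective
  have hgRh : ∀ j, (gR j).IsHomogeneous (D j) := fun j =>
    homogeneous_of_map hinj (by rw [hgR]; exact hg j)
  refine ⟨fun j => MvPolynomial.map s.toRingHom (gR j), fun j => (hgRh j).map _, fun j m => ?_,
    fun d hd => ?_⟩
  · rw [coeff_map, coeff_map]
    have h1 : coeff m (g j) = ((coeff m (gR j) : Algebra.adjoin k (S : Set L)) : L) := by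
      rw [← hgR j, coeff_map]
      rfl
    by_cases h0 : coeff m (g j) = 0
    · have h2 : coeff m (gR j) = 0 := Subtype.ext (by rw [← h1, h0]; rfl)
      rw [h0, h2, map_zero, map_zero, sub_zero, map_zero]
      exact hε.le
    · have h3 : coeff m (g j) ∈ S := hS j _ (coeff_mem_coeffs m h0)
      rw [h1] at h3 ⊢
      exact hs _ h3
  · have h2 := dimGE_spec gR D hgRh (Algebra.adjoin k (S : Set L)).val.toRingHom
      ((algebraMap k L).comp s.toRingHom) (fun a ha => by
        have h3 : a = 0 := hinj (ha.trans (map_zero _).symm)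
        rw [h3, map_zero]) (d := d) (by
        simp only [hgR]
        exact hd)
    simp only [map_map]
    exact h2

end lifts

section descent

variable {p : ℕ} [hp : Fact p.Prime] {C F ι K E : Type} [Field C] [Field F] [CharP F p] [Field K]
  [Field E] [Algebra K C] [Algebra E F] [IsAlgClosed C] [IsAlgClosed F] [Fintype ι] [Nonempty ι]
  {T : Tilting p C F} {X : Set (ι → C)} {d : ℕ}

theorem cone_baseChange {k L M : Type} [Field k] [Field L] [Field M] [Algebra k M] [Algebra L M]
    [Algebra k L] [IsScalarTower k L M] {Y : Set (ι → M)} (hY : IsConeOver k Y) : IsConeOver L Y := by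
  obtain ⟨⟨J, rfl⟩, h2⟩ := hY
  refine ⟨⟨J.map (MvPolynomial.map (algebraMap k L)), ?_⟩, h2⟩
  have hev : ∀ (f : MvPolynomial ι k) (x : ι → M),
      aeval x (MvPolynomial.map (algebraMap k L) f) = aeval x f := fun f x => by
    rw [aeval_map_algebraMap]
  ext x
  rw [mem_zeroLocus_iff, mem_zeroLocus_iff]
  constructor
  · intro h f hf
    have h3 : J.map (MvPolynomial.map (algebraMap k L)) ≤
        RingHom.ker (aeval x : MvPolynomial ι L →ₐ[L] M) := by
      rw [Ideal.map_le_iff_le_comap]
      intro f hf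
      change aeval x (MvPolynomial.map (algebraMap k L) f) = 0
      rw [hev]
      exact h f hf
    exact h3 hf
  · intro h f hf
    rw [← hev]
    exact h _ (Ideal.mem_map_of_mem _ hf)

theorem cone_self {k M : Type} [Field k] [Field M] [Algebra k M] {Y : Set (ι → M)}
    (hY : IsConeOver k Y) : IsConeOver M Y :=
  cone_baseChange (k := k) (L := M) hY

/-- The geometric case follows. -/
theorem geometric_of_arithmetic (hX : IsConeOver K X) (h : Approximable T.toTiltPair K E X d) :
    Approximable T.toTiltPair C F X d := by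
  refine approximable_of_within (cone_self hX) fun δ hδ => ?_
  obtain ⟨Y, h1, h2, h3, h4⟩ := within_of_approximable hX h hδ
  exact ⟨Y, cone_self h1, h2, h3, h4⟩

/-- The values of `P` at `y♯` and at `z♯`, if `y` and `z` are near. -/
theorem eval_sharp_close (P : MvPolynomial ι C) {ε : ℝ} (hε : 0 < ε) : ∃ δ : ℝ, 0 < δ ∧ δ ≤ 1 ∧
    ∀ y z : ι → F, (∀ i, T.absF (y i) ≤ 1) → (∀ i, T.absF (z i) ≤ 1) →
      (∀ i, T.absF (y i - z i) ≤ δ) →
      T.absK (eval (fun i => T.sharp (y i)) P - eval (fun i => T.sharp (z i)) P) ≤ ε := by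
  obtain ⟨L, hL0, hL⟩ := lipschitz T.ultraK P
  obtain ⟨δ, hδ, hδ'⟩ := sharp_unif T (show 0 < ε / (L + 1) by positivity)
  refine ⟨min δ 1, lt_min hδ one_pos, min_le_right _ _, fun y z hy hz hyz => ?_⟩
  refine (hL _ _ (fun i => by rw [T.abs_sharp]; exact hy i)
    (fun i => by rw [T.abs_sharp]; exact hz i) (ε / (L + 1)) (by positivity) fun i =>
    hδ' _ _ (hy i) (hz i) ((hyz i).trans (min_le_left _ _))).trans ?_
  rw [mul_div_assoc', div_le_iff₀ (by linarith)]
  nlinarith

/-- A common bound. -/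
theorem eval_sharp_close' {κ : Type} [Finite κ] (P : κ → MvPolynomial ι C) {ε : ℝ} (hε : 0 < ε) :
    ∃ δ : ℝ, 0 < δ ∧ δ ≤ 1 ∧
    ∀ y z : ι → F, (∀ i, T.absF (y i) ≤ 1) → (∀ i, T.absF (z i) ≤ 1) →
      (∀ i, T.absF (y i - z i) ≤ δ) → ∀ k,
      T.absK (eval (fun i => T.sharp (y i)) (P k) - eval (fun i => T.sharp (z i)) (P k)) ≤ ε := by
  choose δ h1 h2 h3 using fun k => eval_sharp_close (T := T) (P k) hε
  obtain ⟨δ', hδ', hδ''⟩ := exists_pos_le δ h1
  refine ⟨min δ' 1, lt_min hδ' one_pos, min_le_right _ _, fun y z hy hz hyz k => ?_⟩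
  exact h3 k y z hy hz fun i => (hyz i).trans ((min_le_left _ _).trans (hδ'' k))

/-- The arithmetic case follows from the geometric case: the tube condition and the lower bound
for the dimension. -/
theorem descent_core (B : BaseField T K E) (hE : IsHenselianDense T.toTiltPair E) {r : ℕ}
    (P : Fin r → MvPolynomial ι K) (D : Fin r → ℕ) {ε : ℝ} (hε : 0 < ε) {Y : Set (ι → F)} (hY1 : IsConeOver F Y) (hY2 : DimGE Y d)
    (hY4 : ∀ y ∈ Y, ∀ k, InTube T.toTiltPair (P k) (D k) ε y) :
    ∃ Y' : Set (ι → F), IsConeOver E Y' ∧ DimGE Y' d ∧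
      ∀ y ∈ Y', (∀ i, T.absF (y i) ≤ 1) → ∀ k,
        T.absK (aeval (fun i => T.sharp (y i)) (P k)) ≤ ε := by
  classical
  obtain ⟨r₁, g, Dg, hgD, hgY⟩ := exists_forms hY1
  have hgY' : ∀ y : ι → F, y ∈ Y ↔ ∀ k, eval y (g k) = 0 := fun y => by
    rw [hgY]
    simp only [aeval_eq_eval]
  obtain ⟨η, hη, hη1, hclose⟩ := eval_sharp_close' (T := T)
    (fun k => MvPolynomial.map (algebraMap K C) (P k)) hε
  obtain ⟨εg, hεg, hpert⟩ := near_of_perturb T.ultraF g hη
  -- the algebraic closure of `E` in `F`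
  let A := algebraicClosure E F
  have hAc : IsAlgClosed A := (algebraicClosure.isAlgClosure E F).isAlgClosed
  have hdense : ∀ (x : F) (δ : ℝ), 0 < δ → ∃ y : A, T.absF (x - algebraMap A F y) ≤ δ := by
    intro x δ hδ
    obtain ⟨y, hy, hxy⟩ := hE.dense x δ hδ
    exact ⟨⟨y, mem_algebraicClosure_iff.2 hy⟩, hxy⟩
  have hsmall : ∃ ϖ : A, ϖ ≠ 0 ∧ T.absF (algebraMap A F ϖ) < 1 := by
    obtain ⟨ϖ, hϖ⟩ := B.val
    refine ⟨algebraMap E A ϖ, fun h => ?_, ?_⟩
    · have h1 : algebraMap E F ϖ = 0 := by
        rw [IsScalarTower.algebraMap_apply E A F, h, map_zero]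
      rw [h1, map_zero] at hϖ
      exact (T.absK.pos T.p_ne).ne hϖ
    · rw [← IsScalarTower.algebraMap_apply E A F, hϖ]
      exact T.p_lt
  obtain ⟨g', hg'D, hg'c, hg'dim⟩ := exists_spec_system T.ultraF hdense hsmall g Dg hgD hεg
  let gF : Fin r₁ → MvPolynomial ι F := fun j => MvPolynomial.map (algebraMap A F) (g' j)
  -- the estimate for points of the specialised system
  have est : ∀ y : ι → F, (∀ i, T.absF (y i) ≤ 1) → (∀ j, eval y (gF j) = 0) → ∀ k,
      T.absK (aeval (fun i => T.sharp (y i)) (P k)) ≤ ε := by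
    intro y hy hy0 k
    obtain ⟨z, hz0, hyz⟩ := hpert gF hg'c y hy hy0
    have hz1 : ∀ i, T.absF (z i) ≤ 1 := by
      intro i
      have h1 : z i = y i + -(y i - z i) := by ring
      rw [h1]
      refine (T.ultraF _ _).trans (max_le (hy i) ?_)
      rw [AbsoluteValue.map_neg]
      exact (hyz i).trans hη1
    have h2 := hclose y z hy hz1 hyz k
    rw [eval_map_alg, eval_map_alg] at h2
    have h3 := hY4 z ((hgY' z).2 hz0) k 1 hz1
    rw [one_pow, mul_one] at h3
    have h4 : aeval (fun i => T.sharp (y i)) (P k) =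
        (aeval (fun i => T.sharp (y i)) (P k) - aeval (fun i => T.sharp (z i)) (P k)) +
          aeval (fun i => T.sharp (z i)) (P k) := by ring
    rw [h4]
    exact (T.ultraK _ _).trans (max_le h2 h3)
  -- the ideal over `E`
  let J : Ideal (MvPolynomial ι A) := Ideal.span (Set.range g')
  let JE : Ideal (MvPolynomial ι E) := J.comap (MvPolynomial.map (algebraMap E A))
  have hJ : ∀ (τ : A →ₐ[E] F) (y : ι → F), (∀ j, eval₂ (τ : A →+* F) y (g' j) = 0) →
      y ∈ zeroLocus F JE := by
    intro τ y hy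
    rw [mem_zeroLocus_iff]
    intro f hf
    have h1 : MvPolynomial.map (algebraMap E A) f ∈ J := hf
    have h2 : J ≤ RingHom.ker (eval₂Hom (τ : A →+* F) y) := by
      rw [Ideal.span_le]
      rintro _ ⟨j, rfl⟩
      exact hy j
    have h3 : eval₂ (τ : A →+* F) y (MvPolynomial.map (algebraMap E A) f) = 0 := h2 h1
    rw [eval₂_map] at h3
    have h4 : (τ : A →+* F).comp (algebraMap E A) = algebraMap E F := by
      ext c
      exact τ.commutes c
    rw [h4] at h3
    exact h3
  have hJ' : ∀ y ∈ zeroLocus F JE, ∃ τ : A →ₐ[E] F, ∀ j, eval₂ (τ : A →+* F) y (g' j) = 0 := by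
    intro y hy
    obtain ⟨τ, hτ⟩ := exists_embedding J y fun f hf => (mem_zeroLocus_iff.1 hy) f hf
    exact ⟨τ, fun j => hτ _ (Ideal.subset_span ⟨j, rfl⟩)⟩
  refine ⟨zeroLocus F JE, ⟨⟨JE, rfl⟩, ?_⟩, ?_, ?_⟩
  · -- a cone
    intro a y hy
    obtain ⟨τ, hτ⟩ := hJ' y hy
    refine hJ τ _ fun j => ?_
    have h1 := eval_smul_of_homogeneous ((hg'D j).map (τ : A →+* F)) a y
    rw [eval_map, eval_map, hτ j, mul_zero] at h1
    exact h1
  · -- the dimension
    intro q hq
    obtain ⟨y, hy, hy0, hyq⟩ := hg'dim d (by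
      intro q hq
      obtain ⟨y, hy, h1, h2⟩ := hY2 q hq
      exact ⟨y, (hgY' y).1 hy, h1, h2⟩) q hq
    refine ⟨y, hJ (Algebra.ofId A F |>.restrictScalars E) y fun j => ?_, hy0, hyq⟩
    have h1 := hy j
    rw [eval_map] at h1
    exact h1
  · -- the estimate
    intro y hy hy1 k
    obtain ⟨τ, hτ⟩ := hJ' y hy
    -- the automorphism
    let τ₀ : A →ₐ[E] A := AlgHom.codRestrict τ A.toSubalgebra fun x =>
      mem_algebraicClosure_iff.2 ((Algebra.IsAlgebraic.isAlgebraic x).algHom τ)
    have hτ₀ : ∀ x, algebraMap A F (τ₀ x) = τ x := fun x => rfl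
    have hbij : Function.Bijective τ₀ := Algebra.IsAlgebraic.algHom_bijective τ₀
    have habs : ∀ x : A, T.absF (τ x) = T.absF (algebraMap A F x) := by
      intro x
      refine (hE.conj _ _ ?_ ?_).symm
      · exact mem_algebraicClosure_iff.1 x.2
      · rw [minpoly.algHom_eq τ τ.injective]
        exact minpoly.algebraMap_eq (A := E) (B := A) (B' := F) (algebraMap A F).injective x
    -- a near point over `A`
    let g₀ : Fin r₁ → MvPolynomial ι A := fun j => MvPolynomial.map (τ₀ : A →+* A) (g' j)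
    obtain ⟨z, hyz, hz⟩ := exists_near_point T.ultraF hdense hsmall y hη
    have hz0 : ∀ j, eval z (g₀ j) = 0 := by
      intro j
      refine hz _ ?_
      change aeval y (MvPolynomial.map (τ₀ : A →+* A) (g' j)) = 0
      rw [aeval_def, eval₂_map]
      exact hτ j
    have hz1 : ∀ i, T.absF (algebraMap A F (z i)) ≤ 1 := by
      intro i
      have h1 : algebraMap A F (z i) = y i + -(y i - algebraMap A F (z i)) := by ring
      rw [h1]
      refine (T.ultraF _ _).trans (max_le (hy1 i) ?_)
      rw [AbsoluteValue.map_neg]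
      exact (hyz i).trans hη1
    -- the conjugate point
    choose w hw using fun i => hbij.2 (z i)
    have hw1 : ∀ i, T.absF (algebraMap A F (w i)) ≤ 1 := by
      intro i
      rw [← habs, ← hτ₀, hw]
      exact hz1 i
    have hw0 : ∀ j, eval (fun i => algebraMap A F (w i)) (gF j) = 0 := by
      intro j
      have h1 : eval z (g₀ j) = τ₀ (eval w (g' j)) := by
        have h2 : z = fun i => τ₀ (w i) := funext fun i => (hw i).symm
        rw [h2]
        change eval (fun i => τ₀ (w i)) (MvPolynomial.map (τ₀ : A →+* A) (g' j)) = _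
        rw [eval_map]
        exact (eval₂_comp_left (τ₀ : A →+* A) (RingHom.id A) w (g' j)).symm
      rw [hz0] at h1
      have h3 : eval w (g' j) = 0 := hbij.1 (by rw [← h1, map_zero])
      change eval (fun i => algebraMap A F (w i)) (MvPolynomial.map (algebraMap A F) (g' j)) = 0
      rw [eval_map]
      have h4 := eval₂_comp_left (algebraMap A F) (RingHom.id A) w (g' j)
      change algebraMap A F (eval w (g' j)) = _ at h4
      rw [h3, map_zero] at h4
      exact h4.symm
    have h5 := est _ hw1 hw0 k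
    have h6 := conj_poly B (algebraMap A F) (τ : A →+* F) (algebraMap E A)
      (IsScalarTower.algebraMap_eq E A F).symm (by ext c; exact τ.commutes c) habs (P k) w hw1
    have h7 : (fun i => T.sharp ((τ : A →+* F) (w i))) = fun i => T.sharp (algebraMap A F (z i)) := by
      funext i
      congr 1
      rw [← hw i]
      rfl
    rw [h7] at h6
    have h8 := hclose y (fun i => algebraMap A F (z i)) hy1 hz1 hyz k
    rw [eval_map_alg, eval_map_alg] at h8
    have h9 : aeval (fun i => T.sharp (y i)) (P k) =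
        (aeval (fun i => T.sharp (y i)) (P k) -
          aeval (fun i => T.sharp (algebraMap A F (z i))) (P k)) +
          aeval (fun i => T.sharp (algebraMap A F (z i))) (P k) := by ring
    rw [h9]
    exact (T.ultraK _ _).trans (max_le h8 (h6.trans h5))

end descent

end Pool.Agent.Q219.PT
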