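import Pool.Agent.Q219.PT.Basic

/-!
# The formulation of Q1 with distances
-/

set_option autoImplicit false
set_option linter.unusedSectionVars false

open MvPolynomial Pool.Agent.Y129.TA Pool.Agent.Y129.TB

namespace Pool.Agent.Q219.PT

section lipschitz

variable {C ι : Type} [Field C] [Finite ι]

/-- A polynomial is Lipschitz continuous on the unit ball. -/
theorem lipschitz [IsAlgClosed C] {a : AbsoluteValue C ℝ} (ha : ∀ x y, a (x + y) ≤ max (a x) (a y))
    (P : MvPolynomial ι C) :
    ∃ L : ℝ, 0 ≤ L ∧ ∀ z x : ι → C, (∀ i, a (z i) ≤ 1) → (∀ i, a (x i) ≤ 1) → ∀ δ : ℝ, 0 ≤ δ →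
      (∀ i, a (z i - x i) ≤ δ) → a (eval z P - eval x P) ≤ L * δ := by
  have : Fintype ι := Fintype.ofFinite ι
  induction P using MvPolynomial.induction_on with
  | C c =>
    refine ⟨0, le_rfl, fun z x _ _ δ hδ _ => ?_⟩
    simp
  | add P Q hP hQ =>
    obtain ⟨L₁, h1, hL₁⟩ := hP
    obtain ⟨L₂, h2, hL₂⟩ := hQ
    refine ⟨L₁ + L₂, add_nonneg h1 h2, fun z x hz hx δ hδ hzx => ?_⟩
    have h3 : eval z (P + Q) - eval x (P + Q) = (eval z P - eval x P) + (eval z Q - eval x Q) := by
      rw [map_add, map_add]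
      ring
    rw [h3, add_mul]
    exact (a.add_le _ _).trans (add_le_add (hL₁ z x hz hx δ hδ hzx) (hL₂ z x hz hx δ hδ hzx))
  | mul_X P i hP =>
    obtain ⟨L₁, h1, hL₁⟩ := hP
    obtain ⟨B, hB, hB'⟩ := bounded ha P
    refine ⟨L₁ + B, add_nonneg h1 hB.le, fun z x hz hx δ hδ hzx => ?_⟩
    have h3 : eval z (P * X i) - eval x (P * X i) =
        (eval z P - eval x P) * z i + eval x P * (z i - x i) := by
      rw [map_mul, map_mul, eval_X, eval_X]
      ring
    rw [h3, add_mul]
    refine (a.add_le _ _).trans (add_le_add ?_ ?_)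
    · rw [map_mul]
      refine (mul_le_of_le_one_right (a.nonneg _) (hz i)).trans (hL₁ z x hz hx δ hδ hzx)
    · rw [map_mul]
      exact mul_le_mul (hB' x hx) (hzx i) (a.nonneg _) hB.le

end lipschitz

section cone

variable {K C ι : Type} [Field K] [Field C] [Algebra K C] [Finite ι]

/-- A cone is defined by finitely many homogeneous polynomials. -/
theorem exists_forms [Infinite C] {X : Set (ι → C)} (hX : IsConeOver K X) :
    ∃ (r : ℕ) (P : Fin r → MvPolynomial ι K) (D : Fin r → ℕ), (∀ k, (P k).IsHomogeneous (D k)) ∧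
      ∀ x : ι → C, x ∈ X ↔ ∀ k, aeval x (P k) = 0 := by
  classical
  obtain ⟨⟨J, rfl⟩, hcone⟩ := hX
  obtain ⟨s, hs⟩ := (isNoetherian_def.1 (inferInstance : IsNoetherian (MvPolynomial ι K)
    (MvPolynomial ι K))) J
  let N : ℕ := s.sup totalDegree + 1
  let I := s × Fin N
  let e : I ≃ Fin (Fintype.card I) := Fintype.equivFin I
  have hmem : ∀ x : ι → C, x ∈ zeroLocus C J ↔ ∀ g ∈ s, aeval x g = 0 := by
    intro x
    rw [mem_zeroLocus_iff]
    constructor
    · intro h g hg
      refine h g ?_
      rw [← hs]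
      exact Submodule.subset_span hg
    · intro h g hg
      rw [← hs] at hg
      have h1 : Ideal.span (s : Set (MvPolynomial ι K)) ≤
          RingHom.ker (aeval x : MvPolynomial ι K →ₐ[K] C) := by
        rw [Ideal.span_le]
        intro g hg
        exact h g hg
      exact h1 hg
  have hdeg : ∀ g ∈ s, g.totalDegree < N := fun g hg =>
    Nat.lt_succ_of_le (Finset.le_sup (f := totalDegree) hg)
  have hsum : ∀ g ∈ s, g = ∑ n : Fin N, homogeneousComponent n g := by
    intro g hg
    have h1 : ∑ n ∈ Finset.range N, homogeneousComponent n g = g := by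
      refine Eq.trans (Finset.sum_subset ?_ ?_).symm (sum_homogeneousComponent g)
      · intro n hn
        rw [Finset.mem_range] at hn ⊢
        have := hdeg g hg
        omega
      · intro n _ hn
        rw [Finset.mem_range] at hn
        exact homogeneousComponent_eq_zero _ _ (by omega)
    rw [Finset.sum_range] at h1
    exact h1.symm
  refine ⟨Fintype.card I, fun k => homogeneousComponent (e.symm k).2 ((e.symm k).1 : MvPolynomial ι K),
    fun k => (e.symm k).2, fun k => homogeneousComponent_isHomogeneous _ _, fun x => ?_⟩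
  constructor
  · intro hx k
    set g : MvPolynomial ι K := ((e.symm k).1 : MvPolynomial ι K) with hg
    have hgs : g ∈ s := (e.symm k).1.2
    -- the polynomial in one variable
    let R : Polynomial C := ∑ n : Fin N, Polynomial.monomial (n : ℕ) (aeval x (homogeneousComponent n g))
    have hR : ∀ a : C, R.eval a = 0 := by
      intro a
      have h1 : a • x ∈ zeroLocus C J := hcone a x hx
      have h2 := (hmem _).1 h1 g hgs
      rw [hsum g hgs, map_sum] at h2
      have h3 : R.eval a = ∑ n : Fin N, aeval (a • x) (homogeneousComponent n g) := by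
        rw [Polynomial.eval_finsetSum]
        refine Finset.sum_congr rfl fun n _ => ?_
        rw [Polynomial.eval_monomial, mul_comm]
        have h4 := homogeneousComponent_isHomogeneous (n : ℕ) g
        have : Fintype ι := Fintype.ofFinite ι
        have h5 := eval_smul_of_homogeneous (h4.map (algebraMap K C)) a x
        rw [eval_map_alg, eval_map_alg] at h5
        exact h5.symm
      rw [h3]
      exact h2
    have hR0 : R = 0 := Polynomial.funext fun a => by rw [hR a, Polynomial.eval_zero]
    have h6 := congrArg (fun Q : Polynomial C => Q.coeff ((e.symm k).2 : ℕ)) hR0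
    simp only [R, Polynomial.finsetSum_coeff, Polynomial.coeff_monomial, Polynomial.coeff_zero] at h6
    rw [Finset.sum_eq_single (e.symm k).2] at h6
    · simpa using h6
    · intro b _ hb
      rw [if_neg]
      intro h
      exact hb (Fin.ext h)
    · intro h
      exact absurd (Finset.mem_univ _) h
  · intro h
    rw [hmem]
    intro g hg
    rw [hsum g hg, map_sum]
    refine Finset.sum_eq_zero fun n _ => ?_
    have h1 := h (e (⟨g, hg⟩, n))
    simp only [Equiv.symm_apply_apply] at h1
    exact h1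

end cone

section main

variable {p : ℕ} [Fact p.Prime] {C F ι K E : Type} [Field C] [Field F] [CharP F p] [Field K] [Field E] [Algebra K C]
  [Algebra E F] [IsAlgClosed C] [Fintype ι] [Nonempty ι] {T : TiltPair p C F} {X : Set (ι → C)} {d : ℕ}

theorem zero_mem_cone (hX : IsConeOver K X) (hX0 : X.Nonempty) : (0 : ι → C) ∈ X := by
  obtain ⟨x, hx⟩ := hX0
  have h := hX.2 0 x hx
  rwa [zero_smul] at h

theorem size_sharp (T : TiltPair p C F) (y : ι → F) :
    size T (fun i => T.sharp (y i)) = ⨆ i, T.absF (y i) := by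
  unfold size
  simp_rw [T.abs_sharp]

theorem dimGE_nonempty {Y : Set (ι → F)} (hY : DimGE Y d) : Y.Nonempty := by
  obtain ⟨y, hy, _⟩ := hY (fun _ => MvPolynomial.X (Classical.arbitrary ι))
    fun _ => ⟨1, one_pos, isHomogeneous_X _ _⟩
  exact ⟨y, hy⟩

theorem nonempty_of_approximable (h : Approximable T K E X d) : X.Nonempty := by
  by_contra hno
  rw [Set.not_nonempty_iff_eq_empty] at hno
  obtain ⟨Y, _, h2, _, h4⟩ := h 1 (fun _ => 1) (fun _ => 0) (fun _ => isHomogeneous_one _ _)
    (fun k x hx => by rw [hno] at hx; exact hx.elim) (1 / 2) (by norm_num)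
  obtain ⟨y, hy⟩ := dimGE_nonempty h2
  have h5 := h4 y hy 0 (⨆ i, T.absF (y i)) fun i =>
    le_ciSup (f := fun i => T.absF (y i)) (Set.finite_range _).bddAbove i
  rw [map_one, map_one, pow_zero, mul_one] at h5
  norm_num at h5

/-- `Q1` implies approximation in the projective distance. -/
theorem within_of_approximable (hX : IsConeOver K X)
    (h : Approximable T K E X d) {δ : ℝ} (hδ : 0 < δ) : ApproxWithin T E X d δ := by
  have hX0 := nonempty_of_approximable h
  obtain ⟨r, P, D, hPD, hPX⟩ := exists_forms hX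
  obtain ⟨ε, hε, hloj⟩ := loj T.absK (fun k => MvPolynomial.map (algebraMap K C) (P k)) hδ
  obtain ⟨Y, hY1, hY2, hY3, hY4⟩ := h r P D hPD (fun k x hx => (hPX x).1 hx k) ε hε
  refine ⟨Y, hY1, hY2, hY3, fun y hy => ?_⟩
  obtain ⟨j, hj⟩ := exists_size T (fun i => T.sharp (y i))
  by_cases hyj : y j = 0
  · have h0 : size T (fun i => T.sharp (y i)) = 0 := by
      rw [← hj]
      rw [hyj, T.sharp_zero, map_zero]
    refine ⟨0, zero_mem_cone hX hX0, fun i => ?_⟩
    rw [h0, mul_zero, Pi.zero_apply, sub_zero, ← h0]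
    exact le_size T (fun i => T.sharp (y i)) i
  · have hne : T.sharp (y j) ≠ 0 := T.sharp_ne hyj
    have hpos : 0 < T.absK (T.sharp (y j)) := T.absK.pos hne
    let y' : ι → F := (y j)⁻¹ • y
    have hy' : y' ∈ Y := hY1.2 _ _ hy
    have hsy' : ∀ i, T.sharp (y' i) = (T.sharp (y j))⁻¹ * T.sharp (y i) := by
      intro i
      have h1 : T.sharp (y j) * T.sharp (y' i) = T.sharp (y i) := by
        rw [← map_mul]
        congr 1
        change y j * ((y j)⁻¹ * y i) = y i
        rw [← mul_assoc, mul_inv_cancel₀ hyj, one_mul]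
      rw [← h1, ← mul_assoc, inv_mul_cancel₀ hne, one_mul]
    have hle : ∀ i, T.absK (T.sharp (y' i)) ≤ 1 := by
      intro i
      rw [hsy', map_mul, map_inv₀, inv_mul_le_iff₀ hpos, mul_one, hj]
      exact le_size T (fun i => T.sharp (y i)) i
    obtain ⟨x, hx1, hx2⟩ := hloj (fun i => T.sharp (y' i)) hle (fun k => by
      rw [eval_map_alg]
      have h1 := hY4 y' hy' k 1 (fun i => by rw [← T.abs_sharp]; exact hle i)
      rwa [one_pow, mul_one] at h1)
    have hx : x ∈ X := (hPX x).2 fun k => by
      rw [← eval_map_alg]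
      exact hx1 k
    refine ⟨T.sharp (y j) • x, hX.2 _ _ hx, fun i => ?_⟩
    have h1 : T.sharp (y i) - (T.sharp (y j) • x) i = T.sharp (y j) * (T.sharp (y' i) - x i) := by
      rw [hsy', mul_sub, ← mul_assoc, mul_inv_cancel₀ hne, one_mul]
      rfl
    change T.absK (T.sharp (y i) - (T.sharp (y j) • x) i) ≤ _
    rw [h1, map_mul, ← hj, mul_comm]
    exact mul_le_mul_of_nonneg_right (hx2 i) hpos.le

/-- Approximation in the projective distance implies `Q1`. -/
theorem approximable_of_within (hX : IsConeOver K X)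
    (h : ∀ δ : ℝ, 0 < δ → ApproxWithin T E X d δ) : Approximable T K E X d := by
  have hX0 : X.Nonempty := by
    obtain ⟨Y, _, h2, _, h4⟩ := h 1 one_pos
    obtain ⟨y, hy⟩ := dimGE_nonempty h2
    obtain ⟨x, hx, _⟩ := h4 y hy
    exact ⟨x, hx⟩
  intro r P D hPD hPX ε hε
  choose L hL0 hL using fun k => lipschitz T.ultraK (MvPolynomial.map (algebraMap K C) (P k))
  obtain ⟨η, hη, hη'⟩ := exists_pos_le (fun k => ε / (L k + 1))
    (fun k => div_pos hε (by linarith [hL0 k]))
  obtain ⟨Y, hY1, hY2, hY3, hY4⟩ := h (min η 1) (lt_min hη one_pos)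
  refine ⟨Y, hY1, hY2, hY3, fun y hy k B hB => ?_⟩
  have hB0 : 0 ≤ B := (T.absF.nonneg _).trans (hB (Classical.arbitrary ι))
  obtain ⟨j, hj⟩ := exists_size T (fun i => T.sharp (y i))
  change T.absK (aeval (fun i => T.sharp (y i)) (P k)) ≤ ε * B ^ D k
  rw [← eval_map_alg]
  set Q : MvPolynomial ι C := MvPolynomial.map (algebraMap K C) (P k) with hQ
  have hQD : Q.IsHomogeneous (D k) := (hPD k).map _
  have hQX : ∀ x ∈ X, eval x Q = 0 := fun x hx => by
    rw [hQ, eval_map_alg]
    exact hPX k x hx
  by_cases hyj : y j = 0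
  · have h0 : size T (fun i => T.sharp (y i)) = 0 := by
      rw [← hj]
      rw [hyj, T.sharp_zero, map_zero]
    have h1 : (fun i => T.sharp (y i)) = (0 : ι → C) := by
      funext i
      have h2 := le_size T (fun i => T.sharp (y i)) i
      rw [h0] at h2
      exact (T.absK.eq_zero).1 (le_antisymm h2 (T.absK.nonneg _))
    rw [h1, hQX 0 (zero_mem_cone hX hX0), map_zero]
    positivity
  · have hne : T.sharp (y j) ≠ 0 := T.sharp_ne hyj
    have hpos : 0 < T.absK (T.sharp (y j)) := T.absK.pos hne
    obtain ⟨x, hx, hxy⟩ := hY4 y hy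
    let c : C := (T.sharp (y j))⁻¹
    let z : ι → C := fun i => c * T.sharp (y i)
    let x' : ι → C := c • x
    have hx' : x' ∈ X := hX.2 _ _ hx
    have hz : ∀ i, T.absK (z i) ≤ 1 := by
      intro i
      change T.absK ((T.sharp (y j))⁻¹ * T.sharp (y i)) ≤ 1
      rw [map_mul, map_inv₀, inv_mul_le_iff₀ hpos, mul_one, hj]
      exact le_size T (fun i => T.sharp (y i)) i
    have hzx : ∀ i, T.absK (z i - x' i) ≤ min η 1 := by
      intro i
      have h1 : z i - x' i = c * (T.sharp (y i) - x i) := by
        change c * T.sharp (y i) - c * x i = _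
        ring
      rw [h1, map_mul]
      change T.absK (T.sharp (y j))⁻¹ * _ ≤ _
      rw [map_inv₀, inv_mul_le_iff₀ hpos, mul_comm, hj]
      exact hxy i
    have hx1 : ∀ i, T.absK (x' i) ≤ 1 := by
      intro i
      have h1 : x' i = z i + -(z i - x' i) := by ring
      rw [h1]
      refine (T.ultraK _ _).trans (max_le (hz i) ?_)
      rw [AbsoluteValue.map_neg]
      exact (hzx i).trans (min_le_right _ _)
    have h2 := hL k z x' hz hx1 (min η 1) (le_min hη.le zero_le_one) hzx
    rw [← hQ, hQX x' hx', sub_zero] at h2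
    have h3 : T.absK (eval z Q) ≤ ε := by
      refine h2.trans ?_
      have h4 : L k * min η 1 ≤ L k * (ε / (L k + 1)) :=
        mul_le_mul_of_nonneg_left ((min_le_left _ _).trans (hη' k)) (hL0 k)
      refine h4.trans ?_
      rw [mul_div_assoc', div_le_iff₀ (by linarith [hL0 k])]
      nlinarith [hL0 k]
    have h5 : (fun i => T.sharp (y i)) = fun i => T.sharp (y j) * z i := by
      funext i
      change _ = T.sharp (y j) * ((T.sharp (y j))⁻¹ * T.sharp (y i))
      rw [← mul_assoc, mul_inv_cancel₀ hne, one_mul]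
    rw [h5, eval_smul_of_homogeneous hQD, map_mul, map_pow, mul_comm]
    have h6 : T.absK (T.sharp (y j)) ≤ B := by
      rw [T.abs_sharp]
      exact hB j
    exact mul_le_mul h3 (pow_le_pow_left₀ hpos.le h6 _) (pow_nonneg hpos.le _) hε.le

end main

end Pool.Agent.Q219.PT
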