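import Pool.Agent.Q219.PT.Descent

/-!
# Q1 does not depend on the base field: the two directions
-/

set_option autoImplicit false
set_option linter.unusedSectionVars false

open MvPolynomial Pool.Agent.Y129.TA Pool.Agent.Y129.TB

namespace Pool.Agent.Q219.PT

theorem aeval_mul_hom {K C σ : Type} [Fintype σ] [Field K] [Field C] [Algebra K C]
    {Q : MvPolynomial σ K} {D : ℕ} (hQ : Q.IsHomogeneous D) (a : C) (t : σ → C) :
    aeval (fun i => a * t i) Q = a ^ D * aeval t Q := by
  rw [← eval_map_alg, ← eval_map_alg]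
  exact eval_smul_of_homogeneous (hQ.map _) a t

section main

variable {p : ℕ} [hp : Fact p.Prime] {C F ι K E : Type} [Field C] [Field F] [CharP F p] [Field K]
  [Field E] [Algebra K C] [Algebra E F] [IsAlgClosed C] [IsAlgClosed F] [Fintype ι] [Nonempty ι]
  {T : Tilting p C F} {X : Set (ι → C)} {d : ℕ}

/-- The arithmetic case follows from the geometric case. -/
theorem arithmetic_of_geometric (B : BaseField T K E) (hE : IsHenselianDense T.toTiltPair E)
    (hX : IsConeOver K X) (hd : DimLEOver K X d) (h : Approximable T.toTiltPair C F X d) :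
    Approximable T.toTiltPair K E X d := by
  classical
  have hX0 := zero_mem_cone hX (nonempty_of_approximable h)
  intro r P D hPD hPX ε hε
  obtain ⟨r', R, DR, hRD, hRX⟩ := exists_forms hX
  obtain ⟨q, hq, hq0⟩ := hd
  -- the forms `q j` are not all small
  have s2 : ∀ t : ι, ∃ δ : ℝ, 0 < δ ∧ ∀ v : ι → C, (∀ i, T.absK (v i) ≤ 1) →
      (∀ k, T.absK (eval v (Sum.elim (fun k => MvPolynomial.map (algebraMap K C) (R k))
        (fun j => MvPolynomial.map (algebraMap K C) (q j)) k)) ≤ δ) →
      T.absK (eval v (MvPolynomial.X t)) ≤ 1 / 2 := by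
    intro t
    refine small T.ultraK _ _ (fun v hv => ?_) (by norm_num)
    have h1 : v ∈ X := (hRX v).2 fun k => by
      rw [← eval_map_alg]
      exact hv (Sum.inl k)
    have h2 := hq0 v h1 fun j => by
      rw [← eval_map_alg]
      exact hv (Sum.inr j)
    rw [eval_X, h2]
    rfl
  choose δ₂ hδ₂ hs2 using s2
  obtain ⟨δ, hδ, hδ'⟩ := exists_pos_le δ₂ hδ₂
  -- the approximations of the forms `q j`
  have a2 : ∀ j : Fin (d + 1), ∃ D, 0 < D ∧ ∃ g : MvPolynomial ι E, g.IsHomogeneous D ∧
      ∀ t : ι → F, (∀ i, T.absF (t i) ≤ 1) → aeval t g = 0 →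
        T.absK (aeval (fun i => T.sharp (t i)) (q j)) ≤ δ := by
    intro j
    obtain ⟨D, hD, hD'⟩ := hq j
    exact approx T B hD hD' hδ
  choose Dg hDg g hg hga using a2
  -- the geometric approximation
  let PP : Fin (r + r') → MvPolynomial ι K := Fin.append P R
  let DD : Fin (r + r') → ℕ := Fin.append D DR
  have hPPD : ∀ k, (PP k).IsHomogeneous (DD k) := by
    intro k
    refine Fin.addCases (fun k => ?_) (fun k => ?_) k
    · simp only [PP, DD, Fin.append_left]
      exact hPD k
    · simp only [PP, DD, Fin.append_right]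
      exact hRD k
  have hPPX : ∀ k, ∀ x ∈ X, aeval x (PP k) = 0 := by
    intro k x hx
    refine Fin.addCases (fun k => ?_) (fun k => ?_) k
    · simp only [PP, Fin.append_left]
      exact hPX k x hx
    · simp only [PP, Fin.append_right]
      exact (hRX x).1 hx k
  have hε₁ : 0 < min ε δ := lt_min hε hδ
  obtain ⟨Y, hY1, hY2, -, hY4⟩ := h (r + r')
    (fun k => MvPolynomial.map (algebraMap K C) (PP k)) DD (fun k => (hPPD k).map _)
    (fun k x hx => by rw [aeval_map_algebraMap]; exact hPPX k x hx) (min ε δ) hε₁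
  obtain ⟨Y', h1, h2, h3⟩ := descent_core B hE PP DD hε₁ hY1 hY2 (fun y hy k b hb => by
    have h5 := hY4 y hy k b hb
    rw [aeval_map_algebraMap] at h5
    exact h5)
  have hP : ∀ y ∈ Y', (∀ i, T.absF (y i) ≤ 1) → ∀ k,
      T.absK (aeval (fun i => T.sharp (y i)) (P k)) ≤ min ε δ := by
    intro y hy hy1 k
    have h5 := h3 y hy hy1 (Fin.castAdd r' k)
    simp only [PP, Fin.append_left] at h5
    exact h5
  have hR : ∀ y ∈ Y', (∀ i, T.absF (y i) ≤ 1) → ∀ k,
      T.absK (aeval (fun i => T.sharp (y i)) (R k)) ≤ min ε δ := by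
    intro y hy hy1 k
    have h5 := h3 y hy hy1 (Fin.natAdd r k)
    simp only [PP, Fin.append_right] at h5
    exact h5
  refine ⟨Y', h1, h2, ⟨fun j => MvPolynomial.map (algebraMap E F) (g j),
    fun j => form_map ⟨Dg j, hDg j, hg j⟩, fun y hy hgy => ?_⟩, fun y hy k b hb => ?_⟩
  · by_contra hy0
    obtain ⟨a, ha, ha1, t, ht⟩ := exists_normal T.toTiltPair hy0
    have hay : (fun i => a * y i) ∈ Y' := h1.2 a y hy
    have h5 := hs2 t (fun i => T.sharp (a * y i)) (fun i => by rw [T.abs_sharp]; exact ha1 i) (by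
      rintro (k | j)
      · rw [Sum.elim_inl, eval_map_alg]
        exact (hR _ hay ha1 k).trans ((min_le_right _ _).trans (hδ' t))
      · rw [Sum.elim_inr, eval_map_alg]
        refine (hga j (fun i => a * y i) ha1 ?_).trans (hδ' t)
        have h6 := hgy j
        rw [eval_map_alg] at h6
        rw [aeval_mul_hom (hg j), h6, mul_zero])
    rw [eval_X, T.abs_sharp, ht] at h5
    norm_num at h5
  · have hb0 : 0 ≤ b := (T.absF.nonneg _).trans (hb (Classical.arbitrary ι))
    by_cases hy0 : y = 0
    · have h5 : (fun i => T.sharp (y i)) = (0 : ι → C) := by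
        funext i
        rw [hy0, Pi.zero_apply, T.sharp_zero, Pi.zero_apply]
      rw [h5, hPX k 0 hX0, map_zero]
      positivity
    · obtain ⟨a, ha, ha1, t, ht⟩ := exists_normal T.toTiltPair hy0
      have hay : (fun i => a * y i) ∈ Y' := h1.2 a y hy
      have h5 := (hP _ hay ha1 k).trans (min_le_left _ _)
      have h6 : (fun i => T.sharp (a * y i)) = fun i => T.sharp a * T.sharp (y i) := by
        funext i
        exact map_mul _ _ _
      rw [h6, aeval_mul_hom (hPD k), map_mul, map_pow, T.abs_sharp] at h5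
      have ha0 : 0 < T.absF a := T.absF.pos ha
      have hab : 1 ≤ T.absF a * b := by
        rw [← ht, map_mul]
        exact mul_le_mul_of_nonneg_left (hb t) ha0.le
      have h7 : 1 ≤ (T.absF a * b) ^ D k := one_le_pow₀ hab
      rw [mul_pow] at h7
      have h8 : 0 < T.absF a ^ D k := pow_pos ha0 _
      refine le_of_mul_le_mul_left (h5.trans ?_) h8
      have h9 : ε * 1 ≤ ε * (T.absF a ^ D k * b ^ D k) := mul_le_mul_of_nonneg_left h7 hε.le
      rw [mul_one] at h9
      refine h9.trans (le_of_eq ?_)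
      ring

/-- Q1 over `K` is equivalent to Q1 over `C`. -/
theorem arithmetic_iff (B : BaseField T K E) (hE : IsHenselianDense T.toTiltPair E)
    (hX : IsConeOver K X) (hd : DimLEOver K X d) :
    Approximable T.toTiltPair K E X d ↔ Approximable T.toTiltPair C F X d :=
  ⟨geometric_of_arithmetic hX, arithmetic_of_geometric B hE hX hd⟩

end main

end Pool.Agent.Q219.PT
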