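import Pool.Agent.Q219.PT.Indep

/-!
# Smooth systems of homogeneous polynomials: finite certificates
-/

set_option autoImplicit false
set_option linter.unusedSectionVars false

open MvPolynomial Pool.Agent.Y129.TA Pool.Agent.Y129.TB

namespace Pool.Agent.Q219.PT

/-- The closed subscheme of projective space over the algebraically closed field `L` which is
defined by the homogeneous polynomials `G j` is smooth: at every point `x` its ideal is generated,
after the localisation at `x`, by some of the `G j`, whose gradients at `x` are linearly independent. -/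
def IsSmooth {L ι κ : Type} [Field L] (G : κ → MvPolynomial ι L) : Prop :=
  ∀ x : ι → L, x ≠ 0 → (∀ j, eval x (G j) = 0) →
    ∃ (c : ℕ) (I : Fin c → κ) (h : MvPolynomial ι L), eval x h ≠ 0 ∧
      (∀ j, h * G j ∈ Ideal.span (Set.range fun a => G (I a))) ∧
        LinearIndependent L fun (a : Fin c) (i : ι) => eval x (pderiv i (G (I a)))

section jac

variable {R S : Type} [CommRing R] [CommRing S] {ι κ : Type}

/-- A minor of the Jacobian matrix. -/
noncomputable def jac (G : κ → MvPolynomial ι R) {c : ℕ} (I : Fin c → κ) (J : Fin c → ι) :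
    MvPolynomial ι R := (Matrix.of fun a b => pderiv (J b) (G (I a))).det

theorem map_jac (f : R →+* S) (G : κ → MvPolynomial ι R) {c : ℕ} (I : Fin c → κ) (J : Fin c → ι) :
    MvPolynomial.map f (jac G I J) = jac (fun j => MvPolynomial.map f (G j)) I J := by
  unfold jac
  rw [RingHom.map_det]
  congr 1
  refine Matrix.ext fun a b => ?_
  simp only [RingHom.mapMatrix_apply, Matrix.map_apply, Matrix.of_apply]
  exact (pderiv_map (φ := f) (f := G (I a)) (i := J b)).symm

theorem eval_jac (x : ι → R) (G : κ → MvPolynomial ι R) {c : ℕ} (I : Fin c → κ) (J : Fin c → ι) :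
    eval x (jac G I J) = (Matrix.of fun a b => eval x (pderiv (J b) (G (I a)))).det := by
  unfold jac
  rw [RingHom.map_det]
  rfl

theorem jac_homogeneous {G : κ → MvPolynomial ι R} {D : κ → ℕ}
    (hG : ∀ j, (G j).IsHomogeneous (D j)) {c : ℕ} (I : Fin c → κ) (J : Fin c → ι) :
    (jac G I J).IsHomogeneous (∑ a, (D (I a) - 1)) := by
  unfold jac
  rw [Matrix.det_apply]
  refine IsHomogeneous.sum _ _ _ fun σ _ => ?_
  have h1 : (∏ i, (Matrix.of fun a b => pderiv (J b) (G (I a))) (σ i) i).IsHomogeneous
      (∑ i, (D (I (σ i)) - 1)) := IsHomogeneous.prod _ _ _ fun i _ => (hG _).pderiv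
  rw [Equiv.sum_comp σ (fun a => D (I a) - 1)] at h1
  rcases Int.units_eq_one_or (Equiv.Perm.sign σ) with h | h
  · rw [h, one_smul]
    exact h1
  · rw [h, Units.neg_smul, one_smul]
    exact h1.neg

end jac

section minors

variable {L ι : Type} [Field L] [Fintype ι]

/-- Linearly independent rows have a nonzero minor. -/
theorem exists_columns {c : ℕ} (M : Fin c → ι → L) (hM : LinearIndependent L M) :
    ∃ J : Fin c → ι, (Matrix.of fun a b => M a (J b)).det ≠ 0 := by
  classical
  let col : ι → (Fin c → L) := fun j a => M a j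
  have hspan : Submodule.span L (Set.range col) = ⊤ := by
    have h1 : (Matrix.of M).rank = Fintype.card (Fin c) := LinearIndependent.rank_matrix hM
    have h2 : Module.finrank L (Submodule.span L (Set.range (Matrix.of M).col)) = c := by
      rw [← Matrix.rank_eq_finrank_span_cols, h1, Fintype.card_fin]
    have h3 : (Matrix.of M).col = col := rfl
    rw [h3] at h2
    refine Submodule.eq_top_of_finrank_eq ?_
    rw [h2, Module.finrank_fin_fun]
  obtain ⟨κ, a, ha, hsp, hli⟩ := exists_linearIndependent' L col
  rw [hspan] at hsp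
  let B : Module.Basis κ L (Fin c → L) := Module.Basis.mk hli hsp.ge
  let e : κ ≃ Fin c := B.indexEquiv (Pi.basisFun L (Fin c))
  refine ⟨fun b => a (e.symm b), ?_⟩
  have h1 : LinearIndependent L (Matrix.of fun a' b => M a' (a (e.symm b))).col := by
    have h2 : (Matrix.of fun a' b => M a' (a (e.symm b))).col = fun i => (col ∘ a) (e.symm i) := by
      funext i j
      rfl
    rw [h2]
    exact hli.comp _ e.symm.injective
  exact ((Matrix.isUnit_iff_isUnit_det _).1 (Matrix.linearIndependent_cols_iff_isUnit.1 h1)).ne_zero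

/-- A nonzero minor shows that the rows are linearly independent. -/
theorem linearIndependent_of_minor {c : ℕ} (M : Fin c → ι → L) (J : Fin c → ι)
    (h : (Matrix.of fun a b => M a (J b)).det ≠ 0) : LinearIndependent L M := by
  have h1 : LinearIndependent L (Matrix.of fun a b => M a (J b)).row :=
    Matrix.linearIndependent_rows_iff_isUnit.2
      ((Matrix.isUnit_iff_isUnit_det _).2 (isUnit_iff_ne_zero.2 h))
  refine LinearIndependent.of_comp (LinearMap.funLeft L L J) ?_
  exact h1

end minors

section certificate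

attribute [local instance] MvPolynomial.gradedAlgebra

variable {L ι κ : Type} [Field L] [IsAlgClosed L] [Fintype ι] [Finite κ]

/-- The smoothness is a consequence of finitely many identities. -/
theorem exists_certificate (G : κ → MvPolynomial ι L) (D : κ → ℕ)
    (hG : ∀ j, (G j).IsHomogeneous (D j)) (hs : IsSmooth G) :
    ∃ (N : ℕ) (c : Fin N → ℕ) (I : ∀ l, Fin (c l) → κ) (J : ∀ l, Fin (c l) → ι)
      (h : Fin N → MvPolynomial ι L) (e : Fin N → ℕ)
      (a : ∀ l, κ → Fin (c l) → MvPolynomial ι L), (∀ l, (h l).IsHomogeneous (e l)) ∧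
      (∀ l j, h l * G j = ∑ b, a l j b * G (I l b)) ∧
      ∀ x : ι → L, (∀ j, eval x (G j) = 0) → (∀ l, eval x (h l * jac G (I l) (J l)) = 0) →
        x = 0 := by
  classical
  -- the set of all certificates
  let 𝒮 : Set (MvPolynomial ι L) := {P | ∃ (c : ℕ) (I : Fin c → κ) (J : Fin c → ι)
    (h : MvPolynomial ι L) (e : ℕ), h.IsHomogeneous e ∧
      (∀ j, h * G j ∈ Ideal.span (Set.range fun a => G (I a))) ∧ P = h * jac G I J}
  have hzero : ∀ x : ι → L, (∀ j, eval x (G j) = 0) → (∀ P ∈ 𝒮, eval x P = 0) → x = 0 := by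
    intro x hx hxS
    by_contra hx0
    obtain ⟨c, I, h, hhx, hh, hli⟩ := hs x hx0 hx
    obtain ⟨J, hJ⟩ := exists_columns _ hli
    -- a homogeneous component
    obtain ⟨m, hm⟩ : ∃ m, eval x (homogeneousComponent m h) ≠ 0 := by
      by_contra hno
      push Not at hno
      refine hhx ?_
      rw [← sum_homogeneousComponent h, map_sum]
      exact Finset.sum_eq_zero fun m _ => hno m
    have h1 : ∀ j, homogeneousComponent m h * G j ∈ Ideal.span (Set.range fun a => G (I a)) := by
      intro j
      have h2 := Y129.TB.span_isHomogeneous (fun a => G (I a)) (fun a => D (I a)) fun a => hG _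
      have h3 : homogeneousComponent (m + D j) (h * G j) ∈
          Ideal.span (Set.range fun a => G (I a)) := by
        have h4 := h2 (m + D j) (hh j)
        have h5 : ((DirectSum.decompose (homogeneousSubmodule ι L) (h * G j) (m + D j) :
            homogeneousSubmodule ι L (m + D j)) : MvPolynomial ι L) =
              homogeneousComponent (m + D j) (h * G j) :=
          decomposition.decompose'_apply (h * G j) (m + D j)
        rw [← h5]
        exact h4
      rw [Y129.TB.component_mul (hG j), if_pos (Nat.le_add_left _ _), Nat.add_sub_cancel] at h3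
      exact h3
    have h2 := hxS _ ⟨c, I, J, homogeneousComponent m h, m, homogeneousComponent_isHomogeneous m h,
      h1, rfl⟩
    rw [map_mul, eval_jac] at h2
    exact (mul_ne_zero hm hJ) h2
  -- finitely many are enough
  have hmem : ∀ i : ι, ∃ M : ℕ, (X i : MvPolynomial ι L) ^ M ∈ Ideal.span (𝒮 ∪ Set.range G) := by
    intro i
    have h1 : (X i : MvPolynomial ι L) ∈ (Ideal.span (𝒮 ∪ Set.range G)).radical := by
      rw [← vanishingIdeal_zeroLocus_eq_radical (K := L), mem_vanishingIdeal_iff]
      intro w hw
      rw [mem_zeroLocus_iff] at hw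
      have hw0 : w = 0 := by
        refine hzero w (fun j => ?_) fun P hP => ?_
        · have h2 := hw _ (Ideal.subset_span (Or.inr ⟨j, rfl⟩))
          rwa [aeval_eq_eval] at h2
        · have h2 := hw _ (Ideal.subset_span (Or.inl hP))
          rwa [aeval_eq_eval] at h2
      rw [aeval_X, hw0]
      rfl
    exact h1
  choose M hM using hmem
  choose t ht ht' using fun i => Submodule.mem_span_finite_of_mem_span (hM i)
  let t₀ : Finset (MvPolynomial ι L) := (Finset.univ.biUnion t).filter (· ∈ 𝒮)
  have ht₀ : ∀ x : ι → L, (∀ j, eval x (G j) = 0) → (∀ P ∈ t₀, eval x P = 0) → x = 0 := by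
    intro x hx hxt
    funext i
    have h1 : Ideal.span ((t i : Finset (MvPolynomial ι L)) : Set (MvPolynomial ι L)) ≤
        RingHom.ker (eval x) := by
      rw [Ideal.span_le]
      intro P hP
      rcases ht i hP with h2 | ⟨j, rfl⟩
      · exact hxt P (Finset.mem_filter.2 ⟨Finset.mem_biUnion.2 ⟨i, Finset.mem_univ i, hP⟩, h2⟩)
      · exact hx j
    have h2 : eval x (X i ^ M i) = 0 := h1 (ht' i)
    rw [map_pow, eval_X] at h2
    exact eq_zero_of_pow_eq_zero h2
  let eqv := t₀.equivFin
  have hP : ∀ l : Fin t₀.card, ((eqv.symm l : t₀) : MvPolynomial ι L) ∈ 𝒮 := fun l =>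
    (Finset.mem_filter.1 (eqv.symm l).2).2
  choose c I J h e h1 h2 h3 using hP
  choose a ha using fun l j => (Ideal.mem_span_range_iff_exists_fun).1 (h2 l j)
  refine ⟨t₀.card, c, I, J, h, e, a, h1, fun l j => (ha l j).symm, fun x hx hx' => ?_⟩
  refine ht₀ x hx fun P hP => ?_
  have h4 := hx' (eqv ⟨P, hP⟩)
  rw [← h3, Equiv.symm_apply_apply] at h4
  exact h4

end certificate

end Pool.Agent.Q219.PT
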