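import Pool.Agent.Q219.PT.Smooth

/-!
# Reduction of Q1 to smooth varieties over a dense algebraically closed subfield
-/

set_option autoImplicit false
set_option linter.unusedSectionVars false

open MvPolynomial Pool.Agent.Y129.TA Pool.Agent.Y129.TB

namespace Pool.Agent.Q219.PT

/-- `X` is the set of the points over `C` of a smooth closed subscheme, of dimension `d`, of projective
space over `K`: it is the set of the common zeros of homogeneous polynomials over `K` with `IsSmooth`. -/
def IsSmoothOfDim {C : Type} [Field C] (K : Type) [Field K] [Algebra K C] {ι : Type}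
    (X : Set (ι → C)) (d : ℕ) : Prop :=
  ∃ (r : ℕ) (g : Fin r → MvPolynomial ι K) (D : Fin r → ℕ), (∀ j, (g j).IsHomogeneous (D j)) ∧
    X = {x | ∀ j, aeval x (g j) = 0} ∧
    IsSmooth (fun j => MvPolynomial.map (algebraMap K C) (g j)) ∧ DimGE X d ∧ DimLEOver K X d

/-- The image of the field `k` is dense in `C`. -/
def IsDenseIn {p : ℕ} {C F : Type} [Field C] [Field F] (T : TiltPair p C F) (k : Type) [Field k]
    [Algebra k C] : Prop :=
  ∀ (x : C) (δ : ℝ), 0 < δ → ∃ y : k, T.absK (x - algebraMap k C y) ≤ δ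

theorem zeros_cone {K C ι : Type} [Field K] [Field C] [Algebra K C] [Fintype ι] {r : ℕ}
    (g : Fin r → MvPolynomial ι K) (D : Fin r → ℕ) (hg : ∀ j, (g j).IsHomogeneous (D j)) :
    IsConeOver K {x : ι → C | ∀ j, aeval x (g j) = 0} := by
  refine ⟨⟨Ideal.span (Set.range g), ?_⟩, fun a x hx j => ?_⟩
  · ext x
    rw [mem_zeroLocus_iff]
    constructor
    · intro h f hf
      have h3 : Ideal.span (Set.range g) ≤ RingHom.ker (aeval x : MvPolynomial ι K →ₐ[K] C) := by
        rw [Ideal.span_le]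
        rintro _ ⟨j, rfl⟩
        exact h j
      exact h3 hf
    · intro h j
      exact h _ (Ideal.subset_span ⟨j, rfl⟩)
  · have h1 := aeval_mul_hom (hg j) a x
    change aeval (fun i => a * x i) (g j) = 0
    rw [h1, hx j, mul_zero]

section main

variable {p : ℕ} [hp : Fact p.Prime] {C F ι : Type} [Field C] [Field F] [CharP F p]
  [IsAlgClosed C] [IsAlgClosed F] [Fintype ι] [Nonempty ι] {d : ℕ}

/-- A cone which is near to a cone on the unit ball is near. -/
theorem near_of_unit {T : TiltPair p C F} {X X' : Set (ι → C)} (hX : ∀ a : C, ∀ x ∈ X, a • x ∈ X)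
    (hX' : ∀ a : C, ∀ x ∈ X', a • x ∈ X') {δ : ℝ} (hδ : 0 ≤ δ)
    (h : ∀ x ∈ X', (∀ i, T.absK (x i) ≤ 1) → ∃ y ∈ X, ∀ i, T.absK (x i - y i) ≤ δ) :
    ∀ x ∈ X', Near T X δ x := by
  intro x hx
  obtain ⟨j, hj⟩ := exists_size T x
  by_cases hxj : x j = 0
  · have hs : size T x = 0 := by rw [← hj, hxj, map_zero]
    have hx0 : ∀ i, x i = 0 := by
      intro i
      have h2 := le_size T x i
      rw [hs] at h2
      exact (T.absK.eq_zero).1 (le_antisymm h2 (T.absK.nonneg _))
    obtain ⟨y, hy, -⟩ := h x hx fun i => by rw [hx0, map_zero]; exact zero_le_one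
    refine ⟨0, ?_, fun i => ?_⟩
    · have h3 := hX 0 y hy
      rwa [zero_smul] at h3
    · rw [hx0, Pi.zero_apply, sub_zero, map_zero]
      exact mul_nonneg hδ (size_nonneg T x)
  · have hpos : 0 < T.absK (x j) := T.absK.pos hxj
    obtain ⟨y, hy, hxy⟩ := h ((x j)⁻¹ • x) (hX' _ _ hx) fun i => by
      change T.absK ((x j)⁻¹ * x i) ≤ 1
      rw [map_mul, map_inv₀, inv_mul_le_iff₀ hpos, mul_one, hj]
      exact le_size T x i
    refine ⟨x j • y, hX _ _ hy, fun i => ?_⟩
    have h8 : x i - (x j • y) i = x j * (((x j)⁻¹ • x) i - y i) := by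
      change x i - x j * y i = x j * ((x j)⁻¹ * x i - y i)
      rw [mul_sub, ← mul_assoc, mul_inv_cancel₀ hxj, one_mul]
    rw [h8, map_mul, ← hj, mul_comm]
    exact mul_le_mul_of_nonneg_right (hxy i) hpos.le

/-- Smooth varieties are limits of smooth varieties over a dense subfield. -/
theorem exists_near_smooth (T : Tilting p C F) {k : Type} [Field k] [Algebra k C] [IsAlgClosed k]
    (hk : IsDenseIn T.toTiltPair k) {X : Set (ι → C)} (hX : IsSmoothOfDim C X d) {δ : ℝ}
    (hδ : 0 < δ) :
    ∃ X' : Set (ι → C), IsSmoothOfDim k X' d ∧ ∀ x ∈ X', Near T.toTiltPair X δ x := by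
  obtain ⟨r, g₀, D, hg₀, rfl, hsm, hGE, q₀, hq₀, hq0⟩ := hX
  let g : Fin r → MvPolynomial ι C := fun j => MvPolynomial.map (algebraMap C C) (g₀ j)
  let q : Fin (d + 1) → MvPolynomial ι C := fun j => MvPolynomial.map (algebraMap C C) (q₀ j)
  have hg : ∀ j, (g j).IsHomogeneous (D j) := fun j => (hg₀ j).map _
  choose Dq hDq hqD' using hq₀
  have hqD : ∀ j, (q j).IsHomogeneous (Dq j) := fun j => (hqD' j).map _
  have hev : ∀ (f : MvPolynomial ι C) (x : ι → C), eval x (MvPolynomial.map (algebraMap C C) f) =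
      aeval x f := fun f x => eval_map_alg f x
  have hset : {x : ι → C | ∀ j, aeval x (g₀ j) = 0} = {x : ι → C | ∀ j, eval x (g j) = 0} := by
    ext x
    refine forall_congr' fun j => ?_
    rw [hev]
  obtain ⟨ε, hε, hpert⟩ := near_of_perturb T.ultraK g hδ
  have hsmall : ∃ ϖ : k, ϖ ≠ 0 ∧ T.absK (algebraMap k C ϖ) < 1 := by
    refine ⟨(p : k), fun h => ?_, ?_⟩
    · have h1 : algebraMap k C (p : k) = 0 := by rw [h, map_zero]
      rw [map_natCast] at h1
      exact T.p_ne h1
    · rw [map_natCast]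
      exact T.p_lt
  obtain ⟨g', q', h1, h2, h3, h4, h5, h6⟩ := exists_smooth_spec T.ultraK hk hsmall g D hg q Dq hqD
    (fun x hx hx' => hq0 x (fun j => by rw [← hev]; exact hx j)
      (fun j => by rw [← hev]; exact hx' j)) hε
  have hset' : {x : ι → C | ∀ j, aeval x (g' j) = 0} =
      {x : ι → C | ∀ j, eval x (MvPolynomial.map (algebraMap k C) (g' j)) = 0} := by
    ext x
    refine forall_congr' fun j => ?_
    rw [eval_map_alg]
  have hcone := zeros_cone (C := C) g₀ D hg₀
  have hcone' := zeros_cone (C := C) g' D h1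
  refine ⟨{x | ∀ j, aeval x (g' j) = 0}, ⟨r, g', D, h1, rfl, h6 hsm, ?_, q',
    fun j => ⟨Dq j, hDq j, h2 j⟩, fun y hy hy' => ?_⟩, ?_⟩
  · rw [hset']
    refine h5 ?_
    rw [← hset]
    exact hGE
  · refine h4 y (fun j => ?_) fun j => ?_
    · rw [eval_map_alg]
      exact hy j
    · rw [eval_map_alg]
      exact hy' j
  · refine near_of_unit hcone.2 hcone'.2 hδ.le fun x hx hx1 => ?_
    obtain ⟨y, hy, hxy⟩ := hpert _ h3 x hx1 fun j => by
      rw [eval_map_alg]
      exact hx j
    refine ⟨y, ?_, hxy⟩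
    rw [hset]
    exact hy

theorem smooth_baseChange {K : Type} [Field K] [Algebra K C] {X : Set (ι → C)}
    (hX : IsSmoothOfDim K X d) : IsSmoothOfDim C X d := by
  obtain ⟨r, g, D, hg, rfl, hsm, hGE, q, hq, hq0⟩ := hX
  refine ⟨r, fun j => MvPolynomial.map (algebraMap K C) (g j), D, fun j => (hg j).map _, ?_, ?_, hGE,
    fun j => MvPolynomial.map (algebraMap K C) (q j), fun j => form_map (hq j), fun y hy hy' => ?_⟩
  · ext x
    refine forall_congr' fun j => ?_
    rw [aeval_map_algebraMap]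
  · have h1 : ∀ f : MvPolynomial ι C, MvPolynomial.map (algebraMap C C) f = f := fun f => map_id f
    simp only [h1]
    exact hsm
  · refine hq0 y hy fun j => ?_
    have h1 := hy' j
    rw [aeval_map_algebraMap] at h1
    exact h1

/-- Q1 for smooth varieties over a dense algebraically closed subfield implies Q1 for all smooth
varieties. -/
theorem reduction (T : Tilting p C F) {k : Type} [Field k] [Algebra k C] [IsAlgClosed k]
    (hk : IsDenseIn T.toTiltPair k)
    (h : ∀ X' : Set (ι → C), IsSmoothOfDim k X' d → Approximable T.toTiltPair C F X' d)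
    {K E : Type} [Field K] [Field E] [Algebra K C] [Algebra E F] (B : BaseField T K E)
    (hE : IsHenselianDense T.toTiltPair E) {X : Set (ι → C)} (hX : IsSmoothOfDim K X d) :
    Approximable T.toTiltPair K E X d := by
  have hXC := smooth_baseChange hX
  obtain ⟨r, g, D, hg, rfl, hsm, hGE, hLE⟩ := hX
  have hcone := zeros_cone (C := C) g D hg
  refine arithmetic_of_geometric B hE hcone hLE ?_
  refine approximable_of_limit (cone_self hcone) fun ε hε => ?_
  obtain ⟨X', h1, h2⟩ := exists_near_smooth T hk hXC hε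
  refine ⟨0, ε, hε, by rw [pow_zero, pow_one], X', ?_, h X' h1, ?_⟩
  · obtain ⟨r', g', D', hg', rfl, -⟩ := h1
    exact cone_self (zeros_cone g' D' hg')
  · have h0 : rootsOf (p ^ 0) {x : ι → C | ∀ j, aeval x (g j) = 0} =
        {x : ι → C | ∀ j, aeval x (g j) = 0} := by
      ext x
      change (fun i => x i ^ p ^ 0) ∈ {x : ι → C | ∀ j, aeval x (g j) = 0} ↔ _
      simp only [pow_zero, pow_one]
    rw [h0]
    exact h2

/-- The field `C` with its tilt `F`. -/
theorem baseField_self (T : Tilting p C F) : BaseField T C F where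
  perf a := IsAlgClosed.exists_pow_nat_eq a hp.out.pos
  val := by
    obtain ⟨ϖ, hϖ⟩ := T.surj (p : C)
    refine ⟨ϖ, ?_⟩
    rw [← hϖ, T.abs_sharp]
    rfl
  θ_mem x _ := ⟨T.θ x, rfl⟩
  θ_surj y hy := by
    obtain ⟨x, hx⟩ := T.θ_surj y hy
    exact ⟨x, fun n => ⟨_, rfl⟩, hx⟩

theorem henselianDense_self {T : TiltPair p C F} : IsHenselianDense T F where
  dense x δ hδ := ⟨x, isAlgebraic_algebraMap x, by rw [sub_self, map_zero]; exact hδ.le⟩
  conj x y _ h := by
    have h1 : minpoly F x = Polynomial.X - Polynomial.C x := minpoly.eq_X_sub_C' x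
    have h2 : minpoly F y = Polynomial.X - Polynomial.C y := minpoly.eq_X_sub_C' y
    rw [h1, h2] at h
    have h3 : x = y := by
      have h4 := congrArg (Polynomial.eval x) h
      simp only [Polynomial.eval_sub, Polynomial.eval_X, Polynomial.eval_C, sub_self] at h4
      exact sub_eq_zero.1 h4.symm
    rw [h3]

end main

end Pool.Agent.Q219.PT
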