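import Pool.Agent.Q219.PT.Jac

/-!
# Smooth systems have near smooth specialisations
-/

set_option autoImplicit false
set_option linter.unusedSectionVars false

open MvPolynomial Pool.Agent.Y129.TA Pool.Agent.Y129.TB

namespace Pool.Agent.Q219.PT

section spec

variable {k L : Type} [Field k] [Field L] [Algebra k L] {ι : Type} [IsAlgClosed k] [IsAlgClosed L]

/-- A near specialisation which does not annihilate a given element. -/
theorem exists_spec_ne {a : AbsoluteValue L ℝ} (ha : ∀ x y, a (x + y) ≤ max (a x) (a y))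
    (hdense : ∀ (x : L) (δ : ℝ), 0 < δ → ∃ y : k, a (x - algebraMap k L y) ≤ δ)
    (hsmall : ∃ ϖ : k, ϖ ≠ 0 ∧ a (algebraMap k L ϖ) < 1) (S : Finset L)
    (Δ : Algebra.adjoin k (S : Set L)) (hΔ : (Δ : L) ≠ 0) {δ : ℝ} (hδ : 0 < δ) :
    ∃ s : Algebra.adjoin k (S : Set L) →ₐ[k] k, s Δ ≠ 0 ∧
      ∀ x : Algebra.adjoin k (S : Set L), (x : L) ∈ S → a ((x : L) - algebraMap k L (s x)) ≤ δ := by
  classical
  have hpos : 0 < a (Δ : L) := a.pos hΔ
  obtain ⟨S', hS'⟩ : ∃ S' : Finset L, S' = insert (Δ : L) S := ⟨_, rfl⟩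
  have hsub : (S : Set L) ⊆ (S' : Set L) := by
    intro x hx
    rw [hS']
    exact Finset.mem_insert_of_mem hx
  have hΔS : (Δ : L) ∈ S' := by
    rw [hS']
    exact Finset.mem_insert_self _ _
  obtain ⟨s', hs'⟩ := exists_spec ha hdense hsmall S'
    (δ := min δ (a (Δ : L) / 2)) (lt_min hδ (by linarith))
  obtain ⟨inc, hinc⟩ : ∃ inc : Algebra.adjoin k (S : Set L) →ₐ[k] Algebra.adjoin k (S' : Set L),
      ∀ x, ((inc x : Algebra.adjoin k (S' : Set L)) : L) = x :=
    ⟨Subalgebra.inclusion (Algebra.adjoin_mono hsub), fun x =>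
      Subalgebra.coe_inclusion (Algebra.adjoin_mono hsub) x⟩
  refine ⟨s'.comp inc, fun h0 => ?_, fun x hx => ?_⟩
  · have h1 := hs' (inc Δ) (by rw [hinc]; exact hΔS)
    rw [AlgHom.comp_apply] at h0
    rw [h0, map_zero, sub_zero, hinc] at h1
    have h3 := h1.trans (min_le_right _ _)
    linarith
  · have h1 := hs' (inc x) (by rw [hinc]; exact hsub hx)
    rw [hinc] at h1
    rw [AlgHom.comp_apply]
    exact h1.trans (min_le_left _ _)

/-- A system of homogeneous polynomials over `L` which defines a closed subscheme of dimension `d` has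
near specialisations over `k` of dimension `d`, which are smooth if the given system is smooth. -/
theorem exists_smooth_spec {a : AbsoluteValue L ℝ} (ha : ∀ x y, a (x + y) ≤ max (a x) (a y))
    (hdense : ∀ (x : L) (δ : ℝ), 0 < δ → ∃ y : k, a (x - algebraMap k L y) ≤ δ)
    (hsmall : ∃ ϖ : k, ϖ ≠ 0 ∧ a (algebraMap k L ϖ) < 1) {κ : Type} [Fintype ι] [Fintype κ]
    (g : κ → MvPolynomial ι L) (D : κ → ℕ) (hg : ∀ j, (g j).IsHomogeneous (D j)) {d : ℕ}
    (q : Fin (d + 1) → MvPolynomial ι L) (Dq : Fin (d + 1) → ℕ)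
    (hq : ∀ j, (q j).IsHomogeneous (Dq j))
    (hq0 : ∀ x : ι → L, (∀ j, eval x (g j) = 0) → (∀ j, eval x (q j) = 0) → x = 0) {ε : ℝ}
    (hε : 0 < ε) :
    ∃ (g' : κ → MvPolynomial ι k) (q' : Fin (d + 1) → MvPolynomial ι k),
      (∀ j, (g' j).IsHomogeneous (D j)) ∧ (∀ j, (q' j).IsHomogeneous (Dq j)) ∧
      (∀ j m, a (coeff m (g j) - coeff m (MvPolynomial.map (algebraMap k L) (g' j))) ≤ ε) ∧
      (∀ x : ι → L, (∀ j, eval x (MvPolynomial.map (algebraMap k L) (g' j)) = 0) →
        (∀ j, eval x (MvPolynomial.map (algebraMap k L) (q' j)) = 0) → x = 0) ∧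
      (DimGE {x : ι → L | ∀ j, eval x (g j) = 0} d →
        DimGE {x : ι → L | ∀ j, eval x (MvPolynomial.map (algebraMap k L) (g' j)) = 0} d) ∧
      (IsSmooth g → IsSmooth fun j => MvPolynomial.map (algebraMap k L) (g' j)) := by
  classical
  -- the certificates
  obtain ⟨N, c, I, J, h, e, b, hh, hhb, hcert⟩ : ∃ (N : ℕ) (c : Fin N → ℕ)
      (I : ∀ l, Fin (c l) → κ) (J : ∀ l, Fin (c l) → ι)
      (h : Fin N → MvPolynomial ι L) (e : Fin N → ℕ)
      (b : ∀ l, κ → Fin (c l) → MvPolynomial ι L), (∀ l, (h l).IsHomogeneous (e l)) ∧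
      (∀ l j, h l * g j = ∑ i, b l j i * g (I l i)) ∧
      (IsSmooth g → ∀ x : ι → L, (∀ j, eval x (g j) = 0) →
        (∀ l, eval x (h l * jac g (I l) (J l)) = 0) → x = 0) := by
    by_cases hs : IsSmooth g
    · obtain ⟨N, c, I, J, h, e, b, h1, h2, h3⟩ := exists_certificate g D hg hs
      exact ⟨N, c, I, J, h, e, b, h1, h2, fun _ => h3⟩
    · exact ⟨0, Fin.elim0, fun l => l.elim0, fun l => l.elim0, Fin.elim0, Fin.elim0,
        fun l => l.elim0, fun l => l.elim0, fun l => l.elim0, fun h => absurd h hs⟩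
  -- the coefficients
  let S : Finset L := (Finset.univ.biUnion fun j => (g j).coeffs) ∪
    (Finset.univ.biUnion fun j => (q j).coeffs) ∪ (Finset.univ.biUnion fun l => (h l).coeffs) ∪
    (Finset.univ.biUnion fun l => Finset.univ.biUnion fun j => Finset.univ.biUnion fun i =>
      (b l j i).coeffs)
  have hSg : ∀ j, ∀ x ∈ (g j).coeffs, x ∈ S := fun j x hx =>
    Finset.mem_union_left _ (Finset.mem_union_left _ (Finset.mem_union_left _
      (Finset.mem_biUnion.2 ⟨j, Finset.mem_univ j, hx⟩)))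
  have hSq : ∀ j, ∀ x ∈ (q j).coeffs, x ∈ S := fun j x hx =>
    Finset.mem_union_left _ (Finset.mem_union_left _ (Finset.mem_union_right _
      (Finset.mem_biUnion.2 ⟨j, Finset.mem_univ j, hx⟩)))
  have hSh : ∀ l, ∀ x ∈ (h l).coeffs, x ∈ S := fun j x hx =>
    Finset.mem_union_left _ (Finset.mem_union_right _
      (Finset.mem_biUnion.2 ⟨j, Finset.mem_univ j, hx⟩))
  have hSb : ∀ l j i, ∀ x ∈ (b l j i).coeffs, x ∈ S := fun l j i x hx =>
    Finset.mem_union_right _ (Finset.mem_biUnion.2 ⟨l, Finset.mem_univ l,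
      Finset.mem_biUnion.2 ⟨j, Finset.mem_univ j, Finset.mem_biUnion.2 ⟨i, Finset.mem_univ i, hx⟩⟩⟩)
  let A := Algebra.adjoin k (S : Set L)
  let χ : A →+* L := A.val.toRingHom
  have hinj : Function.Injective χ := Subtype.val_injective
  choose gR hgR using fun j => exists_lift (k := k) S (g j) (hSg j)
  choose qR hqR using fun j => exists_lift (k := k) S (q j) (hSq j)
  choose hR hhR using fun l => exists_lift (k := k) S (h l) (hSh l)
  choose bR hbR using fun l j i => exists_lift (k := k) S (b l j i) (hSb l j i)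
  have hgRh : ∀ j, (gR j).IsHomogeneous (D j) := fun j =>
    homogeneous_of_map hinj (by rw [hgR]; exact hg j)
  have hqRh : ∀ j, (qR j).IsHomogeneous (Dq j) := fun j =>
    homogeneous_of_map hinj (by rw [hqR]; exact hq j)
  have hhRh : ∀ j, (hR j).IsHomogeneous (e j) := fun j =>
    homogeneous_of_map hinj (by rw [hhR]; exact hh j)
  have hgRf : (fun j => MvPolynomial.map χ (gR j)) = g := funext hgR
  -- the identities over the subring
  have hid : ∀ l j, hR l * gR j = ∑ i, bR l j i * gR (I l i) := by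
    intro l j
    apply map_injective χ hinj
    rw [map_mul, map_sum, hhR, hgR, hhb]
    refine Finset.sum_congr rfl fun i _ => ?_
    rw [map_mul, hbR, hgR]
  -- the first open condition
  obtain ⟨Δ₁, hΔ₁, hΔ₁'⟩ := open_noZero (Sum.elim gR qR) (Sum.elim D Dq)
    (by rintro (j | j); exacts [hgRh j, hqRh j]) χ (fun x hx => hq0 x
      (fun j => by
        have h1 := hx (Sum.inl j)
        rw [Sum.elim_inl] at h1
        rw [← hgR j]
        exact h1)
      (fun j => by
        have h1 := hx (Sum.inr j)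
        rw [Sum.elim_inr] at h1
        rw [← hqR j]
        exact h1))
  -- the second open condition
  obtain ⟨Δ₂, hΔ₂, hΔ₂'⟩ : ∃ Δ₂ : A, χ Δ₂ ≠ 0 ∧ (IsSmooth g → ∀ (χ' : A →+* L), χ' Δ₂ ≠ 0 →
      ∀ x : ι → L, (∀ j, eval x (MvPolynomial.map χ' (gR j)) = 0) →
        (∀ l, eval x (MvPolynomial.map χ' (hR l * jac gR (I l) (J l))) = 0) → x = 0) := by
    by_cases hs : IsSmooth g
    · obtain ⟨Δ₂, hΔ₂, hΔ₂'⟩ := open_noZero
        (Sum.elim gR fun l => hR l * jac gR (I l) (J l))
        (Sum.elim D fun l => e l + ∑ i, (D (I l i) - 1))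
        (by
          rintro (j | l)
          · exact hgRh j
          · exact (hhRh l).mul (jac_homogeneous hgRh _ _)) χ (fun x hx => hcert hs x
          (fun j => by
            have h1 := hx (Sum.inl j)
            rw [Sum.elim_inl] at h1
            rw [← hgR j]
            exact h1)
          (fun l => by
            have h1 := hx (Sum.inr l)
            rw [Sum.elim_inr, map_mul, map_jac, hgRf] at h1
            rw [← hhR l]
            exact h1))
      refine ⟨Δ₂, hΔ₂, fun _ χ' hχ' x hx hx' => hΔ₂' χ' hχ' x ?_⟩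
      rintro (j | l)
      · exact hx j
      · exact hx' l
    · exact ⟨1, by rw [map_one]; exact one_ne_zero, fun h => absurd h hs⟩
  obtain ⟨s, hsΔ, hs⟩ := exists_spec_ne ha hdense hsmall S (Δ₁ * Δ₂)
    (by
      have h1 : χ (Δ₁ * Δ₂) ≠ 0 := by
        rw [map_mul]
        exact mul_ne_zero hΔ₁ hΔ₂
      exact h1) hε
  let ψ : A →+* L := (algebraMap k L).comp s.toRingHom
  have hψΔ : ψ Δ₁ ≠ 0 ∧ ψ Δ₂ ≠ 0 := by
    have h1 : ψ (Δ₁ * Δ₂) ≠ 0 := by
      change algebraMap k L (s (Δ₁ * Δ₂)) ≠ 0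
      intro h2
      exact hsΔ ((algebraMap k L).injective (h2.trans (map_zero _).symm))
    rw [map_mul] at h1
    exact ⟨left_ne_zero_of_mul h1, right_ne_zero_of_mul h1⟩
  have hmap : ∀ f : MvPolynomial ι A, MvPolynomial.map (algebraMap k L)
      (MvPolynomial.map s.toRingHom f) = MvPolynomial.map ψ f := fun f => map_map _ _ _
  refine ⟨fun j => MvPolynomial.map s.toRingHom (gR j), fun j => MvPolynomial.map s.toRingHom (qR j),
    fun j => (hgRh j).map _, fun j => (hqRh j).map _, fun j m => ?_, fun x hx hx' => ?_,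
    fun hd => ?_, fun hsm => ?_⟩
  · rw [coeff_map, coeff_map]
    have h1 : coeff m (g j) = ((coeff m (gR j) : A) : L) := by
      rw [← hgR j, coeff_map]
      rfl
    by_cases h0 : coeff m (g j) = 0
    · have h2 : coeff m (gR j) = 0 := Subtype.ext (by rw [← h1, h0]; rfl)
      rw [h0, h2, map_zero, map_zero, sub_zero, map_zero]
      exact hε.le
    · have h3 : coeff m (g j) ∈ S := hSg j _ (coeff_mem_coeffs m h0)
      rw [h1] at h3 ⊢
      exact hs _ h3
  · refine hΔ₁' ψ hψΔ.1 x ?_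
    rintro (j | j)
    · rw [Sum.elim_inl, ← hmap]
      exact hx j
    · rw [Sum.elim_inr, ← hmap]
      exact hx' j
  · simp only [hmap]
    refine dimGE_spec gR D hgRh χ ψ (fun a ha => ?_) ?_
    · have h3 : a = 0 := hinj (ha.trans (map_zero _).symm)
      rw [h3, map_zero]
    · have h4 : ∀ j, MvPolynomial.map χ (gR j) = g j := hgR
      simp only [h4]
      exact hd
  · intro x hx0 hx
    simp only [hmap] at hx ⊢
    obtain ⟨l, hl⟩ : ∃ l, eval x (MvPolynomial.map ψ (hR l * jac gR (I l) (J l))) ≠ 0 := by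
      by_contra hno
      push Not at hno
      exact hx0 (hΔ₂' hsm ψ hψΔ.2 x hx hno)
    rw [map_mul, map_mul] at hl
    refine ⟨c l, I l, MvPolynomial.map ψ (hR l), left_ne_zero_of_mul hl, fun j => ?_, ?_⟩
    · rw [← map_mul, hid, map_sum]
      refine Ideal.sum_mem _ fun i _ => ?_
      rw [map_mul]
      exact Ideal.mul_mem_left _ _ (Ideal.subset_span ⟨i, rfl⟩)
    · refine linearIndependent_of_minor _ (J l) ?_
      have h1 := right_ne_zero_of_mul hl
      rw [map_jac, eval_jac] at h1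
      exact h1

end spec

end Pool.Agent.Q219.PT
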