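import Pool.Agent.Q219.PT.Dist

/-!
# Specialisation to a dense algebraically closed subfield
-/

set_option autoImplicit false
set_option linter.unusedSectionVars false

open MvPolynomial Pool.Agent.Y129.TA Pool.Agent.Y129.TB

namespace Pool.Agent.Q219.PT

section

variable {k L : Type} [Field k] [IsAlgClosed k] [Field L] [IsAlgClosed L] [Algebra k L]

/-- The point `u` of `L ^ σ` has specialisations over `k` which are near to `u`. -/
theorem exists_near_point {a : AbsoluteValue L ℝ} (ha : ∀ x y, a (x + y) ≤ max (a x) (a y))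
    (hdense : ∀ (x : L) (δ : ℝ), 0 < δ → ∃ y : k, a (x - algebraMap k L y) ≤ δ)
    (hsmall : ∃ ϖ : k, ϖ ≠ 0 ∧ a (algebraMap k L ϖ) < 1) {σ : Type} [Finite σ] (u : σ → L) {δ : ℝ}
    (hδ : 0 < δ) :
    ∃ v : σ → k, (∀ i, a (u i - algebraMap k L (v i)) ≤ δ) ∧
      ∀ f : MvPolynomial σ k, aeval u f = 0 → eval v f = 0 := by
  classical
  have : Fintype σ := Fintype.ofFinite σ
  -- a large element
  obtain ⟨c, hc0, hc⟩ : ∃ c : k, c ≠ 0 ∧ ∀ i, a (u i) ≤ a (algebraMap k L c) := by
    obtain ⟨ϖ, hϖ0, hϖ⟩ := hsmall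
    have hϖL : algebraMap k L ϖ ≠ 0 := fun h => hϖ0 ((map_eq_zero _).1 h)
    have hpos : 0 < a (algebraMap k L ϖ) := a.pos hϖL
    have hB : 0 ≤ ∑ i, a (u i) := Finset.sum_nonneg fun i _ => a.nonneg _
    obtain ⟨N, hN⟩ := exists_pow_lt_of_lt_one (show 0 < 1 / (1 + ∑ i, a (u i)) by positivity) hϖ
    refine ⟨(ϖ ^ N)⁻¹, inv_ne_zero (pow_ne_zero _ hϖ0), fun i => ?_⟩
    rw [map_inv₀, map_inv₀, map_pow, map_pow]
    rw [lt_div_iff₀ (by positivity)] at hN
    have h1 : a (u i) ≤ ∑ i, a (u i) :=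
      Finset.single_le_sum (f := fun i => a (u i)) (fun i _ => a.nonneg _) (Finset.mem_univ i)
    have h2 : 0 < a (algebraMap k L ϖ) ^ N := pow_pos hpos N
    rw [← one_div, le_div_iff₀ h2]
    nlinarith
  have hcL : algebraMap k L c ≠ 0 := fun h => hc0 ((map_eq_zero _).1 h)
  have hcpos : 0 < a (algebraMap k L c) := a.pos hcL
  -- generators of the ideal of relations
  obtain ⟨t, ht⟩ := (isNoetherian_def.1 (inferInstance : IsNoetherian (MvPolynomial σ k)
    (MvPolynomial σ k))) (RingHom.ker (aeval u : MvPolynomial σ k →ₐ[k] L))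
  let f : t → MvPolynomial σ k := fun j => aeval (fun i => C c * X i) (j : MvPolynomial σ k)
  have hfev : ∀ {A : Type} [Field A] [Algebra k A] (z : σ → A) (j : t),
      aeval z (f j) = aeval (fun i => algebraMap k A c * z i) (j : MvPolynomial σ k) := by
    intro A _ _ z j
    have h : (aeval z : MvPolynomial σ k →ₐ[k] A).comp
        (aeval (fun i => C c * X i)) = aeval (fun i => algebraMap k A c * z i) := by
      ext i
      simp
    exact congrArg (fun φ : MvPolynomial σ k →ₐ[k] A => φ j) h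
  let z : σ → L := fun i => (algebraMap k L c)⁻¹ * u i
  have hzu : ∀ i, algebraMap k L c * z i = u i := fun i => by
    change algebraMap k L c * ((algebraMap k L c)⁻¹ * u i) = u i
    rw [← mul_assoc, mul_inv_cancel₀ hcL, one_mul]
  have hz1 : ∀ i, a (z i) ≤ 1 := by
    intro i
    change a ((algebraMap k L c)⁻¹ * u i) ≤ 1
    rw [map_mul, map_inv₀, inv_mul_le_iff₀ hcpos, mul_one]
    exact hc i
  have hfz : ∀ j, aeval z (f j) = 0 := by
    intro j
    rw [hfev]
    have h1 : (fun i => algebraMap k L c * z i) = u := funext hzu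
    rw [h1]
    have h2 : (j : MvPolynomial σ k) ∈ RingHom.ker (aeval u : MvPolynomial σ k →ₐ[k] L) := by
      rw [← ht]
      exact Submodule.subset_span j.2
    exact h2
  set δ₁ : ℝ := δ / a (algebraMap k L c) with hδ₁
  have hδ₁0 : 0 < δ₁ := div_pos hδ hcpos
  let b : AbsoluteValue k ℝ := a.comp (algebraMap k L).injective
  have hb : ∀ x, b x = a (algebraMap k L x) := fun x => rfl
  obtain ⟨ε, hε, hloj⟩ := loj b f hδ₁0
  choose Lc hL0 hL using fun j => lipschitz ha (MvPolynomial.map (algebraMap k L) (f j))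
  obtain ⟨η, hη, hη'⟩ := exists_pos_le (fun j => ε / (Lc j + 1))
    (fun j => div_pos hε (by linarith [hL0 j]))
  set η₁ : ℝ := min η (min δ₁ 1) with hη₁
  have hη₁0 : 0 < η₁ := lt_min hη (lt_min hδ₁0 one_pos)
  choose w hw using fun i => hdense (z i) η₁ hη₁0
  have hw1 : ∀ i, a (algebraMap k L (w i)) ≤ 1 := by
    intro i
    have h1 : algebraMap k L (w i) = z i + -(z i - algebraMap k L (w i)) := by ring
    rw [h1]
    refine (ha _ _).trans (max_le (hz1 i) ?_)
    rw [AbsoluteValue.map_neg]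
    exact (hw i).trans ((min_le_right _ _).trans (min_le_right _ _))
  obtain ⟨w', hw', hww'⟩ := hloj w hw1 fun j => by
    rw [hb]
    have h1 : algebraMap k L (eval w (f j)) =
        eval (fun i => algebraMap k L (w i)) (MvPolynomial.map (algebraMap k L) (f j)) := by
      rw [eval_map_alg, ← aeval_eq_eval]
      exact (aeval_algebraMap_apply L w (f j)).symm
    have h2 := hL j (fun i => algebraMap k L (w i)) z hw1 hz1 η₁ hη₁0.le (fun i => by
      rw [← AbsoluteValue.map_neg, neg_sub]
      exact hw i)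
    rw [eval_map_alg (f j) z, hfz j, sub_zero, ← h1] at h2
    refine h2.trans ?_
    have h4 : Lc j * η₁ ≤ Lc j * (ε / (Lc j + 1)) :=
      mul_le_mul_of_nonneg_left ((min_le_left _ _).trans (hη' j)) (hL0 j)
    refine h4.trans ?_
    rw [mul_div_assoc', div_le_iff₀ (by linarith [hL0 j])]
    nlinarith [hL0 j]
  refine ⟨fun i => c * w' i, fun i => ?_, fun g hg => ?_⟩
  · have h1 : u i - algebraMap k L (c * w' i) =
        algebraMap k L c * ((z i - algebraMap k L (w i)) + (algebraMap k L (w i - w' i))) := by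
      rw [← hzu i, map_mul, map_sub]
      ring
    rw [h1, map_mul]
    have h2 : a ((z i - algebraMap k L (w i)) + algebraMap k L (w i - w' i)) ≤ δ₁ := by
      refine (ha _ _).trans (max_le ?_ (hww' i))
      exact (hw i).trans ((min_le_right _ _).trans (min_le_left _ _))
    refine (mul_le_mul_of_nonneg_left h2 hcpos.le).trans ?_
    rw [hδ₁, mul_div_cancel₀ _ hcpos.ne']
  · have h1 : RingHom.ker (aeval u : MvPolynomial σ k →ₐ[k] L) ≤
        RingHom.ker (eval fun i => c * w' i) := by
      rw [← ht]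
      refine Submodule.span_le.2 fun j hj => ?_
      change eval (fun i => c * w' i) j = 0
      have h2 := hw' ⟨j, hj⟩
      have h3 := hfev w' ⟨j, hj⟩
      rw [aeval_eq_eval] at h3
      have h4 : aeval (fun i => algebraMap k k c * w' i) j = eval (fun i => c * w' i) j := by
        rw [aeval_eq_eval]
        rfl
      rw [← h4, ← h3]
      exact h2
    exact h1 hg

/-- A finitely generated subalgebra has a homomorphism to `k`, which is near to the inclusion on a
given finite set. -/
theorem exists_spec {a : AbsoluteValue L ℝ} (ha : ∀ x y, a (x + y) ≤ max (a x) (a y))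
    (hdense : ∀ (x : L) (δ : ℝ), 0 < δ → ∃ y : k, a (x - algebraMap k L y) ≤ δ)
    (hsmall : ∃ ϖ : k, ϖ ≠ 0 ∧ a (algebraMap k L ϖ) < 1) (S : Finset L) {δ : ℝ} (hδ : 0 < δ) :
    ∃ s : Algebra.adjoin k (S : Set L) →ₐ[k] k, ∀ x : Algebra.adjoin k (S : Set L),
      (x : L) ∈ S → a ((x : L) - algebraMap k L (s x)) ≤ δ := by
  classical
  obtain ⟨v, hv1, hv2⟩ := exists_near_point ha hdense hsmall (fun i : S => (i : L)) hδ
  let φ : MvPolynomial S k →ₐ[k] Algebra.adjoin k (S : Set L) :=
    aeval fun i => ⟨(i : L), Algebra.subset_adjoin i.2⟩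
  have hφ : ∀ f, ((φ f : Algebra.adjoin k (S : Set L)) : L) = aeval (fun i : S => (i : L)) f := by
    intro f
    have h : ((Algebra.adjoin k (S : Set L)).val.comp φ) = aeval (fun i : S => (i : L)) := by
      ext i
      simp [φ]
    exact congrArg (fun ψ : MvPolynomial S k →ₐ[k] L => ψ f) h
  have hsurj : Function.Surjective φ := by
    rintro ⟨x, hx⟩
    have h1 := hx
    rw [Algebra.adjoin_eq_range] at h1
    obtain ⟨f, hf⟩ := h1
    refine ⟨f, Subtype.ext ?_⟩
    rw [hφ]
    exact hf
  have hker : RingHom.ker φ.toRingHom ≤ RingHom.ker (aeval v : MvPolynomial S k →ₐ[k] k).toRingHom := by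
    intro f hf
    have h1 : φ f = 0 := hf
    have h2 : aeval (fun i : S => (i : L)) f = 0 := by
      rw [← hφ, h1]
      rfl
    change aeval v f = 0
    rw [aeval_eq_eval]
    exact hv2 f h2
  refine ⟨AlgHom.liftOfSurjective φ hsurj (aeval v) hker, fun x hx => ?_⟩
  have h1 : x = φ (X ⟨(x : L), hx⟩) := by
    apply Subtype.ext
    rw [hφ, aeval_X]
  rw [h1, AlgHom.liftOfSurjective_apply, hφ, aeval_X, aeval_X]
  exact hv1 ⟨(x : L), hx⟩

end

end Pool.Agent.Q219.PT
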