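import Pool.Agent.Q219.PT.Dist

/-!
# The coordinatewise `p`-th power and the distance
-/

set_option autoImplicit false
set_option linter.unusedSectionVars false

open MvPolynomial Pool.Agent.Y129.TA Pool.Agent.Y129.TB

namespace Pool.Agent.Q219.PT

section elem

variable {k : Type} [Field k]

/-- An `n`-th root of `x` near `t`. -/
theorem exists_root_near [IsAlgClosed k] (a : AbsoluteValue k ℝ) {n : ℕ} (hn : 0 < n) (t x : k) :
    ∃ r, r ^ n = x ∧ a (t - r) ^ n ≤ a (t ^ n - x) := by
  let : NormedField k := a.toNormedField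
  have hnorm : ∀ x : k, ‖x‖ = a x := fun x => rfl
  have hm : (Polynomial.X ^ n - Polynomial.C x : Polynomial k).natDegree = n :=
    Polynomial.natDegree_X_pow_sub_C
  have hl : (Polynomial.X ^ n - Polynomial.C x : Polynomial k).leadingCoeff = 1 :=
    Polynomial.leadingCoeff_X_pow_sub_C hn
  obtain ⟨r, h1, h2⟩ := root_near (P := (Polynomial.X ^ n - Polynomial.C x : Polynomial k))
    (by rw [hm]; exact hn) t
  refine ⟨r, ?_, ?_⟩
  · simpa [sub_eq_zero] using h1
  · rw [hm, hl, norm_one, div_one] at h2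
    simpa [hnorm] using h2

/-- The absolute value of a natural number is at most one. -/
theorem abs_natCast_le {a : AbsoluteValue k ℝ} (ha : ∀ x y, a (x + y) ≤ max (a x) (a y)) (n : ℕ) :
    a (n : k) ≤ 1 := by
  induction n with
  | zero => simp
  | succ n ih =>
    rw [Nat.cast_succ]
    refine (ha _ _).trans (max_le ih ?_)
    rw [map_one]

/-- The `p`-th powers of two close elements. -/
theorem pow_close {a : AbsoluteValue k ℝ} (ha : ∀ x y, a (x + y) ≤ max (a x) (a y)) {p : ℕ}
    (hp : p.Prime) {A B : k} {M r : ℝ} (hr : 0 ≤ r) (hr1 : r ≤ 1) (hA : a A ≤ M)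
    (h : a (A - B) ≤ r * M) : a (A ^ p - B ^ p) ≤ max (r ^ p) (a (p : k) * r) * M ^ p := by
  have hM : 0 ≤ M := (a.nonneg _).trans hA
  have hu : a (A - B) ≤ M := h.trans (mul_le_of_le_one_left hM hr1)
  have hB : a B ≤ M := by
    have h1 : B = A + -(A - B) := by ring
    rw [h1]
    refine (ha _ _).trans (max_le hA ?_)
    rw [AbsoluteValue.map_neg]
    exact hu
  have h1 := add_pow_prime_eq hp B (A - B)
  have h2 : B + (A - B) = A := by ring
  rw [h2] at h1
  have h3 : A ^ p - B ^ p = (A - B) ^ p + p * B * (A - B) *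
      ∑ k ∈ Finset.Ioo 0 p, B ^ (k - 1) * (A - B) ^ (p - k - 1) * ↑(p.choose k / p) := by
    rw [h1]
    ring
  have h4 : a (∑ k ∈ Finset.Ioo 0 p, B ^ (k - 1) * (A - B) ^ (p - k - 1) * ↑(p.choose k / p)) ≤
      M ^ (p - 2) := by
    have h5 : ∀ s : Finset ℕ, (∀ i ∈ s, i ∈ Finset.Ioo 0 p) →
        a (∑ k ∈ s, B ^ (k - 1) * (A - B) ^ (p - k - 1) * ↑(p.choose k / p)) ≤ M ^ (p - 2) := by
      intro s
      classical
      induction s using Finset.induction_on with
      | empty =>
        intro _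
        rw [Finset.sum_empty, map_zero]
        exact pow_nonneg hM _
      | insert i s hi ih =>
        intro hs
        rw [Finset.sum_insert hi]
        refine (ha _ _).trans (max_le ?_ (ih fun j hj => hs j (Finset.mem_insert_of_mem hj)))
        have h6 := Finset.mem_Ioo.1 (hs i (Finset.mem_insert_self i s))
        rw [map_mul, map_mul, map_pow, map_pow]
        have h7 : M ^ (i - 1) * M ^ (p - i - 1) = M ^ (p - 2) := by
          rw [← pow_add]
          congr 1
          omega
        calc a B ^ (i - 1) * a (A - B) ^ (p - i - 1) * a ((p.choose i / p : ℕ) : k)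
            ≤ (M ^ (i - 1) * M ^ (p - i - 1)) * 1 := by
              refine mul_le_mul ?_ (abs_natCast_le ha _) (a.nonneg _) (by positivity)
              exact mul_le_mul (pow_le_pow_left₀ (a.nonneg _) hB _)
                (pow_le_pow_left₀ (a.nonneg _) hu _) (pow_nonneg (a.nonneg _) _) (by positivity)
          _ = M ^ (p - 2) := by rw [mul_one, h7]
    exact h5 _ fun i hi => hi
  rw [h3, max_mul_of_nonneg _ _ (pow_nonneg hM p)]
  refine (ha _ _).trans (max_le_max ?_ ?_)
  · rw [map_pow, ← mul_pow]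
    exact pow_le_pow_left₀ (a.nonneg _) h p
  · rw [map_mul, map_mul, map_mul]
    have h8 : M * M * M ^ (p - 2) = M ^ p := by
      rw [← pow_two, ← pow_add]
      congr 1
      have := hp.two_le
      omega
    calc a (p : k) * a B * a (A - B) * a (∑ k ∈ Finset.Ioo 0 p,
          B ^ (k - 1) * (A - B) ^ (p - k - 1) * ↑(p.choose k / p))
        ≤ a (p : k) * M * (r * M) * M ^ (p - 2) := by
          refine mul_le_mul ?_ h4 (a.nonneg _) (by positivity)
          refine mul_le_mul ?_ h (a.nonneg _) (by positivity)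
          exact mul_le_mul_of_nonneg_left hB (a.nonneg _)
      _ = a (p : k) * r * (M * M * M ^ (p - 2)) := by ring
      _ = a (p : k) * r * M ^ p := by rw [h8]

end elem

section step

variable {p : ℕ} [hp : Fact p.Prime] {C F ι K E : Type} [Field C] [Field F] [CharP F p] [Field K]
  [Field E] [Algebra K C] [Algebra E F] [IsAlgClosed C] [IsAlgClosed F] [Fintype ι] [Nonempty ι]
  {T : TiltPair p C F} {X : Set (ι → C)} {d : ℕ}

theorem charE (p : ℕ) (F : Type) [Field F] [CharP F p] (E : Type) [Field E] [Algebra E F] :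
    CharP E p :=
  (algebraMap E F).charP (algebraMap E F).injective p

/-- Approximation of the roots. -/
theorem within_rootsOf {δ : ℝ} (hδ : 0 ≤ δ) (h : ApproxWithin T E X d (δ ^ p)) :
    ApproxWithin T E (rootsOf p X) d δ := by
  obtain ⟨Y, h1, h2, h3, h4⟩ := h
  refine ⟨rootsOf p Y, isConeOver_rootsOf h1 p, dimGE_rootsOf h2, dimLE_rootsOf h3, fun y hy => ?_⟩
  obtain ⟨x, hx, hxy⟩ := h4 _ hy
  choose r hr hr' using fun i => exists_root_near T.absK hp.out.pos (T.sharp (y i)) (x i)
  refine ⟨r, ?_, fun i => ?_⟩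
  · change (fun i => r i ^ p) ∈ X
    have : (fun i => r i ^ p) = x := funext hr
    rw [this]
    exact hx
  · have h5 := (hr' i).trans (show T.absK (T.sharp (y i) ^ p - x i) ≤
      δ ^ p * size T (fun i => T.sharp (y i ^ p)) by
        rw [← map_pow]
        exact hxy i)
    have h6 : size T (fun i => T.sharp (y i ^ p)) = size T (fun i => T.sharp (y i)) ^ p := by
      rw [← size_pow]
      congr 1
      funext i
      exact map_pow _ _ _
    rw [h6, ← mul_pow] at h5
    exact le_of_pow_le_pow_left₀ hp.out.ne_zero (mul_nonneg hδ (size_nonneg T _)) h5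

/-- Approximation of the `p`-th powers. -/
theorem within_of_rootsOf {r : ℝ} (hr : 0 ≤ r) (hr1 : r ≤ 1)
    (h : ApproxWithin T E (rootsOf p X) d r) :
    ApproxWithin T E X d (max (r ^ p) (T.absK (p : C) * r)) := by
  obtain ⟨Y, h1, h2, h3, h4⟩ := h
  have hE : CharP E p := charE p F E
  refine ⟨powImage p Y, isConeOver_powImage h1, dimGE_powImage h2, dimLE_powImage h3, ?_⟩
  rintro _ ⟨y, hy, rfl⟩
  obtain ⟨x, hx, hxy⟩ := h4 y hy
  refine ⟨_, hx, fun i => ?_⟩
  have h6 : size T (fun i => T.sharp (y i ^ p)) = size T (fun i => T.sharp (y i)) ^ p := by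
    rw [← size_pow]
    congr 1
    funext i
    exact map_pow _ _ _
  change T.absK (T.sharp (y i ^ p) - x i ^ p) ≤ _ * size T (fun i => T.sharp (y i ^ p))
  rw [h6, map_pow]
  exact pow_close T.ultraK hp.out hr hr1 (le_size T (fun i => T.sharp (y i)) i) (hxy i)

/-- The radius after one step. -/
noncomputable def nextRadius (p : ℕ) (σ r : ℝ) : ℝ := max (r ^ p) (σ * r)

theorem nextRadius_mono {σ : ℝ} (hσ : 0 ≤ σ) {r s : ℝ} (hr : 0 ≤ r) (h : r ≤ s) :
    nextRadius p σ r ≤ nextRadius p σ s :=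
  max_le_max (pow_le_pow_left₀ hr h p) (mul_le_mul_of_nonneg_left h hσ)

theorem nextRadius_nonneg {σ : ℝ} {r : ℝ} (hr : 0 ≤ r) : 0 ≤ nextRadius p σ r :=
  (pow_nonneg hr p).trans (le_max_left _ _)

theorem nextRadius_le {σ : ℝ} (hσ1 : σ ≤ 1) {r : ℝ} (hr : 0 ≤ r) (hr1 : r ≤ 1) :
    nextRadius p σ r ≤ r :=
  max_le (pow_le_of_le_one hr hr1 hp.out.ne_zero) (mul_le_of_le_one_left hr hσ1)

theorem iterate_nonneg {σ r : ℝ} (hr : 0 ≤ r) (m : ℕ) : 0 ≤ (nextRadius p σ)^[m] r := by
  induction m with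
  | zero => exact hr
  | succ m ih =>
    rw [Function.iterate_succ_apply']
    exact nextRadius_nonneg ih

theorem iterate_le {σ r : ℝ} (hσ1 : σ ≤ 1) (hr : 0 ≤ r) (hr1 : r ≤ 1) (m : ℕ) :
    (nextRadius p σ)^[m] r ≤ r := by
  induction m with
  | zero => exact le_rfl
  | succ m ih =>
    rw [Function.iterate_succ_apply']
    exact (nextRadius_le hσ1 (iterate_nonneg hr m) (ih.trans hr1)).trans ih

theorem iterate_le_max {σ r : ℝ} (hσ : 0 ≤ σ) (hσ1 : σ ≤ 1) (hr : 0 ≤ r) (hr1 : r ≤ 1) (N j : ℕ) :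
    (nextRadius p σ)^[j + (N + 1)] r ≤ max (r ^ p ^ j) (σ ^ (N + 1)) := by
  have hp2 := hp.out.two_le
  have h0 : ∀ j, 0 ≤ r ^ p ^ j := fun j => pow_nonneg hr _
  have h1 : ∀ j, r ^ p ^ j ≤ 1 := fun j => pow_le_one₀ hr hr1
  induction N generalizing j with
  | zero =>
    rw [zero_add, pow_one]
    induction j with
    | zero =>
      rw [zero_add, Function.iterate_one, pow_zero, pow_one]
      exact (nextRadius_le hσ1 hr hr1).trans (le_max_left _ _)
    | succ j ih =>
      rw [show j + 1 + 1 = (j + 1) + 1 from rfl, Function.iterate_succ_apply']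
      refine (nextRadius_mono hσ (iterate_nonneg hr _) ih).trans ?_
      unfold nextRadius
      refine max_le ?_ ?_
      · rcases le_total (r ^ p ^ j) σ with h | h
        · rw [max_eq_right h]
          exact (pow_le_of_le_one hσ hσ1 (by omega)).trans (le_max_right _ _)
        · rw [max_eq_left h, ← pow_mul, ← pow_succ]
          exact le_max_left _ _
      · refine le_trans ?_ (le_max_right _ _)
        exact mul_le_of_le_one_right hσ (max_le (h1 j) hσ1)
  | succ N ih =>
    rw [show j + (N + 1 + 1) = (j + (N + 1)) + 1 from by omega, Function.iterate_succ_apply']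
    refine (nextRadius_mono hσ (iterate_nonneg hr _) (ih j)).trans ?_
    have hs : (0 : ℝ) ≤ σ ^ (N + 1) := pow_nonneg hσ _
    unfold nextRadius
    refine max_le ?_ ?_
    · rcases le_total (r ^ p ^ j) (σ ^ (N + 1)) with h | h
      · rw [max_eq_right h, ← pow_mul]
        refine le_trans ?_ (le_max_right _ _)
        refine pow_le_pow_of_le_one hσ hσ1 ?_
        nlinarith
      · rw [max_eq_left h]
        exact (pow_le_of_le_one (h0 j) (h1 j) (by omega)).trans (le_max_left _ _)
    · rw [mul_max_of_nonneg _ _ hσ]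
      refine max_le_max ?_ ?_
      · exact mul_le_of_le_one_left (h0 j) hσ1
      · rw [pow_succ' σ (N + 1)]

/-- Descent along the powers of `p`. -/
theorem within_iterate {r : ℝ} (hr : 0 ≤ r) (hr1 : r ≤ 1) (m : ℕ)
    (h : ApproxWithin T E (rootsOf (p ^ m) X) d r) :
    ApproxWithin T E X d ((nextRadius p (T.absK (p : C)))^[m] r) := by
  induction m generalizing r with
  | zero =>
    have h1 : rootsOf (p ^ 0) X = X := by
      ext x
      change (fun i => x i ^ p ^ 0) ∈ X ↔ _
      simp only [pow_zero, pow_one]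
    rw [h1] at h
    exact h
  | succ m ih =>
    rw [rootsOf_pow_succ] at h
    have h1 := within_of_rootsOf hr hr1 h
    rw [Function.iterate_succ_apply]
    exact ih (nextRadius_nonneg hr) ((nextRadius_le T.p_lt.le hr hr1).trans hr1) h1

/-- Approximations of the roots within radii `r` with `r ^ p ^ m` small. -/
theorem within_of_coarse
    (h : ∀ ε : ℝ, 0 < ε → ∃ m : ℕ, ∃ r : ℝ, 0 < r ∧ r ^ p ^ m ≤ ε ∧
      ApproxWithin T E (rootsOf (p ^ m) X) d r) {δ : ℝ} (hδ : 0 < δ) : ApproxWithin T E X d δ := by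
  have hσ : 0 < T.absK (p : C) := T.absK.pos T.p_ne
  set δ' : ℝ := min δ 1 with hδ'
  have hδ'0 : 0 < δ' := lt_min hδ one_pos
  have hδ'1 : δ' ≤ 1 := min_le_right _ _
  obtain ⟨N, hN⟩ := exists_pow_lt_of_lt_one hδ'0 T.p_lt
  obtain ⟨m, r, hr, hrm, hX⟩ := h (δ' ^ p ^ (N + 1)) (pow_pos hδ'0 _)
  have hpm : p ^ m ≠ 0 := pow_ne_zero _ hp.out.ne_zero
  have hr1 : r ≤ 1 := by
    by_contra hlt
    push Not at hlt
    have h1 : 1 < r ^ p ^ m := one_lt_pow₀ hlt hpm
    exact absurd (hrm.trans (pow_le_one₀ hδ'0.le hδ'1)) (not_le.2 h1)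
  have h1 := within_iterate hr.le hr1 m hX
  refine h1.mono ((?_ : _ ≤ δ').trans (min_le_left _ _))
  rcases Nat.lt_or_ge m (N + 1) with hm | hm
  · refine (iterate_le T.p_lt.le hr.le hr1 m).trans ?_
    have h2 : δ' ^ p ^ (N + 1) = (δ' ^ p ^ (N + 1 - m)) ^ p ^ m := by
      rw [← pow_mul, ← pow_add]
      congr 2
      omega
    rw [h2] at hrm
    have h3 : r ≤ δ' ^ p ^ (N + 1 - m) :=
      le_of_pow_le_pow_left₀ hpm (pow_nonneg hδ'0.le _) hrm
    exact h3.trans (pow_le_of_le_one hδ'0.le hδ'1 (pow_ne_zero _ hp.out.ne_zero))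
  · obtain ⟨j, rfl⟩ : ∃ j, m = j + (N + 1) := ⟨m - (N + 1), by omega⟩
    refine (iterate_le_max hσ.le T.p_lt.le hr.le hr1 N j).trans (max_le ?_ ?_)
    · rw [pow_add, pow_mul] at hrm
      exact le_of_pow_le_pow_left₀ (pow_ne_zero _ hp.out.ne_zero) hδ'0.le hrm
    · rw [pow_succ]
      exact (mul_le_of_le_one_right (pow_nonneg hσ.le _) T.p_lt.le).trans hN.le

/-- Approximation of all roots. -/
theorem within_roots (h : ∀ δ : ℝ, 0 < δ → ApproxWithin T E X d δ) (m : ℕ) {δ : ℝ} (hδ : 0 < δ) :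
    ApproxWithin T E (rootsOf (p ^ m) X) d δ := by
  induction m generalizing δ with
  | zero =>
    have h1 : rootsOf (p ^ 0) X = X := by
      ext x
      change (fun i => x i ^ p ^ 0) ∈ X ↔ _
      simp only [pow_zero, pow_one]
    rw [h1]
    exact h δ hδ
  | succ m ih =>
    rw [rootsOf_pow_succ]
    exact within_rootsOf hδ.le (ih (pow_pos hδ p))

end step

end Pool.Agent.Q219.PT
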